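import Mathlib

namespace Pool.Agent.Work.MP_1d48d5_pr

/-- Contingency tables: matrices of natural numbers with row sums `r` and column sums `c`. -/
def tables {m : ℕ} (r c : Fin m → ℕ) : Set (Fin m → Fin m → ℕ) :=
  {X | (∀ i, ∑ j, X i j = r i) ∧ ∀ j, ∑ i, X i j = c j}

/-- The number `d` of heavy rows: the floor of `n ^ δ`. -/
noncomputable def dim (δ : ℝ) (n : ℕ) : ℕ := ⌊(n : ℝ) ^ δ⌋₊

/-- The margin vector: `d` entries equal to the floor of `B C n`, then `n` entries equal to the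
floor of `C n`. -/
noncomputable def margin (B C δ : ℝ) (n : ℕ) : Fin (dim δ n + n) → ℕ :=
  fun i => if (i : ℕ) < dim δ n then ⌊B * C * n⌋₊ else ⌊C * n⌋₊

/-- The sum of the entries of the first row that lie in the last `n` columns. -/
def blockSum (d n : ℕ) (X : Fin (d + n) → Fin (d + n) → ℕ) : ℕ :=
  ∑ k : Fin n, X ⟨0, Nat.add_pos_right d k.pos⟩ (Fin.natAdd d k)

/-- The critical value. -/
noncomputable def Bc (C : ℝ) : ℝ := 1 + √(1 + 1 / C)

end Pool.Agent.Work.MP_1d48d5_pr
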