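import Mathlib
import Pool.Agent.Work.MP_1d48d5_pr.Defs

-- merged part: Pool.Agent.Work.MP_1d48d5_pr.CGood
section
-- merged part: Pool.Agent.Work.MP_1d48d5_pr.CUni
section
/-! Symmetric unimodality of the number of points of a box with a given sum. -/

open Finset

namespace Pool.Agent.Work.MP_1d48d5_pr.CLT

/-- Symmetric and unimodal around `S / 2`. -/
def Uni (a : ℤ → ℤ) (S : ℤ) : Prop := ∀ t t' : ℤ, |2 * t' - S| ≤ |2 * t - S| → a t ≤ a t'

lemma Uni.symm {a : ℤ → ℤ} {S : ℤ} (h : Uni a S) (t : ℤ) : a (S - t) = a t := by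
  have e : |2 * (S - t) - S| = |2 * t - S| := by
    rw [← abs_neg]; congr 1; ring
  exact le_antisymm (h _ _ e.ge) (h _ _ e.le)

lemma uni_of_step {b : ℤ → ℤ} {M : ℤ} (hs : ∀ t, b (M - t) = b t)
    (hm : ∀ t, 2 * t + 1 ≤ M → b t ≤ b (t + 1)) : Uni b M := by
  have mono : ∀ t t', t ≤ t' → 2 * t' ≤ M → b t ≤ b t' := by
    intro t t' h
    induction t', h using Int.leInduction with
    | base => exact fun _ => le_rfl
    | succ x hx ih => exact fun h2 => (ih (by omega)).trans (hm x (by omega))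
  intro t t' h
  rcases le_total (2 * t) M with h1 | h1 <;> rcases le_total (2 * t') M with h2 | h2
  · rw [abs_of_nonpos (by omega), abs_of_nonpos (by omega)] at h
    exact mono _ _ (by omega) h2
  · rw [abs_of_nonneg (by omega), abs_of_nonpos (by omega)] at h
    rw [← hs t']
    exact mono _ _ (by omega) (by omega)
  · rw [abs_of_nonpos (by omega), abs_of_nonneg (by omega)] at h
    rw [← hs t]
    exact mono _ _ (by omega) h2
  · rw [abs_of_nonneg (by omega), abs_of_nonneg (by omega)] at h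
    rw [← hs t, ← hs t']
    exact mono _ _ (by omega) (by omega)

lemma Uni.conv {a : ℤ → ℤ} {S : ℤ} (h : Uni a S) (m : ℕ) :
    Uni (fun t => ∑ y ∈ range (m + 1), a (t - y)) (S + m) := by
  refine uni_of_step (fun t => ?_) fun t ht => ?_
  · rw [← sum_range_reflect]
    refine sum_congr rfl fun y hy => ?_
    have hy' := mem_range.1 hy
    rw [← h.symm]
    congr 1
    push_cast [Nat.add_sub_cancel, Nat.cast_sub (show y ≤ m by omega)]
    ring
  · show ∑ y ∈ range (m + 1), a (t - y) ≤ ∑ y ∈ range (m + 1), a (t + 1 - y)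
    rw [sum_range_succ, sum_range_succ']
    refine add_le_add (le_of_eq (sum_congr rfl fun y _ => ?_)) (h _ _ ?_)
    · congr 1; push_cast; ring
    · rw [abs_of_nonpos (a := 2 * (t - m) - S) (by omega), abs_le]
      constructor <;> push_cast <;> omega

variable {ι : Type} [Fintype ι] [DecidableEq ι]

omit [Fintype ι] in
lemma uni_prod (m : ι → ℕ) (S : Finset ι) :
    Uni (fun t => (∏ a ∈ S, ∑ y ∈ range (m a + 1),
      AddMonoidAlgebra.single (y : ℤ) (1 : ℤ)).coeff t) (∑ a ∈ S, (m a : ℤ)) := by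
  induction S using Finset.induction_on with
  | empty =>
    intro t t' h
    simp only [prod_empty, AddMonoidAlgebra.one_def, AddMonoidAlgebra.coeff_single,
      Finsupp.single_apply, sum_empty, sub_zero] at h ⊢
    split_ifs with h1 h2 <;> try omega
    subst h1
    simp at h
    have := abs_nonpos_iff.1 (show |t'| ≤ 0 by omega)
    omega
  | insert a S ha ih =>
    have := ih.conv (m a)
    rw [sum_insert ha, add_comm]
    convert this using 2 with t
    rw [prod_insert ha, mul_comm, mul_sum, AddMonoidAlgebra.coeff_sum, Finsupp.finsetSum_apply]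
    refine sum_congr rfl fun y _ => ?_
    rw [AddMonoidAlgebra.coeff_mul_single_apply, mul_one, sub_eq_add_neg]

/-- The number of points of a box with a given sum. -/
noncomputable def boxCnt (m : ι → ℤ) (t : ℤ) : ℕ :=
  ((Fintype.piFinset fun a => Icc 0 (m a)).filter fun y => ∑ a, y a = t).card

lemma boxCnt_le {m : ι → ℤ} (hm : ∀ a, 0 ≤ m a) {t t' : ℤ}
    (h : |2 * t' - ∑ a, m a| ≤ |2 * t - ∑ a, m a|) : boxCnt m t ≤ boxCnt m t' := by
  lift m to ι → ℕ using hm
  have key : ∀ t, (boxCnt (fun a => (m a : ℤ)) t : ℤ) = (∏ a, ∑ y ∈ range (m a + 1),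
      AddMonoidAlgebra.single (y : ℤ) (1 : ℤ)).coeff t := by
    intro t
    rw [prod_univ_sum, AddMonoidAlgebra.coeff_sum, Finsupp.finsetSum_apply, boxCnt, card_filter]
    push_cast
    symm
    refine sum_nbij' (fun y a => (y a : ℤ)) (fun y a => (y a).toNat) ?_ ?_ ?_ ?_ ?_
    · intro y hy
      simp only [Fintype.mem_piFinset, mem_range, mem_Icc] at hy ⊢
      exact fun a => by have := hy a; omega
    · intro y hy
      simp only [Fintype.mem_piFinset, mem_range, mem_Icc] at hy ⊢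
      exact fun a => by have := hy a; omega
    · intro y _
      funext a
      simp
    · intro y hy
      funext a
      simp only [Fintype.mem_piFinset, mem_Icc] at hy
      exact Int.toNat_of_nonneg (hy a).1
    · intro y _
      rw [AddMonoidAlgebra.prod_single, AddMonoidAlgebra.coeff_single, Finsupp.single_apply]
      simp
  have := uni_prod m univ t t' h
  simp only [← key] at this
  exact_mod_cast this

end Pool.Agent.Work.MP_1d48d5_pr.CLT
end

-- merged part: Pool.Agent.Work.MP_1d48d5_pr.CTab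
section
/-! Integer tables: switchings, transposition, and fibres over the sum of two columns. -/

open Finset

namespace Pool.Agent.Work.MP_1d48d5_pr.CLT

variable {ι : Type} [Fintype ι] [DecidableEq ι]

/-- Tables with given margins. -/
noncomputable def tab (r c : ι → ℤ) : Finset (ι → ι → ℤ) :=
  (Fintype.piFinset fun a => Fintype.piFinset fun _ => Icc 0 (r a)).filter
    fun X => (∀ a, ∑ b, X a b = r a) ∧ ∀ b, ∑ a, X a b = c b

variable {r c : ι → ℤ} {X : ι → ι → ℤ} {i l k k' : ι}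

lemma mem_tab : X ∈ tab r c ↔
    (∀ a b, 0 ≤ X a b) ∧ (∀ a, ∑ b, X a b = r a) ∧ ∀ b, ∑ a, X a b = c b := by
  simp only [tab, mem_filter, Fintype.mem_piFinset, mem_Icc]
  refine ⟨fun h => ⟨fun a b => (h.1 a b).1, h.2⟩, fun h => ⟨fun a b => ⟨h.1 a b, ?_⟩, h.2⟩⟩
  rw [← h.2.1 a]
  exact single_le_sum (fun b _ => h.1 a b) (mem_univ b)

/-- Indicator of positivity. -/
noncomputable def ind (x : ℤ) : ℝ := if 0 < x then 1 else 0

lemma ind_nonneg (x : ℤ) : 0 ≤ ind x := by unfold ind; split_ifs <;> norm_num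
lemma ind_le_one (x : ℤ) : ind x ≤ 1 := by unfold ind; split_ifs <;> norm_num
lemma ind_mul_self {x : ℤ} (h : 0 ≤ x) : ind x * x = x := by
  unfold ind; split_ifs with h1
  · simp
  · simp [show x = 0 by omega]
lemma abs_ind_sub (x v : ℤ) : |ind (x + v) - ind x| ≤ |(v : ℝ)| := by
  rcases eq_or_ne v 0 with rfl | h
  · simp
  · have h1 : (1 : ℝ) ≤ |(v : ℝ)| := by exact_mod_cast Int.one_le_abs h
    refine le_trans ?_ h1
    rw [abs_le]
    constructor <;> linarith [ind_nonneg x, ind_le_one x, ind_nonneg (x + v), ind_le_one (x + v)]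

/-- Kronecker symbol. -/
def e (a b : ι) : ℤ := if b = a then 1 else 0

lemma sum_e (a : ι) : ∑ b, e a b = 1 := by simp [e]

/-- The switching vector. -/
def sw (i l k k' : ι) : ι → ι → ℤ := fun a b => (e i a - e l a) * (e k b - e k' b)

lemma add_sw_mem (hX : X ∈ tab r c) (hi : i ≠ l) (hk : k ≠ k') :
    X + sw i l k k' ∈ tab r c ↔ 0 < X i k' ∧ 0 < X l k := by
  rw [mem_tab] at hX ⊢
  simp only [Pi.add_apply, sum_add_distrib, sw, ← mul_sum, ← sum_mul, sum_sub_distrib, sum_e,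
    sub_self, mul_zero, zero_mul, add_zero, hX.2.1, hX.2.2, implies_true, and_true]
  constructor
  · intro h
    have h1 := h i k'
    have h2 := h l k
    simp only [e, hi, hi.symm, hk, hk.symm, if_true, if_false] at h1 h2
    omega
  · intro h a b
    have := hX.1 a b
    unfold e
    split_ifs <;> subst_vars <;> omega

lemma sum_transl {G : Type} [AddCommGroup G] [DecidableEq G] (T : Finset G) (v : G) (F : G → ℝ) :
    ∑ X ∈ T, (if X + v ∈ T then F (X + v) else 0) = ∑ X ∈ T, if X + -v ∈ T then F X else 0 := by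
  rw [← sum_filter, ← sum_filter]
  refine sum_nbij' (· + v) (· + -v) ?_ ?_ ?_ ?_ ?_ <;> simp +contextual

/-- The switching identity. -/
lemma sum_sw (hi : i ≠ l) (hk : k ≠ k') (F : (ι → ι → ℤ) → ℝ) :
    ∑ X ∈ tab r c, ind (X i k') * ind (X l k) * F (X + sw i l k k') =
      ∑ X ∈ tab r c, ind (X i k) * ind (X l k') * F X := by
  have h := sum_transl (tab r c) (sw i l k k') F
  have e1 : -sw i l k k' = sw i l k' k := by
    funext a b
    simp only [sw, Pi.neg_apply]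
    ring
  rw [e1] at h
  convert h using 1 <;> refine sum_congr rfl fun X hX => ?_
  · simp only [add_sw_mem hX hi hk, ind]
    by_cases h1 : 0 < X i k' <;> by_cases h2 : 0 < X l k <;> simp [h1, h2]
  · simp only [add_sw_mem hX hi hk.symm, ind]
    by_cases h1 : 0 < X i k <;> by_cases h2 : 0 < X l k' <;> simp [h1, h2]

/-- Transposition. -/
def tr (X : ι → ι → ℤ) : ι → ι → ℤ := fun a b => X b a

lemma tr_mem : tr X ∈ tab c r ↔ X ∈ tab r c := by
  simp only [mem_tab, tr]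
  exact ⟨fun h => ⟨fun a b => h.1 b a, h.2.2, h.2.1⟩, fun h => ⟨fun a b => h.1 b a, h.2.2, h.2.1⟩⟩

lemma sum_tr (F : (ι → ι → ℤ) → ℝ) : ∑ X ∈ tab r r, F (tr X) = ∑ X ∈ tab r r, F X :=
  sum_nbij' tr tr (fun _ h => tr_mem.2 h) (fun _ h => tr_mem.2 h) (fun _ _ => rfl)
    (fun _ _ => rfl) fun _ _ => rfl

/-- The points of a box with a given sum. -/
noncomputable def fib (μ : ι → ℤ) (t : ℤ) : Finset (ι → ℤ) :=
  (Fintype.piFinset fun a => Icc 0 (μ a)).filter fun y => ∑ a, y a = t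

lemma mem_fib {μ y : ι → ℤ} {t : ℤ} :
    y ∈ fib μ t ↔ (∀ a, 0 ≤ y a ∧ y a ≤ μ a) ∧ ∑ a, y a = t := by
  simp [fib]

lemma sum_two (hk : k ≠ k') (f : ι → ℤ) :
    ∑ b, f b = f k + f k' + ∑ b ∈ (univ.erase k).erase k', f b := by
  rw [add_assoc, add_sum_erase _ _ (by simp [hk.symm]), add_sum_erase _ _ (mem_univ k)]

/-- Sums over tables of functions of two columns are computed fibre by fibre. -/
lemma sum_fib (hk : k ≠ k') (F : (ι → ℤ) → (ι → ℤ) → ℝ) :
    ∑ X ∈ tab r c, F (fun a => X a k) (fun a => X a k') =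
      ∑ Z ∈ tab r (fun b => if b = k then c k + c k' else if b = k' then 0 else c b),
        ∑ y ∈ fib (fun a => Z a k) (c k), F y ((fun a => Z a k) - y) := by
  rw [sum_sigma']
  refine sum_nbij'
    (fun X => ⟨fun a b => if b = k then X a k + X a k' else if b = k' then 0 else X a b,
      fun a => X a k⟩)
    (fun p a b => if b = k then p.2 a else if b = k' then p.1 a k - p.2 a else p.1 a b)
    ?_ ?_ ?_ ?_ ?_
  · intro X hX
    obtain ⟨h0, h1, h2⟩ := mem_tab.1 hX
    simp only [mem_sigma, mem_tab, mem_fib, if_true]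
    refine ⟨⟨fun a b => ?_, fun a => ?_, fun b => ?_⟩, fun a => ⟨h0 _ _, ?_⟩, h2 k⟩
    · have := h0 a k; have := h0 a k'; have := h0 a b
      split_ifs <;> omega
    · rw [← h1 a, sum_two hk, sum_two hk (X a)]
      simp only [if_true, hk.symm, if_false, add_zero]
      congr 1
      exact sum_congr rfl fun b hb => by simp at hb; simp [hb]
    · split_ifs
      · rw [sum_add_distrib, h2, h2]
      · simp
      · exact h2 b
    · have := h0 a k'
      omega
  · rintro ⟨Z, y⟩ hp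
    simp only [mem_sigma, mem_tab, mem_fib] at hp
    obtain ⟨⟨h0, h1, h2⟩, h3, h4⟩ := hp
    have hz : ∀ a, Z a k' = 0 := fun a => by
      have := h2 k'
      simp only [hk.symm, if_true, if_false] at this
      exact (sum_eq_zero_iff_of_nonneg fun a _ => h0 a k').1 this a (mem_univ a)
    simp only [mem_tab]
    refine ⟨fun a b => ?_, fun a => ?_, fun b => ?_⟩
    · have := h3 a; have := h0 a b
      split_ifs <;> omega
    · rw [← h1 a, sum_two hk, sum_two hk (Z a), hz]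
      simp only [if_true, hk.symm, if_false, add_zero, add_sub_cancel]
      congr 1
      exact sum_congr rfl fun b hb => by simp at hb; simp [hb]
    · have h5 := h2 k
      have h6 := h2 b
      simp only [if_true] at h5
      split_ifs at h6 ⊢ with e1 e2
      · rw [h4, e1]
      · rw [sum_sub_distrib, h5, h4, e2, add_sub_cancel_left]
      · exact h6
  · intro X _
    funext a b
    simp only [if_true]
    split_ifs with e1 e2
    · rw [e1]
    · rw [e2, add_sub_cancel_left]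
    · rfl
  · rintro ⟨Z, y⟩ hp
    simp only [mem_sigma, mem_tab, mem_fib] at hp
    obtain ⟨⟨h0, h1, h2⟩, h3, h4⟩ := hp
    have hz : ∀ a, Z a k' = 0 := fun a => by
      have := h2 k'
      simp only [hk.symm, if_true, if_false] at this
      exact (sum_eq_zero_iff_of_nonneg fun a _ => h0 a k').1 this a (mem_univ a)
    simp only [if_true, hk.symm, if_false, add_sub_cancel, Sigma.mk.injEq, heq_eq_eq, and_true]
    funext a b
    split_ifs with e1 e2
    · rw [e1]
    · rw [e2, hz]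
    · rfl
  · intro X _
    congr 1
    funext a
    simp

lemma tab_le (hk : k ≠ k') {F G : (ι → ℤ) → (ι → ℤ) → ℝ}
    (h : ∀ μ : ι → ℤ, (∀ a, 0 ≤ μ a) → ∑ a, μ a = c k + c k' →
      ∑ y ∈ fib μ (c k), F y (μ - y) ≤ ∑ y ∈ fib μ (c k), G y (μ - y)) :
    ∑ X ∈ tab r c, F (fun a => X a k) (fun a => X a k') ≤
      ∑ X ∈ tab r c, G (fun a => X a k) (fun a => X a k') := by
  rw [sum_fib hk, sum_fib hk]
  refine sum_le_sum fun Z hZ => h _ (fun a => (mem_tab.1 hZ).1 a k) ?_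
  simpa using (mem_tab.1 hZ).2.2 k

end Pool.Agent.Work.MP_1d48d5_pr.CLT
end

-- merged part: Pool.Agent.Work.MP_1d48d5_pr.CFib
section
/-! Two columns with the same margin: unimodality of a pair of entries, and concentration. -/

open Finset

namespace Pool.Agent.Work.MP_1d48d5_pr.CLT

variable {ι : Type} [Fintype ι] [DecidableEq ι]
variable {r c : ι → ℤ} {X : ι → ι → ℤ} {i l k k' : ι}

lemma card_fib_eq {μ : ι → ℤ} {t b : ℤ} (hb : b ∈ Icc 0 (μ l)) :
    ((fib μ t).filter fun y => y l = b).card = boxCnt (Function.update μ l 0) (t - b) := by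
  rw [mem_Icc] at hb
  change _ = (fib _ _).card
  refine card_nbij' (fun y => Function.update y l 0) (fun y => Function.update y l b) ?_ ?_ ?_ ?_
  · intro y hy
    simp only [coe_filter, mem_fib, Set.mem_ofPred_eq, mem_coe] at hy ⊢
    obtain ⟨⟨h1, h2⟩, h3⟩ := hy
    refine ⟨fun a => ?_, ?_⟩
    · rcases eq_or_ne a l with rfl | h
      · simp
      · simp [h, h1]
    · rw [sum_update_of_mem (mem_univ l), ← h2, ← h3, ← add_sum_erase _ _ (mem_univ l),
        sdiff_singleton_eq_erase]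
      ring
  · intro y hy
    simp only [coe_filter, mem_fib, Set.mem_ofPred_eq, mem_coe] at hy ⊢
    obtain ⟨h1, h2⟩ := hy
    refine ⟨⟨fun a => ?_, ?_⟩, by simp⟩
    · rcases eq_or_ne a l with rfl | h
      · simp [hb]
      · simpa [h] using h1 a
    · have h3 := h1 l
      simp only [Function.update_self] at h3
      rw [← add_sum_erase _ _ (mem_univ l)] at h2
      rw [sum_update_of_mem (mem_univ l), sdiff_singleton_eq_erase]
      omega
  · intro y hy
    simp only [coe_filter, Set.mem_ofPred_eq] at hy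
    simp [← hy.2]
  · intro y hy
    simp only [mem_coe, mem_fib] at hy
    have h3 := hy.1 l
    simp only [Function.update_self] at h3
    simp [show (0 : ℤ) = y l by omega]

lemma sum_fib_comp (μ : ι → ℤ) (t : ℤ) (l : ι) (φ : ℤ → ℝ) : ∑ y ∈ fib μ t, φ (y l) =
    ∑ b ∈ Icc 0 (μ l), (boxCnt (Function.update μ l 0) (t - b) : ℝ) * φ b := by
  rw [← sum_fiberwise_of_maps_to (t := Icc 0 (μ l)) (g := fun y => y l)
    (fun y hy => mem_Icc.2 ((mem_fib.1 hy).1 l))]
  refine sum_congr rfl fun b hb => ?_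
  rw [← card_fib_eq hb, ← nsmul_eq_mul, ← sum_const]
  exact sum_congr rfl fun y hy => by rw [(mem_filter.1 hy).2]

/-- Moving mass from the larger to the smaller of two entries of a row increases the count. -/
lemma pair_le (hk : k ≠ k') (hc : c k = c k') {m : ℤ} {P : ℤ → ℤ → Prop} [∀ a b, Decidable (P a b)]
    (hP : ∀ a b, P a b → 0 ≤ m ∧ m ≤ a - b) (l : ι) :
    ∑ X ∈ tab r c, (if P (X l k) (X l k') then (1 : ℝ) else 0) ≤
      ∑ X ∈ tab r c, if P (X l k + m) (X l k' - m) then (1 : ℝ) else 0 := by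
  refine tab_le hk (F := fun y z => if P (y l) (z l) then (1 : ℝ) else 0)
    (G := fun y z => if P (y l + m) (z l - m) then (1 : ℝ) else 0) fun μ h0 hs => ?_
  simp only [Pi.sub_apply]
  rw [sum_fib_comp μ _ l fun b => if P b (μ l - b) then (1 : ℝ) else 0,
    sum_fib_comp μ _ l fun b => if P (b + m) (μ l - b - m) then (1 : ℝ) else 0]
  simp only [mul_ite, mul_one, mul_zero, ← sum_filter]
  calc _ ≤ ∑ b ∈ (Icc 0 (μ l)).filter fun b => P b (μ l - b),
        (boxCnt (Function.update μ l 0) (c k - (b - m)) : ℝ) := by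
        refine sum_le_sum fun b hb => Nat.cast_le.2 (boxCnt_le (fun a => ?_) ?_)
        · rcases eq_or_ne a l with rfl | h
          · simp
          · simp [h, h0]
        · have := hP _ _ (mem_filter.1 hb).2
          rw [← add_sum_erase _ _ (mem_univ l)] at hs
          rw [sum_update_of_mem (mem_univ l), sdiff_singleton_eq_erase,
            abs_of_nonpos (a := 2 * (c k - b) - _) (by omega), abs_le]
          constructor <;> omega
    _ = ∑ b ∈ ((Icc 0 (μ l)).filter fun b => P b (μ l - b)).image (· - m),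
        (boxCnt (Function.update μ l 0) (c k - b) : ℝ) := by
        rw [sum_image fun _ _ _ _ h => sub_left_injective h]
    _ ≤ _ := by
        refine sum_le_sum_of_subset_of_nonneg (fun b hb => ?_) fun _ _ _ => Nat.cast_nonneg _
        obtain ⟨b', hb', rfl⟩ := mem_image.1 hb
        simp only [mem_filter, mem_Icc] at hb' ⊢
        have := hP _ _ hb'.2
        refine ⟨by omega, ?_⟩
        convert hb'.2 using 1 <;> ring

lemma sum_exp_le (μ : ℤ) {h : ℤ → ℤ → ℝ} (anti : ∀ x y, h x y = -h y x) (bd : ∀ x y, |h x y| ≤ 1)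
    (θ : ℝ) : ∑ b ∈ Icc 0 μ, Real.exp (θ * h b (μ - b)) ≤
      (Icc 0 μ).card * Real.exp (θ ^ 2 / 2) := by
  have h1 : ∑ b ∈ Icc 0 μ, Real.exp (θ * h b (μ - b)) =
      ∑ b ∈ Icc 0 μ, Real.exp (-(θ * h b (μ - b))) := by
    refine sum_nbij' (μ - ·) (μ - ·) ?_ ?_ ?_ ?_ ?_
    · simp only [mem_Icc]; omega
    · simp only [mem_Icc]; omega
    · simp
    · simp
    · intro b _
      rw [anti, sub_sub_cancel, mul_neg]
  have h2 : ∑ b ∈ Icc 0 μ, Real.exp (θ * h b (μ - b)) =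
      ∑ b ∈ Icc 0 μ, Real.cosh (θ * h b (μ - b)) := by
    simp only [Real.cosh_eq, ← sum_div, sum_add_distrib, ← h1]
    ring
  rw [h2, ← nsmul_eq_mul]
  refine sum_le_card_nsmul _ _ _ fun b _ => (Real.cosh_le_exp_half_sq _).trans ?_
  have := (sq_le_one_iff_abs_le_one _).2 (bd b (μ - b))
  rw [mul_pow]
  gcongr
  exact mul_le_of_le_one_right (sq_nonneg θ) this

/-- Exponential moments of an antisymmetric statistic of two columns. -/
lemma conc (hk : k ≠ k') (hc : c k = c k') {h : ι → ℤ → ℤ → ℝ}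
    (anti : ∀ a x y, h a x y = -h a y x) (bd : ∀ a x y, |h a x y| ≤ 1) (θ : ℝ) :
    ∑ X ∈ tab r c, Real.exp (θ * ∑ a, h a (X a k) (X a k')) ≤
      ∑ _X ∈ tab r c, (2 * c k + 1) * Real.exp (Fintype.card ι * (θ ^ 2 / 2)) := by
  refine tab_le hk (F := fun y z => Real.exp (θ * ∑ a, h a (y a) (z a)))
    (G := fun _ _ => (2 * c k + 1) * Real.exp (Fintype.card ι * (θ ^ 2 / 2))) fun μ h0 hs => ?_
  have hc0 : 0 ≤ c k := by
    have := sum_nonneg fun a (_ : a ∈ univ) => h0 a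
    omega
  have h1 : (Fintype.piFinset fun a => Icc 0 (μ a)).card ≤
      (Icc 0 (2 * c k)).card * (fib μ (c k)).card := by
    refine card_le_mul_card_image_of_maps_to (f := fun y => ∑ a, y a) ?_ _ ?_ |>.trans
      (mul_comm _ _).le
    · intro y hy
      simp only [Fintype.mem_piFinset, mem_Icc] at hy ⊢
      have := sum_le_sum fun a (_ : a ∈ univ) => (hy a).2
      exact ⟨sum_nonneg fun a _ => (hy a).1, by omega⟩
    · intro t _
      refine boxCnt_le h0 ?_
      rw [hs, ← hc, show 2 * c k - (c k + c k) = 0 by ring, abs_zero]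
      exact abs_nonneg _
  have h2 : ((Icc 0 (2 * c k)).card : ℝ) = 2 * c k + 1 := by
    have : ((Icc 0 (2 * c k)).card : ℤ) = 2 * c k + 1 := by
      rw [Int.card_Icc_of_le _ _ (by omega)]; ring
    exact_mod_cast this
  calc _ ≤ ∑ y ∈ Fintype.piFinset fun a => Icc 0 (μ a),
        ∏ a, Real.exp (θ * h a (y a) (μ a - y a)) := by
        refine (sum_congr rfl fun y _ => ?_).trans_le
          (sum_le_sum_of_subset_of_nonneg (filter_subset _ _) fun _ _ _ => by positivity)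
        rw [mul_sum, Real.exp_sum]
        rfl
    _ ≤ ∏ a, (((Icc 0 (μ a)).card : ℝ) * Real.exp (θ ^ 2 / 2)) := by
        rw [← prod_univ_sum (fun a => Icc 0 (μ a)) fun a b => Real.exp (θ * h a b (μ a - b))]
        exact prod_le_prod (fun _ _ => sum_nonneg fun _ _ => (Real.exp_pos _).le) fun a _ =>
          sum_exp_le _ (anti a) (bd a) θ
    _ = ((Fintype.piFinset fun a => Icc 0 (μ a)).card : ℝ) *
        Real.exp (Fintype.card ι * (θ ^ 2 / 2)) := by
        rw [prod_mul_distrib, prod_const, Fintype.card_piFinset, Real.exp_nat_mul, card_univ]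
        push_cast
        rfl
    _ ≤ _ := by
        rw [sum_const, nsmul_eq_mul, ← mul_assoc, mul_comm (_ : ℝ) (2 * _ + 1), ← h2]
        gcongr
        exact_mod_cast h1

end Pool.Agent.Work.MP_1d48d5_pr.CLT
end

-- merged part: Pool.Agent.Work.MP_1d48d5_pr.CSw
section
/-! Expectations, the statistics of a table, and the two switching identities. -/

open Finset

namespace Pool.Agent.Work.MP_1d48d5_pr.CLT

variable {ι : Type} [Fintype ι] [DecidableEq ι]

/-- Expectation over a uniform table. -/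
noncomputable def Ex (r : ι → ℤ) (F : (ι → ι → ℤ) → ℝ) : ℝ :=
  (∑ X ∈ tab r r, F X) / (tab r r).card

section Ex

variable {r : ι → ℤ} {F G : (ι → ι → ℤ) → ℝ}

lemma Ex_le_of_sum (h : ∑ X ∈ tab r r, F X ≤ ∑ X ∈ tab r r, G X) : Ex r F ≤ Ex r G :=
  div_le_div_of_nonneg_right h (Nat.cast_nonneg _)
lemma Ex_mono (h : ∀ X ∈ tab r r, F X ≤ G X) : Ex r F ≤ Ex r G := Ex_le_of_sum (sum_le_sum h)
lemma Ex_congr (h : ∀ X ∈ tab r r, F X = G X) : Ex r F = Ex r G := by
  rw [Ex, sum_congr rfl h, Ex]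
lemma Ex_nonneg (h : ∀ X ∈ tab r r, 0 ≤ F X) : 0 ≤ Ex r F :=
  div_nonneg (sum_nonneg h) (Nat.cast_nonneg _)
lemma Ex_add : Ex r (fun X => F X + G X) = Ex r F + Ex r G := by
  simp only [Ex, sum_add_distrib, add_div]
lemma Ex_sub : Ex r (fun X => F X - G X) = Ex r F - Ex r G := by
  simp only [Ex, sum_sub_distrib, sub_div]
lemma Ex_mul (c : ℝ) : Ex r (fun X => c * F X) = c * Ex r F := by
  simp only [Ex, ← mul_sum, mul_div_assoc]
lemma Ex_div (c : ℝ) : Ex r (fun X => F X / c) = Ex r F / c := by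
  simp only [div_eq_inv_mul, Ex_mul]
lemma Ex_sum {α : Type} (S : Finset α) (F : α → (ι → ι → ℤ) → ℝ) :
    Ex r (fun X => ∑ a ∈ S, F a X) = ∑ a ∈ S, Ex r (F a) := by
  simp only [Ex]
  rw [sum_comm, sum_div]
lemma Ex_const_le {c : ℝ} (hc : 0 ≤ c) : Ex r (fun _ => c) ≤ c := by
  rw [Ex, sum_const, nsmul_eq_mul, mul_comm, mul_div_assoc]
  exact mul_le_of_le_one_right hc (div_self_le_one _)
lemma abs_Ex_le : |Ex r F| ≤ Ex r fun X => |F X| := by
  rw [Ex, abs_div, Nat.abs_cast]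
  exact div_le_div_of_nonneg_right (abs_sum_le_sum_abs _ _) (Nat.cast_nonneg _)
lemma Ex_tr (F : (ι → ι → ℤ) → ℝ) : Ex r (fun X => F (tr X)) = Ex r F := by
  rw [Ex, sum_tr, Ex]
lemma Ex_abs_le {a : ℝ} (ha : 0 < a) (h : Ex r (fun X => F X ^ 2) ≤ a ^ 2) :
    Ex r (fun X => |F X|) ≤ a := by
  have h1 : Ex r (fun X => |F X|) ≤ Ex r fun X => F X ^ 2 / (2 * a) + a / 2 :=
    Ex_mono fun X _ => by
      rw [← sq_abs, div_add' _ _ _ (by positivity), le_div_iff₀ (by positivity)]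
      linarith only [sq_nonneg (|F X| - a)]
  rw [Ex_add, Ex_div] at h1
  have h2 := Ex_const_le (r := r) (c := a / 2) (by positivity)
  have h3 : Ex r (fun X => F X ^ 2) / (2 * a) ≤ a / 2 := by
    rw [div_le_iff₀ (by positivity)]
    linarith
  linarith

end Ex

section defs

variable (L : Finset ι) (X : ι → ι → ℤ)

/-- Light part of a row sum. -/
noncomputable def rs (i : ι) : ℝ := ∑ k ∈ L, (X i k : ℝ)
/-- Number of positive light entries of a row. -/
noncomputable def U (i : ι) : ℝ := ∑ k ∈ L, ind (X i k)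
/-- Number of positive light entries of a column. -/
noncomputable def N (k : ι) : ℝ := ∑ l ∈ L, ind (X l k)
/-- Number of positive entries of the light block. -/
noncomputable def Q : ℝ := ∑ k ∈ L, N L X k
/-- Deviation of `N` from its mean. -/
noncomputable def ze (k : ι) : ℝ := N L X k - Q L X / L.card
/-- Correlation term. -/
noncomputable def Y (i : ι) : ℝ := ∑ k ∈ L, X i k * ze L X k
/-- Deviation of `U` from its predicted value. -/
noncomputable def u (i : ι) : ℝ := U L X i - L.card * rs L X i / (rs L X i + L.card)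
/-- Total light part of the heavy rows. -/
noncomputable def Tt : ℝ := ∑ i ∈ Lᶜ, rs L X i

end defs

variable {L : Finset ι} {r : ι → ℤ} {X : ι → ι → ℤ} {i j l k k' : ι}

lemma rs_nonneg (hX : X ∈ tab r r) (i : ι) : 0 ≤ rs L X i :=
  sum_nonneg fun k _ => Int.cast_nonneg ((mem_tab.1 hX).1 i k)

lemma rs_add (hX : X ∈ tab r r) (i : ι) : rs L X i + rs Lᶜ X i = r i := by
  rw [rs, rs, sum_add_sum_compl, ← (mem_tab.1 hX).2.1 i, Int.cast_sum]

lemma rs_le (hX : X ∈ tab r r) (i : ι) : rs L X i ≤ r i := by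
  linarith [rs_add (L := L) hX i, rs_nonneg (L := Lᶜ) hX i]

omit [Fintype ι] [DecidableEq ι] in
lemma U_mem (i : ι) : 0 ≤ U L X i ∧ U L X i ≤ L.card :=
  ⟨sum_nonneg fun _ _ => ind_nonneg _, by
    simpa [U] using sum_le_card_nsmul L _ 1 fun k _ => ind_le_one (X i k)⟩

omit [Fintype ι] [DecidableEq ι] in
lemma N_mem (k : ι) : 0 ≤ N L X k ∧ N L X k ≤ L.card := U_mem (X := tr X) k

omit [Fintype ι] [DecidableEq ι] in
lemma Q_mem : 0 ≤ Q L X ∧ Q L X ≤ L.card ^ 2 :=
  ⟨sum_nonneg fun _ _ => (N_mem _).1, by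
    simpa [sq, Q] using sum_le_card_nsmul L _ (L.card : ℝ) fun k _ => (N_mem (X := X) k).2⟩

omit [Fintype ι] [DecidableEq ι] in
lemma Q_eq : Q L X = ∑ l ∈ L, U L X l := sum_comm

lemma Tt_tr (hX : X ∈ tab r r) : Tt L (tr X) = Tt L X := by
  have h : ∀ X ∈ tab r r, Tt L X = ∑ i ∈ Lᶜ, (r i : ℝ) - ∑ i ∈ Lᶜ, rs Lᶜ X i := fun X hX => by
    rw [Tt, ← sum_sub_distrib]
    exact sum_congr rfl fun i _ => by linarith [rs_add (L := L) hX i]
  rw [h _ hX, h _ (tr_mem.2 hX)]
  congr 1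
  exact sum_comm

omit [Fintype ι] in
lemma sum_e_le (S : Finset ι) (a : ι) : ∑ b ∈ S, (e a b : ℝ) ≤ 1 := by
  simp only [e, Int.cast_ite, Int.cast_one, Int.cast_zero, sum_ite_eq']
  split_ifs <;> norm_num

omit [Fintype ι] in
lemma sum_e_eq {S : Finset ι} (a : ι) : ∑ b ∈ S, (e a b : ℝ) = if a ∈ S then 1 else 0 := by
  simp [e]

omit [Fintype ι] in
lemma e_mem (a b : ι) : 0 ≤ (e a b : ℝ) ∧ (e a b : ℝ) ≤ 1 := by
  unfold e; split_ifs <;> norm_num

omit [Fintype ι] in
lemma abs_sw (a b : ι) : |(sw i l k k' a b : ℝ)| ≤ (e i a + e l a) * (e k b + e k' b) := by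
  have := e_mem i a; have := e_mem l a; have := e_mem k b; have := e_mem k' b
  rw [sw, Int.cast_mul, abs_mul, Int.cast_sub, Int.cast_sub]
  refine mul_le_mul ?_ ?_ (abs_nonneg _) (by linarith) <;> rw [abs_le] <;> constructor <;> linarith

omit [Fintype ι] in
lemma rs_sw (a : ι) : rs L (X + sw i l k k') a = rs L X a +
    (e i a - e l a) * ((if k ∈ L then 1 else 0) - if k' ∈ L then 1 else 0) := by
  simp only [rs, sw, Pi.add_apply, Int.cast_add, Int.cast_mul, Int.cast_sub, sum_add_distrib,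
    ← mul_sum, sum_sub_distrib, sum_e_eq]

omit [Fintype ι] in
lemma U_sw (a : ι) : |U L (X + sw i l k k') a - U L X a| ≤ 2 * (e i a + e l a) := by
  rw [U, U, ← sum_sub_distrib]
  refine (abs_sum_le_sum_abs _ _).trans ((sum_le_sum fun b _ =>
    (abs_ind_sub _ _).trans (abs_sw a b)).trans ?_)
  rw [← mul_sum, sum_add_distrib, mul_comm]
  have := e_mem i a; have := e_mem l a
  exact mul_le_mul_of_nonneg_right (by linarith [sum_e_le L k, sum_e_le L k']) (by linarith)

omit [Fintype ι] in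
lemma N_sw (b : ι) : |N L (X + sw i l k k') b - N L X b| ≤ 2 * (e k b + e k' b) := by
  rw [N, N, ← sum_sub_distrib]
  refine (abs_sum_le_sum_abs _ _).trans ((sum_le_sum fun a _ =>
    (abs_ind_sub _ _).trans (abs_sw a b)).trans ?_)
  rw [← sum_mul, sum_add_distrib]
  have := e_mem k b; have := e_mem k' b
  exact mul_le_mul_of_nonneg_right (by linarith [sum_e_le L i, sum_e_le L l]) (by linarith)

omit [Fintype ι] in
lemma Q_sw : |Q L (X + sw i l k k') - Q L X| ≤ 4 := by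
  rw [Q, Q, ← sum_sub_distrib]
  refine (abs_sum_le_sum_abs _ _).trans ((sum_le_sum fun b _ => N_sw b).trans ?_)
  rw [← mul_sum, sum_add_distrib]
  linarith [sum_e_le L k, sum_e_le L k']

/-- Switchings that move a unit along row `i` between two light columns. -/
lemma master (i : ι) {g : ι → (ι → ι → ℤ) → ℝ} {G D : (ι → ι → ℤ) → ℝ}
    (hG0 : ∀ X ∈ tab r r, 0 ≤ G X) (hD0 : ∀ X ∈ tab r r, 0 ≤ D X)
    (hG : ∀ X ∈ tab r r, ∀ k ∈ L, |g k X| ≤ G X)
    (hD : ∀ X ∈ tab r r, ∀ k ∈ L, ∀ k' ∈ L, ∀ l, |g k (X + sw i l k k') - g k X| ≤ D X) :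
    |Ex r fun X => ∑ k ∈ L, g k X * ((X i k + 1) * N L X k * U L X i - X i k * Q L X)| ≤
      Ex r fun X => (rs L X i + L.card) * (L.card ^ 2 * D X + 2 * L.card * G X) := by
  have key : ∀ k ∈ L, ∀ l ∈ L, ∀ k' ∈ L,
      |Ex r fun X => g k X * ((X i k + 1) * ind (X l k) * ind (X i k') - X i k * ind (X l k'))| ≤
        Ex r fun X => (X i k + 1) * (D X + (e i l + e k k') * G X) := by
    intro k hk l _ k' hk'
    by_cases hd : i ≠ l ∧ k ≠ k'
    · have h1 := sum_sw (r := r) (c := r) hd.1 hd.2 fun X => X i k * g k X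
      have h2 : (Ex r fun X => g k X * ((X i k + 1) * ind (X l k) * ind (X i k') -
          X i k * ind (X l k'))) = Ex r fun X => (X i k + 1) * (ind (X i k') * ind (X l k) *
            (g k X - g k (X + sw i l k k'))) := by
        rw [← sub_eq_zero, ← Ex_sub, Ex, div_eq_zero_iff]
        left
        rw [← sub_eq_zero, ← sum_sub_distrib] at h1
        rw [← h1]
        refine sum_congr rfl fun X hX => ?_
        have h3 : (sw i l k k' i k : ℝ) = 1 := by simp [sw, e, hd.1, hd.2]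
        have h4 := ind_mul_self ((mem_tab.1 hX).1 i k)
        simp only [Pi.add_apply, Int.cast_add, h3]
        linear_combination (g k X * ind (X l k')) * h4
      rw [h2]
      refine abs_Ex_le.trans (Ex_mono fun X hX => ?_)
      have h0 : (0 : ℝ) ≤ X i k := Int.cast_nonneg ((mem_tab.1 hX).1 i k)
      rw [abs_mul, abs_mul, abs_of_nonneg (by linarith), abs_sub_comm,
        abs_of_nonneg (mul_nonneg (ind_nonneg _) (ind_nonneg _))]
      have := e_mem i l; have := e_mem k k'; have := hG0 X hX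
      gcongr
      refine le_add_of_le_of_nonneg ((mul_le_of_le_one_left (abs_nonneg _) ?_).trans
        (hD X hX k hk k' hk' l)) (mul_nonneg (by linarith) this)
      exact mul_le_one₀ (ind_le_one _) (ind_nonneg _) (ind_le_one _)
    · refine abs_Ex_le.trans (Ex_mono fun X hX => ?_)
      have h0 : (0 : ℝ) ≤ X i k := Int.cast_nonneg ((mem_tab.1 hX).1 i k)
      have h1 : (1 : ℝ) ≤ e i l + e k k' := by
        have := e_mem i l; have := e_mem k k'
        rcases not_and_or.1 hd with h | h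
        · have : (e i l : ℝ) = 1 := by simp [e, not_not.1 h]
          linarith
        · have : (e k k' : ℝ) = 1 := by simp [e, not_not.1 h]
          linarith
      have h2 : |(X i k + 1) * ind (X l k) * ind (X i k') - X i k * ind (X l k')| ≤ X i k + 1 := by
        have := mul_nonneg (ind_nonneg (X l k)) (ind_nonneg (X i k'))
        have := mul_le_one₀ (ind_le_one (X l k)) (ind_nonneg (X i k')) (ind_le_one (X i k'))
        have := ind_nonneg (X l k'); have := ind_le_one (X l k')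
        rw [abs_le, mul_assoc]
        constructor <;> nlinarith
      have := hG0 X hX; have := hD0 X hX
      rw [abs_mul, mul_comm]
      gcongr
      nlinarith [hG X hX k hk]
  have e1 : ∀ X : ι → ι → ℤ, ∑ k ∈ L, g k X * ((X i k + 1) * N L X k * U L X i - X i k * Q L X) =
      ∑ k ∈ L, ∑ l ∈ L, ∑ k' ∈ L,
        g k X * ((X i k + 1) * ind (X l k) * ind (X i k') - X i k * ind (X l k')) := fun X => by
    simp only [← mul_sum, sum_sub_distrib, ← sum_mul, Q_eq, U, N]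
  simp only [e1, Ex_sum]
  refine (abs_sum_le_sum_abs _ _).trans ((sum_le_sum fun k hk => (abs_sum_le_sum_abs _ _).trans
    (sum_le_sum fun l hl => (abs_sum_le_sum_abs _ _).trans
      (sum_le_sum fun k' hk' => key k hk l hl k' hk'))).trans ?_)
  simp only [← Ex_sum]
  refine Ex_mono fun X hX => ?_
  have e2 : rs L X i + L.card = ∑ k ∈ L, ((X i k : ℝ) + 1) := by simp [rs, sum_add_distrib]
  rw [e2, sum_mul]
  refine sum_le_sum fun k _ => ?_
  have h0 : (0 : ℝ) ≤ X i k := Int.cast_nonneg ((mem_tab.1 hX).1 i k)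
  simp only [← mul_sum, sum_add_distrib, ← sum_mul, sum_const, nsmul_eq_mul]
  have := hG0 X hX
  have h1 := sum_e_le L i
  have h2 := sum_e_le L k
  rw [sq, mul_assoc, mul_comm (2 : ℝ), mul_two]
  gcongr <;> exact mul_le_of_le_one_right (Nat.cast_nonneg _) ‹_›

/-- Switchings that move a unit from the heavy entry `(i, j)`. -/
lemma pair_id (hi : i ∉ L) (hj : j ∉ L) {F F' : (ι → ι → ℤ) → ℝ}
    (h : ∀ X, ∀ l ∈ L, ∀ k ∈ L, F (X + sw i l k j) = F' X) :
    (Ex r fun X => ind (X i j) * Q L X * F' X) = Ex r fun X => U L X i * N L X j * F X := by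
  have e1 : ∀ X, ind (X i j) * Q L X * F' X =
      ∑ k ∈ L, ∑ l ∈ L, ind (X i j) * ind (X l k) * F (X + sw i l k j) := fun X => by
    rw [Q, mul_sum, sum_mul]
    refine sum_congr rfl fun k hk => ?_
    rw [N, mul_sum, sum_mul]
    exact sum_congr rfl fun l hl => by rw [h X l hl k hk]
  have e2 : ∀ X, U L X i * N L X j * F X =
      ∑ k ∈ L, ∑ l ∈ L, ind (X i k) * ind (X l j) * F X := fun X => by
    simp only [← sum_mul, ← mul_sum, U, N]
  simp only [e1, e2, Ex_sum]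
  refine sum_congr rfl fun k hk => sum_congr rfl fun l hl => ?_
  rw [Ex, Ex, sum_sw (ne_of_mem_of_not_mem hl hi).symm (ne_of_mem_of_not_mem hk hj)]

end Pool.Agent.Work.MP_1d48d5_pr.CLT
end

-- merged part: Pool.Agent.Work.MP_1d48d5_pr.CLine
section
/-! Second moment bounds from switchings along a row. -/

open Finset

namespace Pool.Agent.Work.MP_1d48d5_pr.CLT

variable {ι : Type} [Fintype ι] [DecidableEq ι]

/-- The good event. -/
def good (L : Finset ι) (lam w : ℝ) (X : ι → ι → ℤ) : Prop :=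
  (∀ a, ∀ k ∈ L, (X a k : ℝ) ≤ lam) ∧ (∀ k ∈ L, |ze L X k| ≤ lam * w) ∧ w ^ 4 ≤ lam * Q L X ∧
    ∀ i ∉ L, ∀ i' ∉ L, |rs L X i - rs L X i'| ≤ lam * w

open Classical in
/-- Indicator of the bad event. -/
noncomputable def bd (L : Finset ι) (lam w : ℝ) (X : ι → ι → ℤ) : ℝ :=
  if good L lam w X then 0 else 1

/-- Standing assumptions. -/
structure Hyp (L : Finset ι) (r : ι → ℤ) (lam w : ℝ) : Prop where
  w1 : 1 ≤ w
  wsq : (L.card : ℝ) = w ^ 2
  lam1 : 1 ≤ lam
  rle : ∀ a, (r a : ℝ) + w ^ 2 ≤ lam * w ^ 2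
  bad : Ex r (bd L lam w) * w ^ 4 ≤ 1

variable {L : Finset ι} {r : ι → ℤ} {X : ι → ι → ℤ} {i j l k k' : ι} {lam w : ℝ}

omit [Fintype ι] [DecidableEq ι] in
lemma sum_ze (h : (L.card : ℝ) ≠ 0) : ∑ k ∈ L, ze L X k = 0 := by
  simp only [ze, sum_sub_distrib, sum_const, nsmul_eq_mul, mul_div_cancel₀ _ h, Q, sub_self]

lemma u_le (hX : X ∈ tab r r) (i : ι) : |u L X i| ≤ L.card := by
  have h0 := rs_nonneg (L := L) hX i
  have h1 := U_mem (L := L) (X := X) i
  have h2 : 0 ≤ L.card * rs L X i / (rs L X i + L.card) := by positivity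
  have h3 : L.card * rs L X i / (rs L X i + L.card) ≤ L.card := by
    rw [mul_div_assoc]
    exact mul_le_of_le_one_right (Nat.cast_nonneg _)
      (div_le_one_of_le₀ (by simp) (by positivity))
  rw [u, abs_le]
  constructor <;> linarith

lemma Y_le (hX : X ∈ tab r r) {z : ℝ} (hz : ∀ k ∈ L, |ze L X k| ≤ z) (i : ι) :
    |Y L X i| ≤ rs L X i * z := by
  rw [rs, sum_mul]
  refine (abs_sum_le_sum_abs _ _).trans (sum_le_sum fun k hk => ?_)
  have h0 : (0 : ℝ) ≤ X i k := Int.cast_nonneg ((mem_tab.1 hX).1 i k)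
  rw [abs_mul, abs_of_nonneg h0]
  exact mul_le_mul_of_nonneg_left (hz k hk) h0

omit [Fintype ι] in
lemma u_sw (hk : k ∈ L) (hk' : k' ∈ L) (a : ι) :
    |u L (X + sw i l k k') a - u L X a| ≤ 2 * (e i a + e l a) := by
  simpa [u, rs_sw, hk, hk'] using U_sw (L := L) (X := X) a

namespace Hyp

variable (h : Hyp L r lam w)
include h

lemma w0 : 0 < w := by linarith [h.w1]
lemma lam0 : 0 < lam := by linarith [h.lam1]

lemma mono (a b c d : ℕ) (h1 : a ≤ c ∧ b ≤ d) :
    lam ^ a * w ^ b ≤ lam ^ c * w ^ d :=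
  mul_le_mul (pow_le_pow_right₀ h.lam1 h1.1) (pow_le_pow_right₀ h.w1 h1.2) (pow_pos h.w0 _).le
    (pow_pos h.lam0 _).le

lemma ex_le {F G : (ι → ι → ℤ) → ℝ} {A B : ℝ} (hA : 0 ≤ A) (hB : 0 ≤ B)
    (h1 : ∀ X ∈ tab r r, good L lam w X → F X ≤ G X + A)
    (h2 : ∀ X ∈ tab r r, ¬ good L lam w X → F X ≤ G X + B * w ^ 4) :
    Ex r F ≤ Ex r G + (A + B) := by
  have h3 : Ex r F ≤ Ex r fun X => G X + A + B * w ^ 4 * bd L lam w X := Ex_mono fun X hX => by
    unfold bd
    split_ifs with hg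
    · simpa using h1 X hX hg
    · linarith [h2 X hX hg]
  rw [Ex_add, Ex_add, Ex_mul] at h3
  have := mul_le_mul_of_nonneg_left h.bad hB
  linarith [Ex_const_le (r := r) hA]

lemma ex_le' {F : (ι → ι → ℤ) → ℝ} {A B : ℝ} (hA : 0 ≤ A) (hB : 0 ≤ B)
    (h1 : ∀ X ∈ tab r r, good L lam w X → F X ≤ A)
    (h2 : ∀ X ∈ tab r r, ¬ good L lam w X → F X ≤ B * w ^ 4) : Ex r F ≤ A + B := by
  have := h.ex_le (F := F) (G := fun _ => 0) hA hB (by simpa using h1) (by simpa using h2)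
  linarith [Ex_const_le (r := r) (le_refl 0)]

lemma rs_le (hX : X ∈ tab r r) (i : ι) : rs L X i + w ^ 2 ≤ lam * w ^ 2 := by
  linarith [CLT.rs_le (L := L) hX i, h.rle i]

lemma ze_le (k : ι) : |ze L X k| ≤ w ^ 2 := by
  have h1 := N_mem (L := L) (X := X) k
  have h2 := Q_mem (L := L) (X := X)
  have := h.w0
  rw [ze, h.wsq] at *
  have h3 : 0 ≤ Q L X / w ^ 2 := div_nonneg h2.1 (by positivity)
  have h4 : Q L X / w ^ 2 ≤ w ^ 2 := by rw [div_le_iff₀ (by positivity)]; linarith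
  rw [abs_le]
  constructor <;> linarith

lemma Y_le (hX : X ∈ tab r r) {z : ℝ} (h0 : 0 ≤ z) (hz : ∀ k ∈ L, |ze L X k| ≤ z) (i : ι) :
    |Y L X i| ≤ lam * w ^ 2 * z :=
  (CLT.Y_le hX hz i).trans (by gcongr; linarith [h.rs_le hX i, sq_nonneg w])

lemma line1 (i : ι) {f : (ι → ι → ℤ) → ℝ} {c : ℝ} (hc : 0 ≤ c)
    (hf : ∀ X ∈ tab r r, ∀ k ∈ L, ∀ k' ∈ L, ∀ l, |f (X + sw i l k k') - f X| ≤ c) :
    |Ex r fun X => f X * (Q L X / w ^ 2 * u L X i)| ≤
      w ^ 4 * c + Ex r fun X => 2 * w ^ 2 * |f X| + |f X| * |Y L X i| := by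
  have hw := h.w0
  have pos : ∀ X ∈ tab r r, 0 < rs L X i + w ^ 2 := fun X hX => by
    have := rs_nonneg (L := L) hX i
    positivity
  have m := master (L := L) (r := r) i (g := fun _ X => f X / (rs L X i + w ^ 2))
    (G := fun X => |f X| / (rs L X i + w ^ 2)) (D := fun X => c / (rs L X i + w ^ 2))
    (fun X hX => div_nonneg (abs_nonneg _) (pos X hX).le) (fun X hX => div_nonneg hc (pos X hX).le)
    (fun X hX _ _ => by rw [abs_div, abs_of_pos (pos X hX)])
    (fun X hX k hk k' hk' l => by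
      simp only [rs_sw, hk, hk', if_true, sub_self, mul_zero, add_zero]
      rw [← sub_div, abs_div, abs_of_pos (pos X hX)]
      exact div_le_div_of_nonneg_right (hf X hX k hk k' hk' l) (pos X hX).le)
  rw [Ex_congr (G := fun X => f X * (Q L X / w ^ 2 * u L X i) +
      f X * (U L X i / (rs L X i + w ^ 2) * Y L X i)), Ex_add,
    Ex_congr (G := fun X => w ^ 4 * c + 2 * w ^ 2 * |f X|) (F := fun X => (_ + _) * _), Ex_add] at m
  · have h1 : |Ex r fun X => f X * (U L X i / (rs L X i + w ^ 2) * Y L X i)| ≤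
        Ex r fun X => |f X| * |Y L X i| := abs_Ex_le.trans (Ex_mono fun X hX => by
      have h2 := U_mem (L := L) (X := X) i
      rw [abs_mul, abs_mul, abs_of_nonneg (div_nonneg h2.1 (pos X hX).le)]
      gcongr
      exact mul_le_of_le_one_left (abs_nonneg _) (div_le_one_of_le₀
        (by linarith [h.wsq, rs_nonneg (L := L) hX i]) (pos X hX).le))
    have h3 := Ex_const_le (r := r) (c := w ^ 4 * c) (by positivity)
    rw [Ex_add]
    rw [abs_le] at m h1 ⊢
    constructor <;> linarith [m.1, m.2, h1.1, h1.2]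
  · intro X hX
    have := pos X hX
    rw [h.wsq]
    field_simp
  · intro X hX
    have := pos X hX
    have e1 : ∀ k, N L X k = ze L X k + Q L X / w ^ 2 := fun k => by rw [ze, h.wsq]; ring
    have e2 : ∑ k ∈ L, ze L X k = 0 := sum_ze (by rw [h.wsq]; positivity)
    simp only [← mul_sum, e1, mul_add, add_mul, one_mul, sum_sub_distrib, sum_add_distrib, ← sum_mul,
      e2, sum_const, nsmul_eq_mul, u, h.wsq]
    rw [← rs, ← Y]
    field_simp
    ring

lemma omega_sq {S : Finset ι} (hS : S.Nonempty) {y : ℝ}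
    (hy : ∀ i ∈ S, Ex r (fun X => Y L X i ^ 2) ≤ y) :
    Ex r (fun X => (∑ i ∈ S, u L X i) ^ 2) ≤
      8 * lam * w ^ 2 * S.card + (10 * lam ^ 2 + 2 * lam ^ 2 * y / w ^ 4) * S.card ^ 2 := by
  have hw := h.w0
  have hl := h.lam0
  have hm : (0 : ℝ) < S.card := by exact_mod_cast hS.card_pos
  set Om : (ι → ι → ℤ) → ℝ := fun X => ∑ i ∈ S, u L X i with hOm
  have h1 : Ex r (fun X => Om X ^ 2) ≤ Ex r (fun X => ∑ i ∈ S, lam / w ^ 2 *
      (Om X * (Q L X / w ^ 2 * u L X i))) + (0 + S.card ^ 2) := by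
    have e : ∀ X, ∑ i ∈ S, lam / w ^ 2 * (Om X * (Q L X / w ^ 2 * u L X i)) =
        lam * Q L X / w ^ 4 * Om X ^ 2 := fun X => by
      simp only [← mul_sum, hOm]
      ring
    simp only [e]
    refine h.ex_le le_rfl (by positivity) (fun X _ hg => ?_) fun X hX _ => ?_
    · rw [add_zero]
      exact le_mul_of_one_le_left (sq_nonneg _) ((one_le_div (by positivity)).2 hg.2.2.1)
    · have := (Q_mem (L := L) (X := X)).1
      refine le_add_of_nonneg_of_le (by positivity) ?_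
      have h2 : |Om X| ≤ S.card * w ^ 2 := (abs_sum_le_sum_abs _ _).trans (by
        simpa [h.wsq] using sum_le_card_nsmul S _ _ fun i _ => u_le (L := L) hX i)
      rw [← sq_abs]
      calc _ ≤ (S.card * w ^ 2) ^ 2 := by gcongr
        _ = _ := by ring
  have h2 : ∀ i ∈ S, Ex r (fun X => lam / w ^ 2 * (Om X * (Q L X / w ^ 2 * u L X i))) ≤
      4 * lam * w ^ 2 + Ex r (fun X => Om X ^ 2) / (2 * S.card) +
        (4 * lam ^ 2 + lam ^ 2 * y / w ^ 4) * S.card := by
    intro i hi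
    have h3 := (le_abs_self _).trans (h.line1 i (f := Om) (c := 4) (by norm_num)
      fun X _ k hk k' hk' l => by
        simp only [hOm, ← sum_sub_distrib]
        refine (abs_sum_le_sum_abs _ _).trans ((sum_le_sum fun a _ => u_sw hk hk' a).trans ?_)
        rw [← mul_sum, sum_add_distrib]
        linarith [sum_e_le S i, sum_e_le S l])
    have h4 : lam / w ^ 2 * Ex r (fun X => 2 * w ^ 2 * |Om X| + |Om X| * |Y L X i|) ≤
        Ex r fun X => Om X ^ 2 / (2 * S.card) + 4 * lam ^ 2 * S.card +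
          lam ^ 2 * S.card / w ^ 4 * Y L X i ^ 2 := by
      rw [← Ex_mul]
      refine Ex_mono fun X _ => ?_
      rw [← sq_abs (Om X), ← sq_abs (Y L X i), ← sub_nonneg]
      have : |Om X| ^ 2 / (2 * S.card) + 4 * lam ^ 2 * S.card +
          lam ^ 2 * S.card / w ^ 4 * |Y L X i| ^ 2 -
          lam / w ^ 2 * (2 * w ^ 2 * |Om X| + |Om X| * |Y L X i|) =
          ((|Om X| / 2 - 2 * lam * S.card) ^ 2 +
            (|Om X| / 2 - lam * S.card * |Y L X i| / w ^ 2) ^ 2) / S.card := by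
        field_simp
        ring
      rw [this]
      positivity
    conv_rhs at h4 => rw [Ex_add, Ex_add, Ex_div, Ex_mul (lam ^ 2 * S.card / w ^ 4)]
    have h5 := Ex_const_le (r := r) (c := 4 * lam ^ 2 * S.card) (by positivity)
    have h6 := mul_le_mul_of_nonneg_left (hy i hi)
      (show 0 ≤ lam ^ 2 * S.card / w ^ 4 by positivity)
    have h7 := mul_le_mul_of_nonneg_left h3 (show 0 ≤ lam / w ^ 2 by positivity)
    rw [mul_add, show lam / w ^ 2 * (w ^ 4 * 4) = 4 * lam * w ^ 2 by field_simp] at h7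
    rw [Ex_mul]
    have e : lam ^ 2 * S.card / w ^ 4 * y = lam ^ 2 * y / w ^ 4 * S.card := by ring
    linarith
  rw [Ex_sum] at h1
  have h3 := sum_le_card_nsmul S _ _ h2
  rw [nsmul_eq_mul, mul_add, mul_add, show (S.card : ℝ) * (Ex r (fun X => Om X ^ 2) / (2 * S.card)) =
    Ex r (fun X => Om X ^ 2) / 2 by field_simp] at h3
  have h4 : (S.card : ℝ) ^ 2 ≤ lam ^ 2 * S.card ^ 2 :=
    le_mul_of_one_le_left (sq_nonneg _) (one_le_pow₀ h.lam1)
  have e : 2 * lam ^ 2 * y / w ^ 4 = 2 * (lam ^ 2 * y / w ^ 4) := by ring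
  rw [e]
  linarith

lemma u_sq (i : ι) : Ex r (fun X => u L X i ^ 2) ≤ (5 * lam ^ 3 * w) ^ 2 := by
  have hw := h.w0
  have hl := h.lam0
  have h1 : Ex r (fun X => Y L X i ^ 2) ≤ lam ^ 4 * w ^ 6 + lam ^ 2 * w ^ 4 := by
    refine h.ex_le' (by positivity) (by positivity) (fun X hX hg => ?_) fun X hX _ => ?_
    · rw [← sq_abs]
      calc _ ≤ (lam * w ^ 2 * (lam * w)) ^ 2 := by
            gcongr
            exact h.Y_le hX (by positivity) hg.2.1 i
        _ = _ := by ring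
    · rw [← sq_abs]
      calc _ ≤ (lam * w ^ 2 * w ^ 2) ^ 2 := by
            gcongr
            exact h.Y_le hX (by positivity) (fun k _ => h.ze_le k) i
        _ = _ := by ring
  have h2 := h.omega_sq (singleton_nonempty i) (y := 2 * (lam ^ 4 * w ^ 6)) fun a ha => by
    rw [mem_singleton.1 ha]
    linarith [h.mono 2 4 4 6 (by norm_num)]
  simp only [sum_singleton, card_singleton, Nat.cast_one, one_pow, mul_one] at h2
  rw [show 2 * lam ^ 2 * (2 * (lam ^ 4 * w ^ 6)) / w ^ 4 = 4 * (lam ^ 6 * w ^ 2) by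
    field_simp; ring] at h2
  have := h.mono 1 2 6 2 (by norm_num)
  have := h.mono 2 0 6 2 (by norm_num)
  have : 0 ≤ lam ^ 6 * w ^ 2 := by positivity
  linarith

end Hyp

end Pool.Agent.Work.MP_1d48d5_pr.CLT
end

-- merged part: Pool.Agent.Work.MP_1d48d5_pr.CY
section
/-! The correlation term is small. -/

open Finset

namespace Pool.Agent.Work.MP_1d48d5_pr.CLT

variable {ι : Type} [Fintype ι] [DecidableEq ι]
variable {L : Finset ι} {r : ι → ℤ} {X : ι → ι → ℤ} {i j l k k' : ι} {lam w : ℝ}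

namespace Hyp

variable (h : Hyp L r lam w)
include h

lemma ze_sw (a : ι) :
    |ze L (X + sw i l k k') a - ze L X a| ≤ 2 * (e k a + e k' a) + 4 / w ^ 2 := by
  have := h.w0
  have h1 := N_sw (L := L) (X := X) (i := i) (l := l) (k := k) (k' := k') a
  have h2 : |Q L (X + sw i l k k') / w ^ 2 - Q L X / w ^ 2| ≤ 4 / w ^ 2 := by
    rw [← sub_div, abs_div, abs_of_pos (pow_pos this 2)]
    gcongr
    exact Q_sw
  simp only [ze, h.wsq]
  rw [abs_le] at h1 h2 ⊢
  constructor <;> linarith [h1.1, h1.2, h2.1, h2.2]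

lemma ze_sw' (a : ι) : |ze L (X + sw i l k k') a - ze L X a| ≤ 8 := by
  have := h.w0
  have h1 : 4 / w ^ 2 ≤ 4 := div_le_self (by norm_num) (one_le_pow₀ h.w1)
  linarith [h.ze_sw (X := X) (i := i) (l := l) (k := k) (k' := k') a, (e_mem k a).2, (e_mem k' a).2]

lemma Yze_sw (hX : X ∈ tab r r) {z : ℝ} (hz1 : 1 ≤ z) (hz : ∀ a ∈ L, |ze L X a| ≤ z)
    (hx : ∀ a ∈ L, (X i a : ℝ) ≤ lam * z) (hk : k ∈ L) :
    |Y L (X + sw i l k k') i * ze L (X + sw i l k k') k - Y L X i * ze L X k| ≤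
      396 * lam * z ^ 2 + 8 * lam * w ^ 2 * z := by
  have hw := h.w0
  have hl := h.lam1
  have hz' : ∀ a ∈ L, |ze L (X + sw i l k k') a| ≤ 9 * z := fun a ha => by
    have h1 := h.ze_sw' (X := X) (i := i) (l := l) (k := k) (k' := k') a
    have h2 := hz a ha
    rw [abs_le] at h1 h2 ⊢
    constructor <;> linarith [h1.1, h1.2, h2.1, h2.2]
  have h1 : |Y L (X + sw i l k k') i - Y L X i| ≤ 44 * lam * z := by
    rw [Y, Y, ← sum_sub_distrib]
    refine (abs_sum_le_sum_abs _ _).trans ((sum_le_sum (g := fun a =>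
      (2 * lam * z + 18 * z) * (e k a + e k' a) + 4 / w ^ 2 * X i a) fun a ha => ?_).trans ?_)
    · have h0 : (0 : ℝ) ≤ X i a := Int.cast_nonneg ((mem_tab.1 hX).1 i a)
      have e1 : ((X + sw i l k k') i a : ℝ) * ze L (X + sw i l k k') a - X i a * ze L X a =
          X i a * (ze L (X + sw i l k k') a - ze L X a) +
            sw i l k k' i a * ze L (X + sw i l k k') a := by
        simp only [Pi.add_apply, Int.cast_add]
        ring
      have h2 : 0 ≤ (e k a : ℝ) + e k' a := add_nonneg (e_mem k a).1 (e_mem k' a).1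
      have h3 : |(sw i l k k' i a : ℝ)| ≤ 2 * (e k a + e k' a) := (abs_sw i a).trans (by
        gcongr
        linarith [(e_mem i i).2, (e_mem l i).2])
      rw [e1]
      refine (abs_add_le _ _).trans ?_
      rw [abs_mul, abs_mul, abs_of_nonneg h0]
      have h4 := mul_le_mul_of_nonneg_left
        (h.ze_sw (X := X) (i := i) (l := l) (k := k) (k' := k') a) h0
      have h5 := mul_le_mul h3 (hz' a ha) (abs_nonneg _) (by linarith)
      have h6 := mul_le_mul_of_nonneg_right (hx a ha) h2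
      linarith
    · rw [sum_add_distrib, ← mul_sum, ← mul_sum, sum_add_distrib]
      have h2 : 4 / w ^ 2 * ∑ a ∈ L, (X i a : ℝ) ≤ 4 * lam := by
        rw [div_mul_eq_mul_div, div_le_iff₀ (by positivity), ← rs]
        linarith [h.rs_le hX i, sq_nonneg w]
      have h3 : (2 * lam * z + 18 * z) * (∑ a ∈ L, (e k a : ℝ) + ∑ a ∈ L, (e k' a : ℝ)) ≤
          (2 * lam * z + 18 * z) * 2 := by
        gcongr
        linarith [sum_e_le L k, sum_e_le L k']
      nlinarith
  have e1 : Y L (X + sw i l k k') i * ze L (X + sw i l k k') k - Y L X i * ze L X k =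
      (Y L (X + sw i l k k') i - Y L X i) * ze L (X + sw i l k k') k +
        Y L X i * (ze L (X + sw i l k k') k - ze L X k) := by ring
  rw [e1]
  refine (abs_add_le _ _).trans ?_
  rw [abs_mul, abs_mul]
  have h2 := mul_le_mul h1 (hz' k hk) (abs_nonneg _) (by positivity)
  have h3 := mul_le_mul (h.Y_le hX (by linarith) hz i)
    (h.ze_sw' (X := X) (i := i) (l := l) (k := k) (k' := k') k) (abs_nonneg _) (by positivity)
  linarith

lemma V_le (hX : X ∈ tab r r) {z : ℝ} (h0 : 0 ≤ z) (hz : ∀ a ∈ L, |ze L X a| ≤ z) (i : ι) :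
    Y L X i * (U L X i * ∑ k ∈ L, (X i k + 1) * ze L X k ^ 2) ≤ lam ^ 2 * w ^ 6 * z ^ 3 := by
  have hw := h.w0
  have hl := h.lam0
  have hx : ∀ k, (0 : ℝ) ≤ X i k + 1 := fun k =>
    add_nonneg (Int.cast_nonneg ((mem_tab.1 hX).1 i k)) zero_le_one
  have h1 : ∑ k ∈ L, (X i k + 1) * ze L X k ^ 2 ≤ lam * w ^ 2 * z ^ 2 := by
    calc _ ≤ ∑ k ∈ L, (X i k + 1) * z ^ 2 := sum_le_sum fun k hk => by
          rw [← sq_abs]
          gcongr
          exacts [hx k, hz k hk]
      _ = (rs L X i + w ^ 2) * z ^ 2 := by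
          simp [← sum_mul, sum_add_distrib, rs, h.wsq]
      _ ≤ _ := by gcongr; exact h.rs_le hX i
  have h2 := U_mem (L := L) (X := X) i
  rw [h.wsq] at h2
  have h3 : 0 ≤ ∑ k ∈ L, (X i k + 1) * ze L X k ^ 2 :=
    sum_nonneg fun k _ => mul_nonneg (hx k) (sq_nonneg _)
  calc _ ≤ lam * w ^ 2 * z * (w ^ 2 * (lam * w ^ 2 * z ^ 2)) :=
        mul_le_mul ((le_abs_self _).trans (h.Y_le hX h0 hz i))
          (mul_le_mul h2.2 h1 h3 (by positivity)) (mul_nonneg h2.1 h3) (by positivity)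
    _ = _ := by ring

open Classical in
lemma Y_sq (i : ι) : Ex r (fun X => Y L X i ^ 2) ≤ 900 * (lam ^ 9 * w ^ 5) := by
  have hw := h.w0
  have hl := h.lam0
  have hlw : 1 ≤ lam * w := one_le_mul_of_one_le_of_one_le h.lam1 h.w1
  have m := master (L := L) (r := r) i (g := fun k X => Y L X i * ze L X k)
    (G := fun X => if good L lam w X then lam ^ 3 * w ^ 4 else lam * w ^ 6)
    (D := fun X => if good L lam w X then 404 * (lam ^ 3 * w ^ 3) else 404 * (lam * w ^ 4))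
    (fun X _ => by positivity) (fun X _ => by positivity)
    (fun X hX k hk => by
      rw [abs_mul]
      split_ifs with hg
      · exact (mul_le_mul (h.Y_le hX (by positivity) hg.2.1 i) (hg.2.1 k hk) (abs_nonneg _)
          (by positivity)).trans_eq (by ring)
      · exact (mul_le_mul (h.Y_le hX (by positivity) (fun a _ => h.ze_le a) i) (h.ze_le k)
          (abs_nonneg _) (by positivity)).trans_eq (by ring))
    (fun X hX k hk k' _ l => by
      split_ifs with hg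
      · refine (h.Yze_sw hX hlw hg.2.1 (fun a ha => (hg.1 i a ha).trans
          (le_mul_of_one_le_right hl.le hlw)) hk).trans ?_
        linarith [h.mono 3 2 3 3 (by norm_num),
          h.mono 2 3 3 3 (by norm_num)]
      · refine (h.Yze_sw hX (one_le_pow₀ h.w1) (fun a _ => h.ze_le a) (fun a ha => ?_) hk).trans_eq
          (by ring)
        have := single_le_sum (f := fun k => (X i k : ℝ))
          (fun k _ => Int.cast_nonneg ((mem_tab.1 hX).1 i k)) ha
        linarith [h.rs_le hX i, sq_nonneg w, show rs L X i = ∑ k ∈ L, (X i k : ℝ) from rfl])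
  have m2 : (Ex r fun X => (rs L X i + L.card) * (L.card ^ 2 *
      (if good L lam w X then 404 * (lam ^ 3 * w ^ 3) else 404 * (lam * w ^ 4)) +
      2 * L.card * if good L lam w X then lam ^ 3 * w ^ 4 else lam * w ^ 6)) ≤
      406 * (lam ^ 5 * w ^ 9) + 406 * (lam ^ 2 * w ^ 6) := by
    refine h.ex_le' (by positivity) (by positivity) (fun X hX hg => ?_) fun X hX hg => ?_
    · rw [if_pos hg, if_pos hg, h.wsq]
      refine (mul_le_mul_of_nonneg_right (h.rs_le hX i) (by positivity)).trans ?_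
      linarith [h.mono 4 9 5 9 (by norm_num),
        h.mono 4 8 5 9 (by norm_num)]
    · rw [if_neg hg, if_neg hg, h.wsq]
      exact (mul_le_mul_of_nonneg_right (h.rs_le hX i) (by positivity)).trans_eq (by ring)
  rw [Ex_congr (G := fun X => Y L X i * (U L X i * ∑ k ∈ L, (X i k + 1) * ze L X k ^ 2) -
    Q L X / w ^ 2 * (w ^ 2 - U L X i) * Y L X i ^ 2), Ex_sub] at m
  swap
  · intro X _
    have e1 : ∀ k, Y L X i * ze L X k * ((X i k + 1) * N L X k * U L X i - X i k * Q L X) =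
        Y L X i * U L X i * ((X i k + 1) * ze L X k ^ 2) +
          Y L X i * (U L X i * (Q L X / w ^ 2) - Q L X) * (X i k * ze L X k) +
          Y L X i * U L X i * (Q L X / w ^ 2) * ze L X k := fun k => by
      rw [show N L X k = ze L X k + Q L X / w ^ 2 by rw [ze, h.wsq]; ring]
      ring
    have e2 : ∑ k ∈ L, ze L X k = 0 := sum_ze (by rw [h.wsq]; positivity)
    simp only [e1, sum_add_distrib, ← mul_sum, e2]
    rw [← Y]
    field_simp
    ring
  have m3 : (Ex r fun X => Y L X i * (U L X i * ∑ k ∈ L, (X i k + 1) * ze L X k ^ 2)) ≤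
      lam ^ 5 * w ^ 9 + lam ^ 2 * w ^ 8 :=
    h.ex_le' (by positivity) (by positivity)
      (fun X hX hg => (h.V_le hX (by positivity) hg.2.1 i).trans_eq (by ring))
      fun X hX _ => (h.V_le hX (by positivity) (fun a _ => h.ze_le a) i).trans_eq (by ring)
  have m4 : (Ex r fun X => Q L X / w ^ 2 * (w ^ 2 - U L X i) * Y L X i ^ 2) ≤
      814 * (lam ^ 5 * w ^ 9) := by
    linarith [(abs_le.1 m).1, h.mono 2 6 5 9 (by norm_num),
      h.mono 2 8 5 9 (by norm_num)]
  have m5 : (Ex r fun X => Y L X i ^ 2) ≤ (Ex r fun X => lam ^ 2 / w ^ 4 *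
      (Q L X / w ^ 2 * (w ^ 2 - U L X i) * Y L X i ^ 2) + lam ^ 6 * w ^ 4 * |u L X i|) +
      (0 + lam ^ 2 * w ^ 4) := by
    refine h.ex_le le_rfl (by positivity) (fun X hX hg => ?_) fun X hX _ => ?_
    · have h0 := rs_nonneg (L := L) hX i
      have h1 : w ^ 2 ≤ lam * (w ^ 2 - U L X i + |u L X i|) := by
        have e1 : w ^ 2 - U L X i + u L X i = w ^ 4 / (rs L X i + w ^ 2) := by
          rw [u, h.wsq]
          field_simp
          ring
        have h2 : w ^ 2 ≤ lam * (w ^ 4 / (rs L X i + w ^ 2)) := by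
          rw [← mul_div_assoc, le_div_iff₀ (by positivity)]
          linarith only [mul_le_mul_of_nonneg_left (h.rs_le hX i) (sq_nonneg w)]
        refine h2.trans ?_
        rw [← e1]
        exact mul_le_mul_of_nonneg_left (add_le_add le_rfl (le_abs_self _)) hl.le
      have h2 : Y L X i ^ 2 ≤ lam ^ 4 * w ^ 6 := by
        rw [← sq_abs]
        exact (pow_le_pow_left₀ (abs_nonneg _) (h.Y_le hX (by positivity) hg.2.1 i) 2).trans_eq
          (by ring)
      have h3 := Q_mem (L := L) (X := X)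
      rw [h.wsq] at h3
      have h4 := mul_le_mul hg.2.2.1 h1 (by positivity) (mul_nonneg hl.le h3.1)
      have h5 : Q L X * |u L X i| * Y L X i ^ 2 ≤ (w ^ 2) ^ 2 * |u L X i| * (lam ^ 4 * w ^ 6) :=
        mul_le_mul (mul_le_mul_of_nonneg_right h3.2 (abs_nonneg _)) h2 (sq_nonneg _)
          (mul_nonneg (sq_nonneg _) (abs_nonneg _))
      have h6 := mul_le_mul_of_nonneg_right h4 (sq_nonneg (Y L X i))
      rw [add_zero, ← mul_le_mul_iff_right₀ (pow_pos hw 6), mul_add,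
        show w ^ 6 * (lam ^ 2 / w ^ 4 * (Q L X / w ^ 2 * (w ^ 2 - U L X i) * Y L X i ^ 2)) =
          lam ^ 2 * (Q L X * (w ^ 2 - U L X i) * Y L X i ^ 2) by field_simp]
      linarith only [h6, mul_le_mul_of_nonneg_left h5 (sq_nonneg lam)]
    · have h2 := U_mem (L := L) (X := X) i
      have h3 := (Q_mem (L := L) (X := X)).1
      rw [h.wsq] at h2
      have h4 := sub_nonneg.2 h2.2
      refine le_add_of_nonneg_of_le (by positivity) ?_
      rw [← sq_abs]
      exact (pow_le_pow_left₀ (abs_nonneg _)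
        (h.Y_le hX (by positivity) (fun a _ => h.ze_le a) i) 2).trans_eq (by ring)
  rw [Ex_add, Ex_mul, Ex_mul] at m5
  have m6 := mul_le_mul_of_nonneg_left (Ex_abs_le (by positivity) (h.u_sq i))
    (show 0 ≤ lam ^ 6 * w ^ 4 by positivity)
  have m7 := mul_le_mul_of_nonneg_left m4 (show 0 ≤ lam ^ 2 / w ^ 4 by positivity)
  rw [show lam ^ 2 / w ^ 4 * (814 * (lam ^ 5 * w ^ 9)) = 814 * (lam ^ 7 * w ^ 5) by field_simp] at m7
  have : 0 ≤ lam ^ 9 * w ^ 5 := by positivity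
  linarith [h.mono 7 5 9 5 (by norm_num), h.mono 2 4 9 5 (by norm_num)]

end Hyp

end Pool.Agent.Work.MP_1d48d5_pr.CLT
end

-- merged part: Pool.Agent.Work.MP_1d48d5_pr.CEps
section
/-! Laws of large numbers with error of smaller order than the square root. -/

open Finset

namespace Pool.Agent.Work.MP_1d48d5_pr.CLT

variable {ι : Type} [Fintype ι] [DecidableEq ι]
variable {L : Finset ι} {r : ι → ℤ} {X : ι → ι → ℤ} {i j l k k' : ι} {lam w ε d C x η K : ℝ}

lemma Ex_zero (hj : ∀ j' ∉ L, r j' = r j) (i : ι) :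
    Ex r (fun X => (1 - ind (X i j)) * rs Lᶜ X i) ≤ Lᶜ.card := by
  simp only [rs, mul_sum, Ex_sum]
  refine (sum_le_card_nsmul _ _ 1 fun j' hj' => ?_).trans_eq (by simp)
  refine le_trans ?_ (Ex_const_le (r := r) zero_le_one)
  rcases eq_or_ne j' j with rfl | hne
  · exact Ex_mono fun X hX => by linarith [ind_mul_self ((mem_tab.1 hX).1 i j')]
  calc _ ≤ Ex r fun X => ∑ m ∈ Icc 1 (r i),
        if X i j = 0 ∧ m ≤ X i j' then (1 : ℝ) else 0 := Ex_mono fun X hX => by
        have h0 := (mem_tab.1 hX).1 i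
        have h1 : X i j' ≤ r i := (mem_tab.1 hX).2.1 i ▸ single_le_sum (fun b _ => h0 b) (mem_univ j')
        unfold ind
        split_ifs with h2
        · simp
        · have h3 : (Icc 1 (r i)).filter (fun m => X i j = 0 ∧ m ≤ X i j') = Icc 1 (X i j') := by
            ext m
            have := h0 j
            simp only [mem_filter, mem_Icc]
            omega
          have h4 : ((Icc 1 (X i j')).card : ℤ) = X i j' := by
            rw [Int.card_Icc_of_le _ _ (by linarith [h0 j'])]; ring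
          rw [sum_boole, h3, sub_zero, one_mul]
          exact_mod_cast h4.ge
    _ ≤ Ex r fun X => ∑ m ∈ Icc 1 (r i),
        if X i j - m = 0 ∧ m ≤ X i j' + m then (1 : ℝ) else 0 := by
        rw [Ex_sum, Ex_sum]
        exact sum_le_sum fun m hm => Ex_le_of_sum (pair_le hne (hj j' (mem_compl.1 hj'))
          (P := fun a b => b = 0 ∧ m ≤ a) (fun a b h => by have := mem_Icc.1 hm; omega) i)
    _ ≤ _ := Ex_mono fun X _ => by
        rw [sum_boole]
        exact_mod_cast card_le_one.2 fun a ha b hb => by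
          have := (mem_filter.1 ha).2.1; have := (mem_filter.1 hb).2.1
          omega

lemma phi_sub {n a b : ℝ} (hn : 0 < n) (ha : 0 ≤ a) (hb : 0 ≤ b) :
    |n * a / (a + n) - n * b / (b + n)| ≤ |a - b| := by
  rw [show n * a / (a + n) - n * b / (b + n) = (a - b) * (n / (a + n) * (n / (b + n))) by
    field_simp; ring, abs_mul]
  refine mul_le_of_le_one_right (abs_nonneg _) ?_
  rw [abs_of_nonneg (by positivity)]
  exact mul_le_one₀ (div_le_one_of_le₀ (by linarith) (by positivity)) (by positivity)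
    (div_le_one_of_le₀ (by linarith) (by positivity))

lemma phi_sub2 {n a b : ℝ} (hn : 0 < n) (ha : 0 ≤ a) (hb : 0 ≤ b) :
    |n * a / (a + n) - n * b / (b + n) - n ^ 2 / (b + n) ^ 2 * (a - b)| ≤ (a - b) ^ 2 / n := by
  rw [show n * a / (a + n) - n * b / (b + n) - n ^ 2 / (b + n) ^ 2 * (a - b) =
    -((a - b) ^ 2 / (a + n) * (n / (b + n)) ^ 2) by field_simp; ring, abs_neg,
    abs_of_nonneg (by positivity)]
  refine (mul_le_of_le_one_right (by positivity) (pow_le_one₀ (by positivity)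
    (div_le_one_of_le₀ (by linarith) (by positivity)))).trans ?_
  gcongr
  linarith

/-- Assumptions on the sizes. -/
structure Hyp2 (L : Finset ι) (r : ι → ℤ) (lam w ε d C x η K : ℝ) : Prop extends Hyp L r lam w where
  e0 : 0 < ε
  e1 : ε ≤ 1
  dc : (Lᶜ.card : ℝ) = d
  h1 : lam ^ 12 ≤ ε ^ 2 * w
  h2 : lam * d ≤ ε * w
  h3 : lam ≤ ε ^ 2 * d
  C0 : 0 < C
  x0 : 0 < x
  xC : (x / (1 + x)) ^ 2 = C / (1 + C)
  η0 : 0 < η
  light : ∀ l ∈ L, |r l - C * w ^ 2| ≤ 1
  heavy : ∀ i ∉ L, ∀ i' ∉ L, r i = r i'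
  big : ∀ i ∉ L, (x + 2 * η) * w ^ 2 + lam * w ≤ r i
  rK : ∀ a, (r a : ℝ) + w ^ 2 ≤ K * w ^ 2
  K1 : 1 ≤ K

namespace Hyp2

variable (h : Hyp2 L r lam w ε d C x η K)
include h

lemma pw (a : ℕ) (ha : a ≤ 12) : lam ^ a ≤ ε ^ 2 * w :=
  (pow_le_pow_right₀ h.lam1 ha).trans h.h1

lemma pw' (a : ℕ) (ha : a ≤ 12) : lam ^ a ≤ ε * w :=
  (h.pw a ha).trans (by have := h.w0; have := h.e0; gcongr; nlinarith [h.e1])

lemma ew : 1 ≤ ε * w := by simpa using h.pw' 0 (by norm_num)

lemma ed : 1 ≤ ε ^ 2 * d := h.lam1.trans h.h3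

lemma d0 : 0 < d := (mul_pos_iff_of_pos_left (pow_pos h.e0 2)).1 (by linarith [h.ed])

lemma dle : d ≤ ε * w := (le_mul_of_one_le_left h.d0.le h.lam1).trans h.h2

lemma Y_abs (i : ι) : Ex r (fun X => |Y L X i|) ≤ 30 * (ε * w ^ 3) := by
  have := h.w0; have := h.e0
  refine Ex_abs_le (by positivity) ((h.Y_sq i).trans ?_)
  linarith [mul_le_mul_of_nonneg_right (h.pw 9 (by norm_num)) (pow_pos h.w0 5).le]

lemma om_sq {S : Finset ι} (hS : lam ≤ ε ^ 2 * S.card) :
    Ex r (fun X => (∑ i ∈ S, u L X i) ^ 2) ≤ (43 * (ε * w * S.card)) ^ 2 := by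
  have hw := h.w0; have := h.e0; have := h.lam0
  have hm : (0 : ℝ) < S.card := (mul_pos_iff_of_pos_left (pow_pos h.e0 2)).1 (by linarith)
  refine (h.omega_sq (card_pos.1 (by exact_mod_cast hm)) fun i _ => h.Y_sq i).trans ?_
  rw [show 2 * lam ^ 2 * (900 * (lam ^ 9 * w ^ 5)) / w ^ 4 = 1800 * (lam ^ 11 * w ^ 1) by field_simp; ring]
  have h1 := mul_le_mul_of_nonneg_right hS (show 0 ≤ w ^ 2 * S.card by positivity)
  have h2 := mul_le_mul_of_nonneg_right (h.pw 11 (by norm_num)) (show 0 ≤ w * S.card ^ 2 by positivity)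
  have h3 := mul_le_mul_of_nonneg_right (h.mono 2 0 11 1 (by norm_num))
    (sq_nonneg (S.card : ℝ))
  have : 0 ≤ ε ^ 2 * w ^ 2 * S.card ^ 2 := by positivity
  linarith

lemma Tt_mem (hX : X ∈ tab r r) {K : ℝ} (hK : ∀ a, (r a : ℝ) + w ^ 2 ≤ K * w ^ 2) :
    0 ≤ Tt L X ∧ Tt L X + d * w ^ 2 ≤ d * (K * w ^ 2) := by
  refine ⟨sum_nonneg fun i _ => rs_nonneg hX i, ?_⟩
  have := sum_le_card_nsmul Lᶜ (fun i => rs L X i + w ^ 2) (K * w ^ 2) fun i _ => by
    linarith [CLT.rs_le (L := L) hX i, hK i]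
  simpa [sum_add_distrib, h.dc, Tt] using this

lemma spread (hg : good L lam w X) (hi : i ∉ L) : |rs L X i - Tt L X / d| ≤ lam * w := by
  have hd := h.d0
  have e1 : rs L X i - Tt L X / d = (∑ i' ∈ Lᶜ, (rs L X i - rs L X i')) / d := by
    rw [sum_sub_distrib, sum_const, nsmul_eq_mul, h.dc, ← Tt]
    field_simp
  rw [e1, abs_div, abs_of_pos hd, div_le_iff₀' hd]
  simpa [h.dc] using (abs_sum_le_sum_abs _ _).trans
    (sum_le_card_nsmul Lᶜ _ _ fun i' hi' => hg.2.2.2 i hi i' (mem_compl.1 hi'))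

lemma alpha : Ex r (fun X => (Q L X - C / (1 + C) * w ^ 4) ^ 2) ≤ (61 * (ε * w ^ 3)) ^ 2 := by
  have hw := h.w0; have := h.e0; have := h.lam0; have := h.C0
  have h1 : Ex r (fun X => (Q L X - C / (1 + C) * w ^ 4) ^ 2) ≤
      Ex r fun X => 2 * (∑ i ∈ L, u L X i) ^ 2 + 8 * (ε * w ^ 3) ^ 2 := Ex_mono fun X hX => by
    have h2 : |Q L X - C / (1 + C) * w ^ 4 - ∑ i ∈ L, u L X i| ≤ 2 * (ε * w ^ 3) := by
      have e1 : Q L X - C / (1 + C) * w ^ 4 - ∑ i ∈ L, u L X i = ∑ i ∈ L,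
          (w ^ 2 * rs L X i / (rs L X i + w ^ 2) - w ^ 2 * (C * w ^ 2) / (C * w ^ 2 + w ^ 2)) := by
        simp only [Q_eq, u, sum_sub_distrib, sum_const, nsmul_eq_mul, h.wsq]
        field_simp
        ring
      rw [e1]
      refine (abs_sum_le_sum_abs _ _).trans ((sum_le_sum (g := fun i => 1 + rs Lᶜ X i)
        fun i hi => (phi_sub (by positivity) (rs_nonneg hX i) (by positivity)).trans ?_).trans ?_)
      · have h3 := abs_le.1 (h.light i hi)
        rw [abs_le]
        constructor <;> linarith [rs_add (L := L) hX i, rs_nonneg (L := Lᶜ) hX i]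
      · have e2 : ∑ i ∈ L, rs Lᶜ X i = Tt L (tr X) := sum_comm
        rw [sum_add_distrib, e2, Tt_tr hX, sum_const, nsmul_eq_mul, h.wsq]
        have h3 := mul_le_mul_of_nonneg_right h.h2 (sq_nonneg w)
        have h4 := mul_le_mul_of_nonneg_right h.ew (sq_nonneg w)
        have : 0 ≤ d * w ^ 2 := mul_nonneg h.d0.le (sq_nonneg w)
        linarith [(h.Tt_mem hX h.rle).2]
    have h3 := sq_le_sq' (abs_le.1 h2).1 (abs_le.1 h2).2
    linarith only [h3, sq_nonneg (Q L X - C / (1 + C) * w ^ 4 - 2 * ∑ i ∈ L, u L X i)]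
  rw [Ex_add, Ex_mul] at h1
  have h2 := h.om_sq (S := L) (by
    rw [h.wsq]
    have := h.pw 1 (by norm_num)
    nlinarith [h.w1, mul_pos (pow_pos h.e0 2) hw])
  rw [h.wsq] at h2
  have h3 := Ex_const_le (r := r) (c := 8 * (ε * w ^ 3) ^ 2) (by positivity)
  linarith only [h1, h2, h3, sq_nonneg (ε * w ^ 3)]

lemma fu (i : ι) {f : ℝ → ℝ} (hf : ∀ X ∈ tab r r, |f (rs L X i)| ≤ 1) :
    C / (1 + C) * |Ex r fun X => f (rs L X i) * u L X i| ≤ 4000 * (ε * w) := by
  have hw := h.w0; have := h.e0; have := h.lam0; have := h.C0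
  have h1 := h.line1 i (f := fun X => f (rs L X i)) (c := 0) le_rfl fun X _ k hk k' hk' l => by
    simp [rs_sw, hk, hk']
  have h2 : (Ex r fun X => 2 * w ^ 2 * |f (rs L X i)| + |f (rs L X i)| * |Y L X i|) ≤
      Ex r fun X => 2 * w ^ 2 + |Y L X i| := Ex_mono fun X hX =>
    add_le_add (mul_le_of_le_one_right (by positivity) (hf X hX))
      (mul_le_of_le_one_left (abs_nonneg _) (hf X hX))
  have h3 : |Ex r fun X => f (rs L X i) * ((Q L X - C / (1 + C) * w ^ 4) / w ^ 2 * u L X i)| ≤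
      Ex r fun X => (Q L X - C / (1 + C) * w ^ 4) ^ 2 / w ^ 4 + u L X i ^ 2 :=
    abs_Ex_le.trans (Ex_mono fun X hX => by
      rw [abs_mul]
      refine (mul_le_of_le_one_left (abs_nonneg _) (hf X hX)).trans ?_
      rw [show w ^ 4 = (w ^ 2) ^ 2 by ring, ← div_pow, abs_le]
      constructor <;> linarith only [sq_nonneg ((Q L X - C / (1 + C) * (w ^ 2) ^ 2) / w ^ 2 - u L X i),
        sq_nonneg ((Q L X - C / (1 + C) * (w ^ 2) ^ 2) / w ^ 2 + u L X i)])
  conv_rhs at h2 => rw [Ex_add]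
  rw [Ex_add, Ex_div, Ex_congr (G := fun X => f (rs L X i) * (Q L X / w ^ 2 * u L X i) -
    C / (1 + C) * w ^ 2 * (f (rs L X i) * u L X i)) (fun X _ => by field_simp), Ex_sub,
    Ex_mul] at h3
  have h4 : Ex r (fun X => (Q L X - C / (1 + C) * w ^ 4) ^ 2) / w ^ 4 ≤ 3721 * (ε * w ^ 3) := by
    rw [div_le_iff₀ (by positivity)]
    refine h.alpha.trans ?_
    have : ε * 1 ≤ 1 * w := by gcongr; exacts [h.e1, h.w1]
    linarith [mul_le_mul_of_nonneg_right this (show 0 ≤ ε * w ^ 6 by positivity)]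
  have h5 := mul_le_mul_of_nonneg_right (h.pw' 6 (by norm_num)) (sq_nonneg w)
  have h6 := mul_le_mul_of_nonneg_right h.ew (sq_nonneg w)
  have h7 := Ex_const_le (r := r) (c := 2 * w ^ 2) (by positivity)
  rw [← mul_le_mul_iff_right₀ (pow_pos hw 2), ← mul_assoc, ← abs_of_pos (a := w ^ 2 * _)
    (by positivity), ← abs_mul, abs_le]
  rw [abs_le] at h1 h3
  have : 0 ≤ ε * w ^ 3 := by positivity
  constructor <;> linarith [h1.1, h1.2, h3.1, h3.2, h.Y_abs i, h.u_sq i]

lemma Ubar : Ex r (fun X => |∑ i ∈ Lᶜ, U L X i - d * w ^ 2 * Tt L X / (Tt L X + d * w ^ 2)|) ≤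
    45 * (ε * w * d) := by
  have hw := h.w0; have := h.e0; have := h.lam0; have hd := h.d0
  have key : ∀ X ∈ tab r r, ∀ z : ℝ, (∀ i ∉ L, (rs L X i - Tt L X / d) ^ 2 / w ^ 2 ≤ z) →
      |∑ i ∈ Lᶜ, U L X i - d * w ^ 2 * Tt L X / (Tt L X + d * w ^ 2)| ≤
        |∑ i ∈ Lᶜ, u L X i| + d * z := fun X hX z hz => by
    have h0 := (h.Tt_mem hX h.rle).1
    have e1 : ∑ i ∈ Lᶜ, U L X i - d * w ^ 2 * Tt L X / (Tt L X + d * w ^ 2) = ∑ i ∈ Lᶜ, u L X i +
        ∑ i ∈ Lᶜ, (w ^ 2 * rs L X i / (rs L X i + w ^ 2) - w ^ 2 * (Tt L X / d) /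
          (Tt L X / d + w ^ 2) - (w ^ 2) ^ 2 / (Tt L X / d + w ^ 2) ^ 2 *
            (rs L X i - Tt L X / d)) := by
      simp only [u, sum_sub_distrib, ← mul_sum, sum_const, nsmul_eq_mul, h.wsq, h.dc]
      rw [← Tt]
      field_simp
      ring
    rw [e1]
    refine (abs_add_le _ _).trans (add_le_add le_rfl ((abs_sum_le_sum_abs _ _).trans ?_))
    simpa [h.dc] using sum_le_card_nsmul Lᶜ _ z fun i hi =>
      (phi_sub2 (by positivity) (rs_nonneg hX i) (by positivity)).trans (hz i (mem_compl.1 hi))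
  have h1 := h.ex_le (A := d * lam ^ 2) (B := d * lam ^ 2) (by positivity) (by positivity)
    (fun X hX hg => key X hX _ fun i hi => by
      have h2 := h.spread hg hi
      rw [div_le_iff₀ (by positivity), ← mul_pow]
      exact sq_le_sq' (abs_le.1 h2).1 (abs_le.1 h2).2)
    (fun X hX _ => (key X hX (lam ^ 2 * w ^ 4) fun i hi => by
      have h2 := h.Tt_mem hX h.rle
      have h3 : 0 ≤ Tt L X / d := div_nonneg h2.1 hd.le
      have h4 : Tt L X / d ≤ lam * w ^ 2 := by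
        rw [div_le_iff₀ hd]
        linarith [mul_pos hd (pow_pos hw 2)]
      have h5 := sq_le_sq' (a := rs L X i - Tt L X / d) (b := lam * w ^ 2)
        (by linarith [rs_nonneg (L := L) hX i]) (by linarith [h.rs_le hX i, sq_nonneg w])
      rw [div_le_iff₀ (by positivity)]
      linarith [h.mono 2 4 2 6 (by norm_num)]).trans_eq (by ring))
  have h2 := Ex_abs_le (by rw [h.dc]; positivity) (h.om_sq (S := Lᶜ) (h.dc ▸ h.h3))
  rw [h.dc] at h2
  linarith [mul_le_mul_of_nonneg_left (h.pw' 2 (by norm_num)) hd.le]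

end Hyp2

end Pool.Agent.Work.MP_1d48d5_pr.CLT
end

-- merged part: Pool.Agent.Work.MP_1d48d5_pr.CStein
section
/-! The approximate recursion for the law of the light part of a heavy row. -/

open Finset

namespace Pool.Agent.Work.MP_1d48d5_pr.CLT

variable {ι : Type} [Fintype ι] [DecidableEq ι]
variable {L : Finset ι} {r : ι → ℤ} {X : ι → ι → ℤ} {i j l k k' : ι} {lam w ε d C x η K : ℝ}

/-- Truncation. -/
noncomputable def cut (y : ℝ) : ℝ := max (-1) (min 1 y)

lemma abs_cut (y : ℝ) : |cut y| ≤ 1 :=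
  abs_le.2 ⟨le_max_left _ _, max_le (by norm_num) (min_le_left _ _)⟩

lemma cut_sub (y z : ℝ) : |cut y - cut z| ≤ |y - z| :=
  (abs_max_sub_max_le_max _ _ _ _).trans (max_le (by simp)
    ((abs_min_sub_min_le_max _ _ _ _).trans (by simp)))

lemma cut_nonneg {y : ℝ} (h : 0 ≤ y) : 0 ≤ cut y := le_max_of_le_right (le_min zero_le_one h)

lemma mul_cut (y : ℝ) {M : ℝ} (hM : 0 < M) : 0 ≤ y * cut (y / M) ∧ |y| ≤ y * cut (y / M) + M := by
  obtain ⟨t, rfl⟩ : ∃ t, y = M * t := ⟨y / M, by field_simp⟩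
  have h : 0 ≤ t * cut t ∧ |t| ≤ t * cut t + 1 := by
    unfold cut
    rcases le_total 1 t with h1 | h1
    · rw [min_eq_left h1, max_eq_right (by norm_num), abs_of_nonneg (by linarith)]
      constructor <;> linarith
    rcases le_total t (-1) with h2 | h2
    · rw [min_eq_right h1, max_eq_left h2, abs_of_nonpos (by linarith)]
      constructor <;> linarith
    · rw [min_eq_right h1, max_eq_right h2, abs_le]
      refine ⟨mul_self_nonneg t, ?_, ?_⟩ <;> linarith only [h2, h1, mul_self_nonneg t]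
  rw [mul_div_cancel_left₀ _ hM.ne', abs_mul, abs_of_pos hM, mul_assoc]
  exact ⟨mul_nonneg hM.le h.1, by nlinarith [h.2]⟩

lemma Tt_sw (hi : i ∉ L) (hj : j ∉ L) (hl : l ∈ L) (hk : k ∈ L) :
    Tt L (X + sw i l k j) = Tt L X + 1 := by
  simp only [Tt, rs_sw, hk, hj, if_true, if_false, sub_zero, mul_one, sum_add_distrib,
    sum_sub_distrib, sum_e_eq, mem_compl, hi, hl, not_true, not_false_iff]

/-- First constant. -/
noncomputable def c1 (x η K : ℝ) : ℝ := 1 + (153 + 1 / η) * (K * (1 + x) ^ 2 / x)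

/-- Second constant. -/
noncomputable def c2 (x η K : ℝ) : ℝ :=
  (K + 1) * ((107 + (1 + c1 x η K) / η + c1 x η K) * ((1 + x) / x) + 4000 * ((1 + x) / x) ^ 2)

namespace Hyp2

variable (h : Hyp2 L r lam w ε d C x η K)
include h

lemma zero_le (hX : X ∈ tab r r) (hg : good L lam w X) (hi : i ∉ L)
    (ht : Tt L X ≤ (x + η) * (d * w ^ 2)) (j : ι) :
    1 - ind (X i j) ≤ (1 - ind (X i j)) * rs Lᶜ X i / (η * w ^ 2) := by
  have hw := h.w0; have := h.η0
  rw [mul_div_assoc]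
  refine le_mul_of_one_le_right (sub_nonneg.2 (ind_le_one _)) ((one_le_div (by positivity)).2 ?_)
  have h1 : Tt L X / d ≤ (x + η) * w ^ 2 := by rw [div_le_iff₀ h.d0]; linarith
  linarith [rs_add (L := L) hX i, h.big i hi, (abs_le.1 (h.spread hg hi)).2]

lemma Ex_zero_le (hj : j ∉ L) (i : ι) :
    Ex r (fun X => (1 - ind (X i j)) * rs Lᶜ X i / (η * w ^ 2)) ≤ ε / (η * w) := by
  have hw := h.w0; have := h.η0
  rw [Ex_div]
  calc _ ≤ ε * w / (η * w ^ 2) := by
        gcongr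
        exact (Ex_zero (fun j' hj' => h.heavy j' hj' j hj) i).trans (h.dc.trans_le h.dle)
    _ = _ := by field_simp

lemma Nbar : Ex r (fun X => |∑ j ∈ Lᶜ, N L X j - d * w ^ 2 * Tt L X / (Tt L X + d * w ^ 2)|) ≤
    45 * (ε * w * d) := by
  refine le_trans (le_of_eq ?_) h.Ubar
  rw [← Ex_tr]
  exact Ex_congr fun X hX => by rw [Tt_tr hX]; rfl

lemma tau : Ex r (fun X => |Tt L X - x * (d * w ^ 2)|) ≤ c1 x η K * (ε * w * d) := by
  have hw := h.w0; have := h.e0; have hd := h.d0; have := h.x0; have := h.η0; have := h.C0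
  have hK := h.K1
  have hdw : 0 < d * w ^ 2 := by positivity
  have hc : 0 < x / (K * (1 + x) ^ 2) * (d * w ^ 2) := by positivity
  set M := w / ε with hM
  have M0 : 0 < M := by positivity
  set F : (ι → ι → ℤ) → ℝ := fun X => cut ((Tt L X - x * (d * w ^ 2)) / M) with hF
  set F' : (ι → ι → ℤ) → ℝ := fun X => cut ((Tt L X + 1 - x * (d * w ^ 2)) / M) with hF'
  set P : (ι → ι → ℤ) → ℝ := fun X => d * w ^ 2 * Tt L X / (Tt L X + d * w ^ 2) with hP
  have h1 : Ex r (fun X => ∑ i ∈ Lᶜ, ∑ j ∈ Lᶜ, ind (X i j) * Q L X * F' X) =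
      Ex r fun X => (∑ i ∈ Lᶜ, U L X i) * (∑ j ∈ Lᶜ, N L X j) * F X := by
    simp only [sum_mul_sum]
    simp only [sum_mul, Ex_sum]
    exact sum_congr rfl fun i hi => sum_congr rfl fun j hj => pair_id (mem_compl.1 hi)
      (mem_compl.1 hj) fun X l hl k hk => by
        simp only [hF, hF', Tt_sw (mem_compl.1 hi) (mem_compl.1 hj) hl hk]
  have key : ∀ X ∈ tab r r, x / (K * (1 + x) ^ 2) * (d * w ^ 2) * |Tt L X - x * (d * w ^ 2)| ≤
      (∑ i ∈ Lᶜ, U L X i) * (∑ j ∈ Lᶜ, N L X j) * F X -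
        ∑ i ∈ Lᶜ, ∑ j ∈ Lᶜ, ind (X i j) * Q L X * F' X +
      d * w ^ 2 * |∑ i ∈ Lᶜ, U L X i - P X| + d * w ^ 2 * |∑ j ∈ Lᶜ, N L X j - P X| +
      d ^ 2 * |Q L X - C / (1 + C) * w ^ 4| +
      ∑ i ∈ Lᶜ, ∑ j ∈ Lᶜ, (1 - ind (X i j)) * -(Q L X * F' X) +
      (x / (K * (1 + x) ^ 2) * (d * w ^ 2) * M + d ^ 2 * (ε * w ^ 3)) := fun X hX => by
    have hT := h.Tt_mem hX h.rK
    have hT0 := hT.1
    have hx1 : 0 < 1 + x := by positivity
    have e1 : ∑ i ∈ Lᶜ, ∑ j ∈ Lᶜ, (1 - ind (X i j)) * -(Q L X * F' X) =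
        ∑ i ∈ Lᶜ, ∑ j ∈ Lᶜ, ind (X i j) * Q L X * F' X - d ^ 2 * (Q L X * F' X) := by
      simp only [sub_mul, mul_neg, sum_neg_distrib, sum_sub_distrib, sum_const, nsmul_eq_mul, h.dc,
        mul_assoc]
      ring
    have a1 : 0 ≤ ∑ i ∈ Lᶜ, U L X i := sum_nonneg fun i _ => (U_mem i).1
    have a2 : ∑ i ∈ Lᶜ, U L X i ≤ d * w ^ 2 := by
      simpa [h.dc, h.wsq] using sum_le_card_nsmul Lᶜ _ _ fun i _ => (U_mem (L := L) (X := X) i).2
    have a3 : 0 ≤ P X := by positivity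
    have a4 : P X ≤ d * w ^ 2 := by
      simp only [hP, mul_div_assoc]
      exact mul_le_of_le_one_right (by positivity)
        (div_le_one_of_le₀ (le_add_of_nonneg_right (by positivity)) (by positivity))
    have b1 : |(P X ^ 2 - (∑ i ∈ Lᶜ, U L X i) * ∑ j ∈ Lᶜ, N L X j) * F X| ≤
        d * w ^ 2 * |∑ i ∈ Lᶜ, U L X i - P X| + d * w ^ 2 * |∑ j ∈ Lᶜ, N L X j - P X| := by
      rw [abs_mul]
      refine (mul_le_of_le_one_right (abs_nonneg _) (abs_cut _)).trans ?_
      rw [show P X ^ 2 - (∑ i ∈ Lᶜ, U L X i) * ∑ j ∈ Lᶜ, N L X j =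
        -(P X * (∑ i ∈ Lᶜ, U L X i - P X) + (∑ i ∈ Lᶜ, U L X i) * (∑ j ∈ Lᶜ, N L X j - P X)) by ring,
        abs_neg]
      refine (abs_add_le _ _).trans ?_
      rw [abs_mul, abs_mul, abs_of_nonneg a1, abs_of_nonneg a3]
      exact add_le_add (mul_le_mul_of_nonneg_right a4 (abs_nonneg _))
        (mul_le_mul_of_nonneg_right a2 (abs_nonneg _))
    have b2 : |(Q L X - C / (1 + C) * w ^ 4) * F' X| ≤ |Q L X - C / (1 + C) * w ^ 4| := by
      rw [abs_mul]
      exact mul_le_of_le_one_right (abs_nonneg _) (abs_cut _)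
    have b3 : C / (1 + C) * w ^ 4 * (F' X - F X) ≤ ε * w ^ 3 := by
      have b4 : F' X - F X ≤ ε / w := ((le_abs_self _).trans (cut_sub _ _)).trans_eq (by
        rw [← sub_div, add_sub_right_comm, add_sub_cancel_left, abs_of_pos (by positivity), hM,
          one_div_div])
      calc _ ≤ C / (1 + C) * w ^ 4 * (ε / w) := by gcongr
        _ ≤ 1 * w ^ 4 * (ε / w) := by
          gcongr
          exact div_le_one_of_le₀ (by linarith) (by positivity)
        _ = _ := by field_simp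
    have b4 := mul_cut (Tt L X - x * (d * w ^ 2)) M0
    have b5 : x / (K * (1 + x) ^ 2) * (d * w ^ 2) * ((Tt L X - x * (d * w ^ 2)) * F X) ≤
        (P X ^ 2 - C / (1 + C) * (d * w ^ 2) ^ 2) * F X := by
      have e2 : (P X ^ 2 - C / (1 + C) * (d * w ^ 2) ^ 2) * F X =
          (P X + x / (1 + x) * (d * w ^ 2)) * (d * w ^ 2 / ((Tt L X + d * w ^ 2) * (1 + x))) *
            ((Tt L X - x * (d * w ^ 2)) * F X) := by
        simp only [← h.xC, hP]
        field_simp
        ring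
      rw [e2]
      refine mul_le_mul_of_nonneg_right ?_ b4.1
      calc _ = (0 + x / (1 + x) * (d * w ^ 2)) * (d * w ^ 2 / (d * (K * w ^ 2) * (1 + x))) := by
            field_simp
            ring
        _ ≤ _ := mul_le_mul (add_le_add a3 le_rfl)
            (div_le_div_of_nonneg_left hdw.le (mul_pos (by linarith only [hT0, hdw]) hx1)
              (mul_le_mul_of_nonneg_right hT.2 hx1.le))
            (div_nonneg hdw.le (by positivity)) (by positivity)
    have b6 := mul_le_mul_of_nonneg_left b4.2 hc.le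
    rw [e1]
    linarith only [(abs_le.1 b1).2, mul_le_mul_of_nonneg_left (abs_le.1 b2).2 (sq_nonneg d),
      mul_le_mul_of_nonneg_left b3 (sq_nonneg d), b5, b6]
  have h2 : Ex r (fun X => ∑ i ∈ Lᶜ, ∑ j ∈ Lᶜ, (1 - ind (X i j)) * -(Q L X * F' X)) ≤
      Ex r (fun X => ∑ i ∈ Lᶜ, ∑ j ∈ Lᶜ,
        w ^ 4 * ((1 - ind (X i j)) * rs Lᶜ X i / (η * w ^ 2))) + (0 + d ^ 2) := by
    have hQ : ∀ X : ι → ι → ℤ, -(Q L X * F' X) ≤ w ^ 4 := fun X => by
      have h3 := Q_mem (L := L) (X := X)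
      rw [h.wsq] at h3
      have h4 : -1 ≤ F' X := (abs_le.1 (abs_cut ((Tt L X + 1 - x * (d * w ^ 2)) / M))).1
      linarith only [mul_le_mul_of_nonneg_left h4 h3.1, h3.2]
    have hz : ∀ X ∈ tab r r, ∀ i j, 0 ≤ (1 - ind (X i j)) * rs Lᶜ X i / (η * w ^ 2) :=
      fun X hX i j => div_nonneg (mul_nonneg (sub_nonneg.2 (ind_le_one _)) (rs_nonneg hX i))
        (by positivity)
    refine h.ex_le le_rfl (by positivity) (fun X hX hg => ?_) fun X hX _ => ?_
    · rw [add_zero]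
      refine sum_le_sum fun i hi => sum_le_sum fun j _ => ?_
      rcases le_total (Tt L X) (x * (d * w ^ 2)) with ht | ht
      · rw [mul_comm]
        exact mul_le_mul (hQ X) (h.zero_le hX hg (mem_compl.1 hi)
          (by linarith [show 0 ≤ η * (d * w ^ 2) by positivity]) j)
          (sub_nonneg.2 (ind_le_one _)) (by positivity)
      · refine le_trans (mul_nonpos_of_nonneg_of_nonpos (sub_nonneg.2 (ind_le_one _))
          (neg_nonpos.2 (mul_nonneg Q_mem.1 (cut_nonneg (div_nonneg (by linarith) M0.le)))))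
          (mul_nonneg (by positivity) (hz X hX i j))
    · refine le_add_of_nonneg_of_le (sum_nonneg fun i _ => sum_nonneg fun j _ =>
        mul_nonneg (by positivity) (hz X hX i j)) ?_
      refine (sum_le_sum fun i _ => sum_le_sum (g := fun _ => w ^ 4) fun j _ => ?_).trans_eq
        (by simp [h.dc, sq, mul_assoc])
      linarith only [mul_le_mul_of_nonneg_left (hQ X) (sub_nonneg.2 (ind_le_one (X i j))),
        mul_nonneg (ind_nonneg (X i j)) (pow_pos hw 4).le]
  have h3 : Ex r (fun X => ∑ i ∈ Lᶜ, ∑ j ∈ Lᶜ,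
      w ^ 4 * ((1 - ind (X i j)) * rs Lᶜ X i / (η * w ^ 2))) ≤ d ^ 2 * (ε * w ^ 3) * (1 / η) := by
    simp only [Ex_sum, Ex_mul]
    refine (sum_le_sum fun i _ => sum_le_sum (g := fun _ => w ^ 4 * (ε / (η * w))) fun j hj =>
      mul_le_mul_of_nonneg_left (h.Ex_zero_le (mem_compl.1 hj) i) (by positivity)).trans_eq ?_
    simp only [sum_const, nsmul_eq_mul, h.dc]
    field_simp
  have h4 := Ex_mono key
  simp only [Ex_add, Ex_sub, Ex_mul, h1, sub_self, hP] at h4
  have h5 := Ex_const_le (r := r) (c := x / (K * (1 + x) ^ 2) * (d * w ^ 2) * M)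
    (mul_pos hc M0).le
  have h6 := Ex_const_le (r := r) (c := d ^ 2 * (ε * w ^ 3)) (by positivity)
  rw [Ex_mul] at h5
  rw [Ex_mul, Ex_mul] at h6
  have h7 := mul_le_mul_of_nonneg_left h.Ubar hdw.le
  have h8 := mul_le_mul_of_nonneg_left h.Nbar hdw.le
  have h9 := mul_le_mul_of_nonneg_left (Ex_abs_le (by positivity) h.alpha) (sq_nonneg d)
  have h10 : d ^ 2 * 1 ≤ d ^ 2 * (ε * w ^ 3) := by
    refine mul_le_mul_of_nonneg_left ?_ (sq_nonneg d)
    linarith only [one_le_mul_of_one_le_of_one_le h.ew (one_le_pow₀ (n := 2) h.w1)]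
  have h11 : x / (K * (1 + x) ^ 2) * (d * w ^ 2) * M ≤
      x / (K * (1 + x) ^ 2) * (d * w ^ 2) * (ε * w * d) := by
    refine mul_le_mul_of_nonneg_left ?_ hc.le
    rw [hM, div_le_iff₀ h.e0]
    linarith only [mul_le_mul_of_nonneg_left h.ed hw.le]
  rw [← mul_le_mul_iff_right₀ hc,
    show x / (K * (1 + x) ^ 2) * (d * w ^ 2) * (c1 x η K * (ε * w * d)) =
      x / (K * (1 + x) ^ 2) * (d * w ^ 2) * (ε * w * d) + (153 + 1 / η) * (d ^ 2 * (ε * w ^ 3)) by
      rw [c1]; field_simp]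
  linarith only [h2, h3, h4, h5, h6, h7, h8, h9, h10, h11]

lemma zero_prob (hi : i ∉ L) (hj : j ∉ L) :
    Ex r (fun X => 1 - ind (X i j)) ≤ ((1 + c1 x η K) / η + 1) * (ε / w) := by
  have hw := h.w0; have := h.e0; have hd := h.d0; have := h.η0
  have h1 : w ^ 4 * Ex r (fun X => 1 - ind (X i j)) ≤ Ex r (fun X => w ^ 4 *
      ((1 - ind (X i j)) * rs Lᶜ X i / (η * w ^ 2) +
        |Tt L X - x * (d * w ^ 2)| / (η * (d * w ^ 2)))) + (0 + 1) := by
    rw [← Ex_mul]
    have hz : ∀ X ∈ tab r r, 0 ≤ (1 - ind (X i j)) * rs Lᶜ X i / (η * w ^ 2) :=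
      fun X hX => div_nonneg (mul_nonneg (sub_nonneg.2 (ind_le_one _)) (rs_nonneg hX i))
        (by positivity)
    refine h.ex_le le_rfl zero_le_one (fun X hX hg => ?_) fun X hX _ => ?_
    · rw [add_zero]
      gcongr
      rcases le_total (Tt L X) ((x + η) * (d * w ^ 2)) with ht | ht
      · exact le_add_of_le_of_nonneg (h.zero_le hX hg hi ht j) (by positivity)
      · refine le_add_of_nonneg_of_le (hz X hX) ((sub_le_self _ (ind_nonneg _)).trans
          ((one_le_div (by positivity)).2 (le_trans (by linarith) (le_abs_self _))))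
    · refine le_add_of_nonneg_of_le (mul_nonneg (by positivity)
        (add_nonneg (hz X hX) (by positivity))) ?_
      nlinarith [ind_nonneg (X i j), pow_pos hw 4]
  rw [Ex_mul, Ex_add, Ex_div (η * (d * w ^ 2))] at h1
  have h2 : Ex r (fun X => |Tt L X - x * (d * w ^ 2)|) / (η * (d * w ^ 2)) ≤
      c1 x η K / η * (ε / w) := by
    rw [div_le_iff₀ (by positivity)]
    exact h.tau.trans_eq (by field_simp)
  have h3 : 1 ≤ w ^ 4 * (ε / w) := by
    rw [show w ^ 4 * (ε / w) = ε * w * w ^ 2 by field_simp]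
    exact one_le_mul_of_one_le_of_one_le h.ew (one_le_pow₀ h.w1)
  have h4 := mul_le_mul_of_nonneg_left (add_le_add (h.Ex_zero_le hj i) h2) (pow_pos hw 4).le
  rw [← mul_le_mul_iff_right₀ (pow_pos hw 4)]
  rw [show ε / (η * w) = 1 / η * (ε / w) by field_simp] at h4
  rw [add_div]
  linarith

lemma stein (hi : i ∉ L) {g : ℝ → ℝ} (hg : ∀ y, |g y| ≤ 1) :
    |Ex r fun X => x / (1 + x) * ((rs L X i + 1 + w ^ 2) * g (rs L X i + 1)) -
      rs L X i * g (rs L X i)| ≤ c2 x η K * (ε * w) := by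
  have hw := h.w0; have := h.e0; have hd := h.d0; have := h.x0; have := h.η0; have := h.C0
  have hK := h.K1
  set f : ℝ → ℝ := fun y => (y + w ^ 2) * g y / ((K + 1) * w ^ 2) with hf
  have fle : ∀ y, 0 ≤ y → y + w ^ 2 ≤ (K + 1) * w ^ 2 → |f y| ≤ 1 := fun y h0 h1 => by
    simp only [hf]
    rw [abs_div, abs_mul, abs_of_nonneg (by positivity), abs_of_pos (a := _ * _) (by positivity)]
    exact div_le_one_of_le₀ ((mul_le_of_le_one_right (by positivity) (hg y)).trans h1)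
      (by positivity)
  have f1 : ∀ X ∈ tab r r, |f (rs L X i)| ≤ 1 := fun X hX => fle _ (rs_nonneg hX i)
    (by linarith [CLT.rs_le (L := L) hX i, h.rK i, sq_nonneg w])
  have f2 : ∀ X ∈ tab r r, |f (rs L X i + 1)| ≤ 1 := fun X hX =>
    fle _ (add_nonneg (rs_nonneg hX i) zero_le_one)
      (by linarith [CLT.rs_le (L := L) hX i, h.rK i, one_le_pow₀ (n := 2) h.w1])
  have h1 : Ex r (fun X => ∑ j ∈ Lᶜ, ind (X i j) * Q L X * f (rs L X i + 1)) =
      Ex r fun X => U L X i * (∑ j ∈ Lᶜ, N L X j) * f (rs L X i) := by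
    simp only [mul_sum]
    simp only [sum_mul, Ex_sum]
    exact sum_congr rfl fun j hj => pair_id hi (mem_compl.1 hj) fun X l hl k hk => by
      simp [rs_sw, hk, mem_compl.1 hj, e, ne_of_mem_of_not_mem hl hi |>.symm]
  set Z : (ι → ι → ℤ) → ℝ := fun X => d * ((C / (1 + C) * w ^ 4 - Q L X) * f (rs L X i + 1)) +
    ∑ j ∈ Lᶜ, (1 - ind (X i j)) * (Q L X * f (rs L X i + 1)) +
    U L X i * (∑ j ∈ Lᶜ, N L X j - x / (1 + x) * (d * w ^ 2)) * f (rs L X i) with hZ
  have h2 : x / (1 + x) * d * w ^ 2 / (K + 1) * (Ex r fun X => x / (1 + x) *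
      ((rs L X i + 1 + w ^ 2) * g (rs L X i + 1)) - rs L X i * g (rs L X i)) = Ex r Z +
      x / (1 + x) * (d * w ^ 2) * Ex r fun X => f (rs L X i) * u L X i := by
    rw [← Ex_mul, ← Ex_mul, ← Ex_add, ← sub_eq_zero, ← Ex_sub, ← sub_eq_zero.2 h1, ← Ex_sub]
    refine Ex_congr fun X hX => ?_
    have := rs_nonneg (L := L) hX i
    simp only [hZ, hf, ← sum_mul, sum_sub_distrib, sum_const, nsmul_eq_mul, h.dc, ← h.xC, u, h.wsq]
    field_simp
    ring
  have h3 : |Ex r Z| ≤ Ex r fun X => d * |Q L X - C / (1 + C) * w ^ 4| +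
      ∑ j ∈ Lᶜ, w ^ 4 * (1 - ind (X i j)) +
      w ^ 2 * (|∑ j ∈ Lᶜ, N L X j - d * w ^ 2 * Tt L X / (Tt L X + d * w ^ 2)| +
        |Tt L X - x * (d * w ^ 2)|) := abs_Ex_le.trans (Ex_mono fun X hX => by
    refine (abs_add_three _ _ _).trans (add_le_add_three ?_ ?_ ?_)
    · rw [abs_mul, abs_mul, abs_of_pos hd, abs_sub_comm]
      gcongr
      exact mul_le_of_le_one_right (abs_nonneg _) (f2 X hX)
    · refine (abs_sum_le_sum_abs _ _).trans (sum_le_sum fun j _ => ?_)
      have h3 := Q_mem (L := L) (X := X)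
      rw [h.wsq] at h3
      rw [abs_mul, abs_mul, abs_of_nonneg (sub_nonneg.2 (ind_le_one _)), abs_of_nonneg h3.1,
        mul_comm]
      exact mul_le_mul_of_nonneg_right ((mul_le_of_le_one_right h3.1 (f2 X hX)).trans
        (h3.2.trans_eq (by ring))) (sub_nonneg.2 (ind_le_one _))
    · have h3 := U_mem (L := L) (X := X) i
      rw [abs_mul, abs_mul, abs_of_nonneg h3.1]
      refine (mul_le_of_le_one_right (mul_nonneg h3.1 (abs_nonneg _)) (f1 X hX)).trans
        (mul_le_mul (h3.2.trans_eq h.wsq) ((abs_sub_le _ _ _).trans (add_le_add le_rfl ?_))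
          (abs_nonneg _) (by positivity))
      rw [show x / (1 + x) * (d * w ^ 2) =
        d * w ^ 2 * (x * (d * w ^ 2)) / (x * (d * w ^ 2) + d * w ^ 2) by field_simp; ring]
      exact phi_sub (by positivity) (h.Tt_mem hX h.rK).1 (by positivity))
  simp only [Ex_add, Ex_mul, Ex_sum] at h3
  have h4 := sum_le_card_nsmul Lᶜ _ _ fun j hj =>
    mul_le_mul_of_nonneg_left (h.zero_prob hi (mem_compl.1 hj)) (pow_pos hw 4).le
  rw [nsmul_eq_mul, h.dc, show d * (w ^ 4 * (((1 + c1 x η K) / η + 1) * (ε / w))) =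
    ((1 + c1 x η K) / η + 1) * (d * (ε * w ^ 3)) by field_simp] at h4
  have h5 := mul_le_mul_of_nonneg_left (Ex_abs_le (by positivity) h.alpha) hd.le
  have h6 := mul_le_mul_of_nonneg_left (add_le_add h.Nbar h.tau) (sq_nonneg w)
  have h7 := mul_le_mul_of_nonneg_left (h.fu i f1)
    (show 0 ≤ (1 + x) / x * (d * w ^ 2) by positivity)
  rw [← h.xC, ← mul_assoc, show (1 + x) / x * (d * w ^ 2) * (x / (1 + x)) ^ 2 =
    x / (1 + x) * (d * w ^ 2) by field_simp] at h7
  have h8 := abs_add_le (Ex r Z)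
    (x / (1 + x) * (d * w ^ 2) * Ex r fun X => f (rs L X i) * u L X i)
  rw [← h2, abs_mul, abs_mul (_ * _), abs_of_pos (by positivity),
    abs_of_pos (a := _ * (_ * _)) (by positivity)] at h8
  rw [← mul_le_mul_iff_right₀ (show 0 < x / (1 + x) * d * w ^ 2 / (K + 1) by positivity),
    show x / (1 + x) * d * w ^ 2 / (K + 1) * (c2 x η K * (ε * w)) =
      (107 + (1 + c1 x η K) / η + c1 x η K) * (d * (ε * w ^ 3)) +
        4000 * ((1 + x) / x * (d * (ε * w ^ 3))) by rw [c2]; field_simp]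
  linarith

end Hyp2

end Pool.Agent.Work.MP_1d48d5_pr.CLT
end

-- merged part: Pool.Agent.Work.MP_1d48d5_pr.CGood
section
/-! The bad event is rare. -/

open Finset

namespace Pool.Agent.Work.MP_1d48d5_pr.CLT

variable {ι : Type} [Fintype ι] [DecidableEq ι]
variable {L : Finset ι} {r : ι → ℤ} {X : ι → ι → ℤ} {i j l k k' : ι} {lam w K : ℝ}

lemma tail_step (hw : (L.card : ℝ) = w ^ 2) (hw2 : 2 ≤ w) (hl : ∀ k ∈ L, ∀ k' ∈ L, r k = r k')
    (hK : ∀ a, (r a : ℝ) ≤ K * w ^ 2) {m b : ℤ} (hm0 : 0 < m) (hm : 4 * K ≤ m) (hb : m ≤ b)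
    (hk : k ∈ L) (a : ι) : Ex r (fun X => if b + m ≤ X a k then 1 else 0) ≤
      Ex r (fun X => if b ≤ X a k then 1 else 0) / 2 := by
  have hc : ∀ X ∈ tab r r, ∑ k' ∈ L.erase k, (if m ≤ X a k' then (1 : ℝ) else 0) ≤ w ^ 2 / 4 := by
    intro X hX
    have hm' : (0 : ℝ) < m := by exact_mod_cast hm0
    rw [← mul_le_mul_iff_right₀ hm', mul_sum]
    calc _ ≤ rs (L.erase k) X a := sum_le_sum fun k' _ => by
          split_ifs with h
          · exact_mod_cast (mul_one m).trans_le h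
          · exact_mod_cast (mul_zero m).trans_le ((mem_tab.1 hX).1 a k')
      _ ≤ K * w ^ 2 := (rs_le hX a).trans (hK a)
      _ ≤ _ := by nlinarith [sq_nonneg w]
  have h1 : Ex r (fun X => ∑ k' ∈ L.erase k,
      if b + m ≤ X a k ∧ 0 ≤ X a k' ∧ X a k' ≤ b then (1 : ℝ) else 0) ≤
      Ex r fun X => ∑ k' ∈ L.erase k,
        if b + m ≤ X a k + m ∧ 0 ≤ X a k' - m ∧ X a k' - m ≤ b then (1 : ℝ) else 0 := by
    rw [Ex_sum, Ex_sum]
    exact sum_le_sum fun k' hk' => Ex_le_of_sum (pair_le (ne_of_mem_erase hk').symm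
      (hl k hk k' (mem_of_mem_erase hk')) (P := fun x y => b + m ≤ x ∧ 0 ≤ y ∧ y ≤ b)
      (fun x y h => by omega) a)
  have hw0 : 0 < w ^ 2 := by positivity
  rw [← mul_le_mul_iff_right₀ (show 0 < w ^ 2 / 2 by positivity), ← Ex_mul, ← Ex_div, ← Ex_mul]
  refine (Ex_mono fun X hX => ?_).trans (h1.trans (Ex_mono fun X hX => ?_))
  · split_ifs with h
    · have h2 : ∑ k' ∈ L.erase k, (1 - if m ≤ X a k' then (1 : ℝ) else 0) ≤ ∑ k' ∈ L.erase k,
          if b + m ≤ X a k ∧ 0 ≤ X a k' ∧ X a k' ≤ b then (1 : ℝ) else 0 :=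
        sum_le_sum fun k' _ => by
          have := (mem_tab.1 hX).1 a k'
          split_ifs <;> first | omega | norm_num
      rw [sum_sub_distrib, sum_const, nsmul_eq_mul, cast_card_erase_of_mem hk, hw] at h2
      nlinarith [hc X hX]
    · rw [mul_zero]
      positivity
  · split_ifs with h
    · refine le_trans (sum_le_sum fun k' _ => ?_) ((hc X hX).trans_eq (by ring))
      split_ifs <;> first | omega | norm_num
    · simp [h]

lemma tail (hw : (L.card : ℝ) = w ^ 2) (hw2 : 2 ≤ w) (hl : ∀ k ∈ L, ∀ k' ∈ L, r k = r k')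
    (hK : ∀ a, (r a : ℝ) ≤ K * w ^ 2) {m : ℤ} (hm0 : 0 < m) (hm : 4 * K ≤ m) (hk : k ∈ L) (a : ι)
    (J : ℕ) : Ex r (fun X => if (J + 1) * m ≤ X a k then 1 else 0) ≤ 1 / 2 ^ J := by
  induction J with
  | zero =>
    refine (Ex_mono fun X _ => ?_).trans (Ex_const_le (by norm_num))
    split_ifs <;> norm_num
  | succ J ih =>
    have := tail_step hw hw2 hl hK hm0 hm (b := (J + 1) * m) (by nlinarith) hk a
    rw [pow_succ, ← div_div]
    simp only [Nat.cast_succ, add_mul (_ + 1 : ℤ) 1 m, one_mul]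
    linarith

lemma conc_tail (hw : 0 < w) (hι : (Fintype.card ι : ℝ) ≤ 2 * w ^ 2) (hc : r k = r k')
    {h : ι → ℤ → ℤ → ℝ} (anti : ∀ a x y, h a x y = -h a y x) (bd : ∀ a x y, |h a x y| ≤ 1) {μ : ℝ}
    (hμ : 0 < μ) {R : ℝ} (hR0 : 0 ≤ R) (hR : 2 * r k + 1 ≤ R) :
    Ex r (fun X => if 2 * μ * w ≤ ∑ a, h a (X a k) (X a k') then 1 else 0) ≤
      R * Real.exp (-μ ^ 2) := by
  rcases eq_or_ne k k' with rfl | hk
  · refine le_trans (Ex_mono fun X _ => ?_) (Ex_const_le (by positivity))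
    have : ∀ a x, h a x x = 0 := fun a x => by linarith [anti a x x]
    simp only [this, sum_const_zero]
    rw [if_neg (not_le.2 (by positivity))]
    positivity
  have h1 := Ex_le_of_sum (conc (r := r) hk hc anti bd (μ / w))
  calc _ ≤ Ex r fun X => Real.exp (-(2 * μ ^ 2)) *
        Real.exp (μ / w * ∑ a, h a (X a k) (X a k')) := Ex_mono fun X _ => by
        split_ifs with h2
        · rw [← Real.exp_add]
          refine Real.one_le_exp ?_
          have := mul_le_mul_of_nonneg_left h2 (show 0 ≤ μ / w by positivity)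
          rw [show μ / w * (2 * μ * w) = 2 * μ ^ 2 by field_simp] at this
          linarith
        · positivity
    _ ≤ Real.exp (-(2 * μ ^ 2)) * (R * Real.exp (2 * w ^ 2 * ((μ / w) ^ 2 / 2))) := by
        rw [Ex_mul]
        gcongr
        refine h1.trans ((Ex_mono fun X _ => ?_).trans (Ex_const_le (by positivity)))
        gcongr
    _ = _ := by
        rw [mul_left_comm, ← Real.exp_add]
        congr 2
        field_simp
        ring

lemma bad_le (hw : (L.card : ℝ) = w ^ 2) (hw2 : 2 ≤ w) (hd : (Lᶜ.card : ℝ) ≤ w ^ 2)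
    (hl : ∀ k ∈ L, ∀ k' ∈ L, r k = r k') (hh : ∀ k ∉ L, ∀ k' ∉ L, r k = r k') (hK1 : 1 ≤ K)
    (hK : ∀ a, (r a : ℝ) ≤ K * w ^ 2) {m : ℤ} (hm : 4 * K ≤ m) {J : ℕ}
    (hlam : 2 * ((J + 1) * m : ℝ) ^ 2 ≤ lam)
    (hQ : ∀ l ∈ L, (J + 1) * m * w ^ 2 + lam * (Lᶜ.card * K) ≤ lam * r l) :
    Ex r (bd L lam w) ≤ 8 * K * w ^ 6 / 2 ^ J := by
  have hm1 : (1 : ℝ) ≤ m := by linarith
  have hm0 : 0 < m := by exact_mod_cast zero_lt_one.trans_le hm1
  set μ : ℝ := (J + 1) * m with hμ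
  have hJ : (J : ℝ) + 1 ≤ μ := le_mul_of_one_le_right (by positivity) hm1
  have μ1 : 1 ≤ μ := by linarith [Nat.cast_nonneg (α := ℝ) J]
  have w0 : 0 < w := by linarith
  have μ0 : 0 < μ := by linarith only [μ1]
  have μ2 : μ ≤ μ ^ 2 := by linarith only [mul_le_mul_of_nonneg_left μ1 μ0.le]
  have w4 : 4 ≤ w ^ 2 := by linarith only [mul_le_mul hw2 hw2 zero_le_two w0.le]
  have Kw : 4 ≤ K * w ^ 2 := by
    linarith only [w4, mul_le_mul_of_nonneg_right hK1 (sq_nonneg w)]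
  have hι : (Fintype.card ι : ℝ) ≤ 2 * w ^ 2 := by
    rw [← card_add_card_compl L, Nat.cast_add]
    linarith
  let h1 : ι → ℤ → ℤ → ℝ := fun a x y => if a ∈ L then ind x - ind y else 0
  let h2 : ι → ℤ → ℤ → ℝ := fun a x y =>
    if a ∈ L then max 0 (min 1 (x / μ)) - max 0 (min 1 (y / μ)) else 0
  have key : Ex r (bd L lam w) ≤ Ex r fun X =>
      ∑ a, ∑ k ∈ L, (if (J + 1) * m ≤ X a k then 1 else 0) +
      ∑ k ∈ L, ∑ k' ∈ L, (if 2 * μ * w ≤ ∑ a, h1 a (X a k) (X a k') then 1 else 0) +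
      ∑ k ∈ Lᶜ, ∑ k' ∈ Lᶜ, (if 2 * μ * w ≤ ∑ a, h2 a (tr X a k) (tr X a k') then 1 else 0) := by
    refine Ex_mono fun X hX => ?_
    rw [← sub_nonneg, bd]
    split_ifs with hg
    · rw [sub_zero]
      positivity
    by_contra hn
    have z : ∀ {α : Type} {S T : Finset α} {p : α → α → Prop} [∀ a b, Decidable (p a b)],
        ∑ a ∈ S, ∑ b ∈ T, (if p a b then (1 : ℝ) else 0) < 1 → ∀ a ∈ S, ∀ b ∈ T, ¬ p a b := by
      intro α S T p _ h a ha b hb hp
      refine h.not_ge (le_trans ?_ (single_le_sum (fun _ _ => by positivity) ha))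
      exact (if_pos hp).ge.trans (single_le_sum (f := fun b => if p a b then (1 : ℝ) else 0)
        (fun _ _ => by positivity) hb)
    have p1 : (0 : ℝ) ≤ ∑ a, ∑ k ∈ L, (if (J + 1) * m ≤ X a k then 1 else 0) := by positivity
    have p2 : (0 : ℝ) ≤ ∑ k ∈ L, ∑ k' ∈ L,
      (if 2 * μ * w ≤ ∑ a, h1 a (X a k) (X a k') then 1 else 0) := by positivity
    have p3 : (0 : ℝ) ≤ ∑ k ∈ Lᶜ, ∑ k' ∈ Lᶜ,
      (if 2 * μ * w ≤ ∑ a, h2 a (tr X a k) (tr X a k') then 1 else 0) := by positivity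
    have z1 : ∀ a, ∀ k ∈ L, (X a k : ℝ) ≤ μ := fun a k hk => by
      have := (not_le.1 (z (p := fun a k => (J + 1) * m ≤ X a k)
        (by linarith only [hn, p2, p3]) a (mem_univ a) k hk)).le
      rw [hμ]
      exact_mod_cast this
    have z2 : ∀ k ∈ L, ∀ k' ∈ L, N L X k - N L X k' ≤ lam * w := fun k hk k' hk' => by
      have := (not_le.1 (z (p := fun k k' => 2 * μ * w ≤ ∑ a, h1 a (X a k) (X a k'))
        (by linarith only [hn, p1, p3]) k hk k' hk')).le
      simp only [h1, sum_ite_mem, univ_inter, sum_sub_distrib] at this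
      exact this.trans (mul_le_mul_of_nonneg_right (by linarith only [μ2, hlam]) w0.le)
    have z3 : ∀ k ∉ L, ∀ k' ∉ L, rs L X k - rs L X k' ≤ lam * w := fun k hk k' hk' => by
      have h3 := (not_le.1 (z (p := fun k k' => 2 * μ * w ≤ ∑ a, h2 a (tr X a k) (tr X a k'))
        (by linarith only [hn, p1, p2]) k (mem_compl.2 hk) k' (mem_compl.2 hk'))).le
      have e : ∀ k, ∑ a ∈ L, max 0 (min 1 ((tr X a k : ℝ) / μ)) = rs L X k / μ := fun k => by
        rw [rs, sum_div]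
        refine sum_congr rfl fun a ha => ?_
        have : (0 : ℝ) ≤ X k a := Int.cast_nonneg ((mem_tab.1 hX).1 k a)
        rw [tr, min_eq_right (div_le_one_of_le₀ (z1 k a ha) μ0.le),
          max_eq_right (div_nonneg this μ0.le)]
      simp only [h2, sum_ite_mem, univ_inter, sum_sub_distrib, e] at h3
      rw [← sub_div, div_le_iff₀ μ0] at h3
      linarith only [h3, mul_le_mul_of_nonneg_right hlam w0.le]
    refine hg ⟨fun a k hk => (z1 a k hk).trans (by linarith only [μ0, μ2, hlam]),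
      fun k hk => ?_, ?_,
      fun i hi i' hi' => abs_sub_le_iff.2 ⟨z3 i hi i' hi', z3 i' hi' i hi⟩⟩
    · have e : ze L X k = (∑ k' ∈ L, (N L X k - N L X k')) / w ^ 2 := by
        rw [sum_sub_distrib, sum_const, nsmul_eq_mul, ze, hw, Q]
        field_simp
      rw [e, abs_div, abs_sq, div_le_iff₀' (by positivity), ← hw]
      simpa using (abs_sum_le_sum_abs _ _).trans (sum_le_card_nsmul L _ _ fun k' hk' =>
        abs_sub_le_iff.2 ⟨z2 k hk k' hk', z2 k' hk' k hk⟩)
    · have q1 : ∑ l ∈ L, rs L X l ≤ μ * Q L X := by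
        rw [Q_eq, mul_sum]
        refine sum_le_sum fun l _ => ?_
        rw [U, mul_sum]
        refine sum_le_sum fun k hk => ?_
        rw [← ind_mul_self ((mem_tab.1 hX).1 l k), mul_comm]
        exact mul_le_mul_of_nonneg_right (z1 l k hk) (ind_nonneg _)
      have q2 : ∑ l ∈ L, rs L X l + Tt L (tr X) = ∑ l ∈ L, (r l : ℝ) := by
        rw [show Tt L (tr X) = ∑ i ∈ L, rs Lᶜ X i from sum_comm, ← sum_add_distrib]
        exact sum_congr rfl fun l _ => rs_add hX l
      have q3 : Tt L X ≤ Lᶜ.card * (K * w ^ 2) := by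
        simpa [Tt] using sum_le_card_nsmul Lᶜ _ _ fun i _ => (rs_le (L := L) hX i).trans (hK i)
      have q4 := card_nsmul_le_sum L _ _ hQ
      rw [nsmul_eq_mul, hw, ← mul_sum, ← q2, Tt_tr hX] at q4
      have l0 : 0 ≤ lam := le_trans (by positivity) hlam
      rw [← mul_le_mul_iff_right₀ μ0]
      linarith only [q4, mul_le_mul_of_nonneg_left q1 l0, mul_le_mul_of_nonneg_left q3 l0]
  have hR : ∀ k, (2 * r k + 1 : ℝ) ≤ 3 * K * w ^ 2 := fun k => by linarith only [hK k, Kw]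
  have ex : Real.exp (-μ ^ 2) ≤ 1 / 2 ^ J := by
    rw [Real.exp_neg, one_div]
    gcongr
    calc (2 : ℝ) ^ J ≤ Real.exp 1 ^ J := by gcongr; linarith [Real.add_one_le_exp 1]
      _ = Real.exp J := by rw [← Real.exp_nat_mul, mul_one]
      _ ≤ _ := Real.exp_le_exp.2 (by linarith only [hJ, μ2])
  have b1 := sum_le_card_nsmul univ _ _ fun a _ => sum_le_card_nsmul L _ _ fun k hk =>
    tail hw hw2 hl hK hm0 hm hk a J
  have b2 := sum_le_card_nsmul L _ _ fun k hk => sum_le_card_nsmul L _ _ fun k' hk' =>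
    conc_tail (h := h1) w0 hι (hl k hk k' hk') (fun a x y => by simp only [h1]; split_ifs <;> simp)
      (fun a x y => by
        simp only [h1]
        split_ifs
        · rw [abs_le]
          constructor <;> linarith only [ind_nonneg x, ind_nonneg y, ind_le_one x, ind_le_one y]
        · simp) (μ := μ) (by linarith only [μ1]) (by linarith only [Kw]) (hR k)
  have b3 := sum_le_card_nsmul Lᶜ _ _ fun k hk => sum_le_card_nsmul Lᶜ _ _ fun k' hk' =>
    (Ex_tr _).trans_le <| conc_tail (h := h2) w0 hι (hh k (mem_compl.1 hk) k' (mem_compl.1 hk'))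
      (fun a x y => by simp only [h2]; split_ifs <;> simp)
      (fun a x y => by
        have q : ∀ t : ℝ, max 0 (min 1 t) ≤ 1 := fun t => max_le zero_le_one (min_le_left _ _)
        simp only [h2]
        split_ifs
        · rw [abs_le]
          constructor <;> linarith only [q (x / μ), q (y / μ), le_max_left 0 (min 1 ((x : ℝ) / μ)),
            le_max_left 0 (min 1 ((y : ℝ) / μ))]
        · simp) (μ := μ) (by linarith only [μ1]) (by linarith only [Kw]) (hR k)
  simp only [nsmul_eq_mul, hw, card_univ] at b1 b2 b3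
  simp only [Ex_add, Ex_sum] at key
  have c1 : (Fintype.card ι : ℝ) * (w ^ 2 * (1 / 2 ^ J)) ≤
      2 * w ^ 2 * (K * w ^ 2 * (w ^ 2 * (1 / 2 ^ J))) := by
    exact mul_le_mul hι (le_mul_of_one_le_left (by positivity) (by linarith only [Kw]))
      (by positivity) (by positivity)
  have K3 : 0 ≤ 3 * K * w ^ 2 := by linarith only [Kw]
  have c0 := mul_le_mul_of_nonneg_left ex K3
  have c0' := mul_nonneg K3 (Real.exp_pos (-μ ^ 2)).le
  have c2 : w ^ 2 * (w ^ 2 * (3 * K * w ^ 2 * Real.exp (-μ ^ 2))) ≤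
    w ^ 2 * (w ^ 2 * (3 * K * w ^ 2 * (1 / 2 ^ J))) :=
    mul_le_mul_of_nonneg_left (mul_le_mul_of_nonneg_left c0 (sq_nonneg w)) (sq_nonneg w)
  have c3 : (Lᶜ.card : ℝ) * (Lᶜ.card * (3 * K * w ^ 2 * Real.exp (-μ ^ 2))) ≤
    w ^ 2 * (w ^ 2 * (3 * K * w ^ 2 * (1 / 2 ^ J))) :=
    mul_le_mul hd (mul_le_mul hd c0 c0' (sq_nonneg w)) (mul_nonneg (Nat.cast_nonneg _) c0')
      (sq_nonneg w)
  rw [div_eq_mul_one_div]
  linarith only [key, b1, b2, b3, c1, c2, c3]

end Pool.Agent.Work.MP_1d48d5_pr.CLT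
end
end

-- merged part: Pool.Agent.Work.MP_1d48d5_pr.CMain
section
-- merged part: Pool.Agent.Work.MP_1d48d5_pr.COde
section
/-! From the approximate recursion to the characteristic function. -/

open Finset Complex

namespace Pool.Agent.Work.MP_1d48d5_pr.CLT

lemma ode {α : Type} {T : Finset α} (hT : T.Nonempty) (s : α → ℝ) {x w γ θ : ℝ} (hx : 0 < x)
    (hw : 0 < w) (hθ : |θ| ≤ w) (h : ∀ g : ℝ → ℝ, (∀ y, |g y| ≤ 1) →
      |(∑ X ∈ T, (x / (1 + x) * ((s X + 1 + w ^ 2) * g (s X + 1)) - s X * g (s X))) /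
        (T.card : ℝ)| ≤ γ * w) :
    ‖(∑ X ∈ T, cexp (θ * ((s X - x * w ^ 2) / w : ℝ) * I)) / T.card -
      cexp (-((x + x ^ 2) * θ ^ 2 / 2 : ℝ))‖ ≤
      (1 + x) * (2 * γ + (1 + (x + x ^ 2) * θ ^ 2) / w) * Real.exp ((x + x ^ 2) * θ ^ 2 / 2) * |θ| := by
  set W : α → ℝ := fun X => (s X - x * w ^ 2) / w with hW
  set ψ : ℝ → ℂ := fun t => (∑ X ∈ T, cexp (t * W X * I)) / T.card with hψ
  set M : ℝ → ℂ := fun t => (∑ X ∈ T, W X * cexp (t * W X * I)) / T.card with hM
  have hc : (0 : ℝ) < T.card := by exact_mod_cast hT.card_pos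
  have hc' : (T.card : ℂ) ≠ 0 := by exact_mod_cast hT.card_pos.ne'
  have d1 : ∀ t, HasDerivAt ψ (I * M t) t := fun t => by
    have := (HasDerivAt.fun_sum (u := T) fun X _ =>
      (((hasDerivAt_id t).ofReal_comp.mul_const (W X : ℂ)).mul_const I).cexp).div_const (T.card : ℂ)
    refine this.congr_deriv ?_
    simp only [hM, ← mul_div_assoc, mul_sum]
    congr 1
    exact sum_congr rfl fun X _ => by simp; ring
  have n1 : ∀ t, ‖ψ t‖ ≤ 1 := fun t => by
    simp only [hψ, norm_div, Complex.norm_natCast]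
    refine div_le_one_of_le₀ ((norm_sum_le _ _).trans (le_of_eq ?_)) hc.le
    simp only [← ofReal_mul, norm_exp_ofReal_mul_I, sum_const, nsmul_eq_mul, mul_one]
  have key : ∀ t : ℝ, |t| ≤ |θ| → ‖I * M t + ((x + x ^ 2) * t : ℝ) * ψ t‖ ≤
      (1 + x) * (2 * γ + (1 + (x + x ^ 2) * θ ^ 2) / w) := fun t ht => by
    set E := cexp (I * (t / w : ℝ)) with hE
    set Z : ℂ := (∑ X ∈ T, ((x / (1 + x) * (s X + 1 + w ^ 2) : ℝ) *
      cexp ((t * ((s X + 1 - x * w ^ 2) / w) : ℝ) * I) -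
        s X * cexp ((t * ((s X - x * w ^ 2) / w) : ℝ) * I))) / T.card with hZ
    have z1 : ‖Z‖ ≤ 2 * γ * w := by
      have a1 := h (fun y => Real.cos (t * ((y - x * w ^ 2) / w))) fun y => Real.abs_cos_le_one _
      have a2 := h (fun y => Real.sin (t * ((y - x * w ^ 2) / w))) fun y => Real.abs_sin_le_one _
      refine (norm_le_abs_re_add_abs_im Z).trans ?_
      simp only [hZ, div_natCast_re, div_natCast_im, re_sum, im_sum, sub_re, sub_im,
        re_ofReal_mul, im_ofReal_mul, exp_ofReal_mul_I_re, exp_ofReal_mul_I_im, mul_assoc]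
      linarith only [a1, a2]
    have hx' : (1 + x : ℂ) ≠ 0 := by exact_mod_cast (by linarith only [hx] : 1 + x ≠ 0)
    have hw' : (w : ℂ) ≠ 0 := by exact_mod_cast hw.ne'
    have z2 : Z = x / (1 + x) * E * ψ t + x * w ^ 2 * (E - 1) * ψ t -
        w * (1 - x / (1 + x) * E) * M t := by
      simp only [hZ, hψ, hM, ← mul_div_assoc, mul_sum, ← add_div, ← sub_div, ← sum_add_distrib,
        ← sum_sub_distrib]
      congr 1
      refine sum_congr rfl fun X _ => ?_
      rw [show ((t * (s X + 1 - x * w ^ 2) / w : ℝ) : ℂ) * I = I * (t / w : ℝ) + t * W X * I by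
        simp only [hW]; push_cast; field_simp; ring, Complex.exp_add, ← hE,
        show ((t * (s X - x * w ^ 2) / w : ℝ) : ℂ) = t * W X by simp only [hW]; push_cast; ring]
      simp only [hW]
      push_cast
      field_simp
      ring
    have e0 : ‖E‖ = 1 := by rw [hE, mul_comm, norm_exp_ofReal_mul_I]
    have tw : |t / w| ≤ 1 := by
      rw [abs_div, abs_of_pos hw]
      exact div_le_one_of_le₀ (ht.trans hθ) hw.le
    have e1 : ‖E - 1‖ ≤ |t| / w := by
      simpa [hE, abs_of_pos hw] using Real.norm_exp_I_mul_ofReal_sub_one_le (x := t / w)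
    have e2 : ‖E - 1 - I * (t / w : ℝ)‖ ≤ t ^ 2 / w ^ 2 := by
      simpa [hE, abs_of_pos hw, div_pow] using
        Complex.norm_exp_sub_one_sub_id_le (x := I * (t / w : ℝ)) (by simpa [← abs_div] using tw)
    have e3 : 1 ≤ ‖1 + x - x * E‖ := by
      have := norm_sub_norm_le (1 + x : ℂ) (x * E)
      rw [norm_mul, e0, show (1 + x : ℂ) = (1 + x : ℝ) by simp, Complex.norm_real,
        Complex.norm_real, Real.norm_of_nonneg hx.le, Real.norm_of_nonneg (by linarith only [hx])] at this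
      simpa using this
    have z3 : w * (1 + x - x * E) * (I * M t + ((x + x ^ 2) * t : ℝ) * ψ t) = (1 + x) *
        (I * ((x / (1 + x) : ℝ) * E * ψ t) - I * Z + (x * w : ℝ) * ψ t *
          (I * w * (E - 1 - I * (t / w : ℝ)) - (x * t : ℝ) * (E - 1))) := by
      rw [z2]
      push_cast
      field_simp
      linear_combination (x * w * t * (1 + x) * ψ t) * I_sq
    have t2 : t ^ 2 ≤ θ ^ 2 := sq_le_sq.2 ht
    have z4 : ‖I * w * (E - 1 - I * (t / w : ℝ)) - (x * t : ℝ) * (E - 1)‖ ≤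
        (1 + x) * θ ^ 2 / w := by
      refine (norm_sub_le _ _).trans ?_
      simp only [norm_mul, norm_I, one_mul, Complex.norm_real, Real.norm_eq_abs, abs_of_pos hw,
        abs_of_pos hx]
      calc _ ≤ w * (t ^ 2 / w ^ 2) + x * |t| * (|t| / w) := by gcongr
        _ = (1 + x) * |t| ^ 2 / w := by rw [← sq_abs t]; field_simp
        _ ≤ _ := by rw [sq_abs]; gcongr
    have z5 : ‖I * ((x / (1 + x) : ℝ) * E * ψ t) - I * Z + (x * w : ℝ) * ψ t *
          (I * w * (E - 1 - I * (t / w : ℝ)) - (x * t : ℝ) * (E - 1))‖ ≤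
        1 * 1 + 2 * γ * w + x * w * 1 * ((1 + x) * θ ^ 2 / w) := by
      refine (norm_add_le _ _).trans (add_le_add ((norm_sub_le _ _).trans ?_) ?_)
      · simp only [norm_mul, norm_I, one_mul, Complex.norm_real, e0, mul_one]
        refine add_le_add (mul_le_one₀ ?_ (norm_nonneg _) (n1 t)) z1
        rw [Real.norm_of_nonneg (by positivity)]
        exact div_le_one_of_le₀ (by linarith only []) (by linarith only [hx])
      · rw [norm_mul, norm_mul, Complex.norm_real, Real.norm_of_nonneg (by positivity)]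
        gcongr
        exact n1 t
    have z6 := congrArg norm z3
    rw [norm_mul, norm_mul, norm_mul (1 + x : ℂ), show (1 + x : ℂ) = (1 + x : ℝ) by simp,
      Complex.norm_real, Complex.norm_real, Real.norm_of_nonneg hw.le,
      Real.norm_of_nonneg (by linarith only [hx])] at z6
    rw [← mul_le_mul_iff_right₀ hw]
    calc _ = w * 1 * ‖I * M t + ((x + x ^ 2) * t : ℝ) * ψ t‖ := by ring
      _ ≤ w * ‖((1 + x : ℝ) : ℂ) - x * E‖ * ‖I * M t + ((x + x ^ 2) * t : ℝ) * ψ t‖ := by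
        gcongr
        simpa using e3
      _ ≤ (1 + x) * (1 * 1 + 2 * γ * w + x * w * 1 * ((1 + x) * θ ^ 2 / w)) := by
        rw [z6]
        gcongr
      _ = _ := by
        field_simp
        ring
  have d2 : ∀ t : ℝ, HasDerivAt (fun t : ℝ => ψ t * (Real.exp ((x + x ^ 2) * t ^ 2 / 2) : ℝ))
      ((I * M t + ((x + x ^ 2) * t : ℝ) * ψ t) * (Real.exp ((x + x ^ 2) * t ^ 2 / 2) : ℝ)) t :=
    fun t => by
    refine ((d1 t).mul
      ((((hasDerivAt_pow 2 t).const_mul (x + x ^ 2)).div_const 2).exp.ofReal_comp)).congr_deriv ?_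
    push_cast
    ring
  have mv := (convex_Icc (-|θ|) |θ|).norm_image_sub_le_of_norm_hasDerivWithin_le
    (C := (1 + x) * (2 * γ + (1 + (x + x ^ 2) * θ ^ 2) / w) * Real.exp ((x + x ^ 2) * θ ^ 2 / 2))
    (fun t _ => (d2 t).hasDerivWithinAt) (fun t ht => by
      have h1 := key t (abs_le.2 ht)
      have t2 : t ^ 2 ≤ θ ^ 2 := sq_le_sq.2 (abs_le.2 ht)
      rw [norm_mul, Complex.norm_real, Real.norm_of_nonneg (Real.exp_pos _).le]
      exact mul_le_mul h1 (by gcongr) (Real.exp_pos _).le ((norm_nonneg _).trans h1))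
    (x := 0) (y := θ) ⟨by simp, abs_nonneg _⟩ (abs_le.1 le_rfl)
  have e0 : ψ 0 = 1 := by simp [hψ, hc']
  rw [e0, sub_zero, Real.norm_eq_abs] at mv
  refine le_trans ?_ mv
  have e1 : ψ θ - cexp (-((x + x ^ 2) * θ ^ 2 / 2 : ℝ)) =
      (Real.exp (-((x + x ^ 2) * θ ^ 2 / 2)) : ℝ) * (ψ θ * (Real.exp ((x + x ^ 2) * θ ^ 2 / 2) : ℝ) -
        1 * (Real.exp ((x + x ^ 2) * 0 ^ 2 / 2) : ℝ)) := by
    rw [mul_sub, mul_left_comm, ← ofReal_mul, ← Real.exp_add]
    simp
  rw [e1, norm_mul, Complex.norm_real, Real.norm_of_nonneg (Real.exp_pos _).le]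
  exact mul_le_of_le_one_left (norm_nonneg _) (Real.exp_le_one_iff.2 (neg_nonpos.2 (by positivity)))

end Pool.Agent.Work.MP_1d48d5_pr.CLT
end

-- merged part: Pool.Agent.Work.MP_1d48d5_pr.CMain
section
/-! The central limit theorem for few heavy rows. -/

open Finset Filter Topology MeasureTheory ProbabilityTheory
open scoped BoundedContinuousFunction

namespace Pool.Agent.Work.MP_1d48d5_pr.CLT

lemma ev_le (c : ℝ) {c' α β : ℝ} (hc : 0 < c') (h : α < β) :
    ∀ᶠ n : ℕ in atTop, c * (n : ℝ) ^ α ≤ c' * (n : ℝ) ^ β := by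
  filter_upwards [((tendsto_rpow_atTop (sub_pos.2 h)).comp
    tendsto_natCast_atTop_atTop).eventually_ge_atTop (c / c'), eventually_gt_atTop 0] with n h1 h2
  have h3 : (0 : ℝ) < n := by exact_mod_cast h2
  rw [Function.comp, Real.rpow_sub h3, div_le_div_iff₀ hc (by positivity)] at h1
  linarith only [h1]

lemma ev_exp (c : ℝ) {b : ℝ} (hb : 0 < b) :
    ∀ᶠ n : ℕ in atTop, c * (n : ℝ) ^ 5 ≤ 2 ^ ⌊(n : ℝ) ^ b⌋₊ := by
  filter_upwards [((tendsto_exp_mul_div_rpow_atTop (5 / b) _ (Real.log_pos one_lt_two)).comp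
    ((tendsto_rpow_atTop hb).comp tendsto_natCast_atTop_atTop)).eventually_ge_atTop (2 * c),
    eventually_gt_atTop 0] with n h1 h2
  have h3 : (0 : ℝ) < n := by exact_mod_cast h2
  simp only [Function.comp] at h1
  rw [← Real.rpow_mul h3.le, mul_div_cancel₀ _ hb.ne', le_div_iff₀ (by positivity),
    ← Real.rpow_def_of_pos two_pos, show (5 : ℝ) = (5 : ℕ) by norm_num, Real.rpow_natCast] at h1
  have h4 := Real.rpow_le_rpow_of_exponent_le one_le_two (Nat.lt_floor_add_one ((n : ℝ) ^ b)).le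
  rw [Real.rpow_add two_pos, Real.rpow_natCast, Real.rpow_one] at h4
  linarith only [h1, h4]

/-- The light indices. -/
def light (d n : ℕ) : Finset (Fin (d + n)) := univ.map (Fin.natAddEmb d)

lemma mem_light {d n : ℕ} {i : Fin (d + n)} : i ∈ light d n ↔ ¬ (i : ℕ) < d := by
  simp only [light, Finset.mem_map, mem_univ, true_and, Fin.natAddEmb_apply]
  constructor
  · rintro ⟨a, rfl⟩
    simp
  · intro h
    exact ⟨⟨i - d, by omega⟩, Fin.ext (by simp; omega)⟩

lemma ev_hyp {B C δ a : ℝ} (hC : 0 < C) (hB : Bc C < B) (a0 : 0 < a) (a1 : a ≤ 1 / 28)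
    (a2 : δ + 2 * a ≤ 1 / 2) (a3 : 4 * a ≤ δ) : ∀ᶠ n : ℕ in atTop,
    Hyp2 (light (dim δ n) n) (fun i => margin B C δ n i) (n ^ a) (√n) (n ^ (-a)) (dim δ n) C
      (Bc C * C) ((B - Bc C) * C / 3) (B * C + 1) := by
  have hB1 : 1 ≤ Bc C := le_add_of_nonneg_right (Real.sqrt_nonneg _)
  have hη : 0 < (B - Bc C) * C / 3 := div_pos (mul_pos (sub_pos.2 hB) hC) three_pos
  have hBC : C ≤ B * C := le_mul_of_one_le_left hC.le (by linarith only [hB, hB1])
  have hm : 4 * (B * C + 1) ≤ (⌈4 * (B * C + 1)⌉ : ℝ) := Int.le_ceil _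
  generalize ⌈4 * (B * C + 1)⌉ = m at hm
  have m0 : (0 : ℝ) ≤ m := by linarith only [hC, a0, a1, hBC, hm]
  filter_upwards [eventually_ge_atTop 4, ev_exp (8 * (B * C + 1)) (show 0 < a / 4 by positivity),
    ev_le (8 * m ^ 2) one_pos (show a / 4 + a / 4 < a by linarith only [a0]),
    ev_le (2 * m) (half_pos hC) (show a / 4 < a by linarith only [a0]),
    ev_le (B * C + 2) (half_pos hC) (show δ < 1 by linarith only [a0, a1, a2]),
    ev_le (B * C + 1) one_pos a0, ev_le 2 one_pos (show a + a + a < δ by linarith only [a0, a3]),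
    ev_le 2 hη (show a + 1 / 2 < 1 by linarith only [a0, a1])] with n n4 e1 e2 e3 e4 e5 e6 e7
  have n4' : (4 : ℝ) ≤ n := by exact_mod_cast n4
  have n0 : (0 : ℝ) < n := by linarith only [a0, a1, n4']
  have n1 : (1 : ℝ) ≤ n := by linarith only [a0, a1, n4']
  have one : ∀ {b : ℝ}, 0 ≤ b → 1 ≤ (n : ℝ) ^ b := fun hb => Real.one_le_rpow n1 hb
  have mono : ∀ {b c : ℝ}, b ≤ c → (n : ℝ) ^ b ≤ n ^ c := fun h =>
    Real.rpow_le_rpow_of_exponent_le n1 h
  have wsq : √(n : ℝ) ^ 2 = n := Real.sq_sqrt n0.le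
  have w2 : 2 ≤ √(n : ℝ) := Real.le_sqrt_of_sq_le (by linarith only [n4'])
  have cL : ((light (dim δ n) n).card : ℝ) = √n ^ 2 := by simp [light, wsq]
  have cH : ((light (dim δ n) n)ᶜ.card : ℝ) = dim δ n := by simp [card_compl, light]
  have d1 : (dim δ n : ℝ) ≤ n ^ δ := Nat.floor_le (by positivity)
  have d2 : (n : ℝ) ^ δ / 2 ≤ dim δ n := (Nat.div_two_lt_floor (one (by linarith only [a0, a3]))).le
  have rL : ∀ i ∈ light (dim δ n) n, margin B C δ n i = ⌊C * n⌋₊ := fun i hi =>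
    if_neg (mem_light.1 hi)
  have rH : ∀ i ∉ light (dim δ n) n, margin B C δ n i = ⌊B * C * n⌋₊ := fun i hi =>
    if_pos (not_not.1 (mt mem_light.2 hi))
  have rK : ∀ i, (((margin B C δ n i : ℕ) : ℤ) : ℝ) + √n ^ 2 ≤ (B * C + 1) * √n ^ 2 := fun i => by
    have h1 : (⌊C * n⌋₊ : ℝ) ≤ C * n := Nat.floor_le (by positivity)
    have h2 : (⌊B * C * n⌋₊ : ℝ) ≤ B * C * n := Nat.floor_le (mul_nonneg (by linarith only [hC, hBC]) n0.le)
    rw [wsq, Int.cast_natCast, margin]
    split_ifs <;> linarith only [h1, h2, mul_le_mul_of_nonneg_right hBC n0.le]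
  have hJ : (⌊(n : ℝ) ^ (a / 4)⌋₊ + 1 : ℝ) * m ≤ 2 * m * n ^ (a / 4) := by
    have := Nat.floor_le (show 0 ≤ (n : ℝ) ^ (a / 4) by positivity)
    linarith only [mul_le_mul_of_nonneg_right this m0,
      mul_le_mul_of_nonneg_right (one (b := a / 4) (by linarith only [a0])) m0]
  have K1 : 1 ≤ B * C + 1 := by linarith only [hBC, hC]
  rw [Real.rpow_zero] at e5
  rw [Real.rpow_one] at e4 e7
  have bad := bad_le (lam := n ^ a) (r := fun i => margin B C δ n i) (K := B * C + 1) (m := m)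
    (J := ⌊(n : ℝ) ^ (a / 4)⌋₊) cL w2
    (by
      rw [cH, wsq]
      exact d1.trans ((mono (by linarith only [a0, a2])).trans_eq (Real.rpow_one _)))
    (fun k hk k' hk' => by simp only [rL k hk, rL k' hk'])
    (fun k hk k' hk' => by simp only [rH k hk, rH k' hk']) K1
    (fun i => by linarith only [rK i, sq_nonneg √(n : ℝ)]) hm
    (by
      have := pow_le_pow_left₀ (by positivity) hJ 2
      rw [Real.rpow_add n0] at e2
      linarith only [this, e2])
    (fun l hl => by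
      have h1 := (Nat.lt_floor_add_one (C * n)).le
      have h2 : (dim δ n : ℝ) * (B * C + 1) + C / 2 * n ≤ ⌊C * n⌋₊ := by
        linarith only [one (b := δ) (by linarith only [a0, a3]), h1, e4,
          mul_le_mul_of_nonneg_right d1 (zero_le_one.trans K1)]
      simp only [cH, wsq, rL l hl, Int.cast_natCast]
      linarith only [mul_le_mul_of_nonneg_left h2 (Real.rpow_nonneg n0.le a),
        mul_le_mul_of_nonneg_right (hJ.trans e3) n0.le])
  refine ⟨⟨one_le_two.trans w2, cL, one a0.le, fun i => (rK i).trans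
      (mul_le_mul_of_nonneg_right (by linarith only [e5]) (sq_nonneg _)), ?_⟩,
    Real.rpow_pos_of_pos n0 _, Real.rpow_le_one_of_one_le_of_nonpos n1 (neg_nonpos.2 a0.le), cH,
    ?_, ?_, ?_, hC, mul_pos (zero_lt_one.trans_le hB1) hC, ?_, hη, fun l hl => ?_,
    fun i hi i' hi' => by simp only [rH i hi, rH i' hi'], fun i hi => ?_, rK, K1⟩
  · refine (mul_le_mul_of_nonneg_right bad (by positivity)).trans ?_
    rw [div_mul_eq_mul_div, div_le_one (by positivity), mul_assoc, ← pow_add,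
      show 6 + 4 = 2 * 5 from rfl, pow_mul, wsq]
    exact e1
  · rw [Real.sqrt_eq_rpow, ← Real.rpow_mul_natCast n0.le, ← Real.rpow_mul_natCast n0.le,
      ← Real.rpow_add n0]
    exact mono (by push_cast; linarith only [a1])
  · refine (mul_le_mul_of_nonneg_left d1 (by positivity)).trans ?_
    rw [Real.sqrt_eq_rpow, ← Real.rpow_add n0, ← Real.rpow_add n0]
    exact mono (by linarith only [a2])
  · rw [Real.rpow_add n0, Real.rpow_add n0] at e6
    rw [Real.rpow_neg n0.le, inv_pow, le_inv_mul_iff₀ (by positivity)]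
    linarith only [e6, d2]
  · have h1 : √(1 + 1 / C) ^ 2 * C = 1 + C := by
      rw [Real.sq_sqrt (by positivity)]
      field_simp
      ring
    rw [div_pow, div_eq_div_iff (by positivity) (by positivity), Bc]
    linear_combination (C * (C * √(1 + 1 / C) ^ 2 + C + 1 + 2 * C * √(1 + 1 / C)) -
      C ^ 2 * (1 + √(1 + 1 / C)) ^ 2) * h1
  · have h1 : (⌊C * n⌋₊ : ℝ) ≤ C * n := Nat.floor_le (by positivity)
    have h2 := (Nat.lt_floor_add_one (C * n)).le
    simp only [wsq, rL l hl, Int.cast_natCast, abs_le]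
    constructor <;> linarith only [h1, h2]
  · have h2 := (Nat.lt_floor_add_one (B * C * n)).le
    have h3 := one (b := a + 1 / 2) (by linarith only [a0])
    simp only [wsq, rH i hi, Int.cast_natCast]
    rw [Real.sqrt_eq_rpow, ← Real.rpow_add n0]
    linarith only [h2, h3, e7]

lemma tables_eq {m : ℕ} (r : Fin m → ℕ) : tables r r =
    ((tab (fun i => (r i : ℤ)) fun i => r i).image fun X a b => (X a b).toNat : Finset _) := by
  ext Y
  simp only [tables, Set.mem_ofPred_eq, coe_image, Set.mem_image, mem_coe, mem_tab]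
  constructor
  · intro h
    exact ⟨fun a b => Y a b, ⟨fun _ _ => by positivity, fun a => by simp [← h.1 a],
      fun b => by simp [← h.2 b]⟩, by simp⟩
  · rintro ⟨X, ⟨h0, h1, h2⟩, rfl⟩
    constructor <;> intro a <;> zify <;> simp only [Int.toNat_of_nonneg (h0 _ _), h1, h2]

lemma tab_nonempty {m : ℕ} (r : Fin m → ℕ) : (tab (fun i => (r i : ℤ)) fun i => r i).Nonempty :=
  ⟨fun a b => if a = b then r a else 0, mem_tab.2 ⟨fun a b => by positivity, by simp, by simp⟩⟩

instance {m : ℕ} (r : Fin m → ℕ) : IsProbabilityMeasure (uniformOn (tables r r)) := by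
  rw [tables_eq]
  exact isProbabilityMeasure_uniformOn (finite_toSet _) ((tab_nonempty r).image _)

lemma integral_tables {m : ℕ} (r : Fin m → ℕ) (F : (Fin m → Fin m → ℤ) → ℂ) :
    ∫ Y, F (fun a b => Y a b) ∂(uniformOn (tables r r)) =
      (∑ X ∈ tab (fun i => (r i : ℤ)) fun i => r i, F X) /
        (tab (fun i => (r i : ℤ)) fun i => r i).card := by
  have e : ∀ X ∈ tab (fun i => (r i : ℤ)) fun i => r i,
      (fun a b => (((X a b).toNat : ℕ) : ℤ)) = X := fun X hX => by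
    funext a b
    exact Int.toNat_of_nonneg ((mem_tab.1 hX).1 a b)
  have inj : Set.InjOn (fun (X : Fin m → Fin m → ℤ) a b => (X a b).toNat)
      (tab (fun i => (r i : ℤ)) fun i => r i) := fun X hX X' hX' h => by
    rw [← e X hX, ← e X' hX']
    exact congrArg (fun (Y : Fin m → Fin m → ℕ) a b => (Y a b : ℤ)) h
  have int : ∀ (S : Finset (Fin m → Fin m → ℕ)) (G : (Fin m → Fin m → ℕ) → ℂ),
      IntegrableOn G S Measure.count := fun S G => by
    rw [← (S : Set (Fin m → Fin m → ℕ)).biUnion_of_singleton]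
    simp [integrableOn_finset_iUnion]
  rw [tables_eq, uniformOn, ProbabilityTheory.cond, integral_smul_measure,
    setIntegral_finset _ (int _ _), sum_image inj, Measure.count_apply_finset,
    card_image_of_injOn inj, sum_congr rfl fun X hX => by rw [e X hX]]
  simp [div_eq_inv_mul]

theorem main {B C δ : ℝ} (hC : 0 < C) (hB : Bc C < B) (δ0 : 0 < δ) (δ1 : δ < 1 / 2) (f : ℝ →ᵇ ℝ) :
    Tendsto (fun n : ℕ => ∫ X, f (((blockSum (dim δ n) n X : ℝ) - Bc C * C * n) / √n)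
      ∂(uniformOn (tables (margin B C δ n) (margin B C δ n)))) atTop
      (𝓝 (∫ x, f x ∂(gaussianReal 0 (Bc C * C + (Bc C * C) ^ 2).toNNReal))) := by
  have hx : 0 < Bc C * C := mul_pos (by unfold Bc; positivity) hC
  obtain ⟨a, a0, a1, a2, a3⟩ : ∃ a : ℝ, 0 < a ∧ a ≤ 1 / 28 ∧ δ + 2 * a ≤ 1 / 2 ∧ 4 * a ≤ δ :=
    ⟨min (1 / 28) (min (1 / 4 - δ / 2) (δ / 4)), by simp only [lt_min_iff]; refine ⟨?_, ?_, ?_⟩ <;>
      linarith only [δ0, δ1], min_le_left _ _, by
      linarith only [min_le_right (1 / 28) (min (1 / 4 - δ / 2) (δ / 4)),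
        min_le_left (1 / 4 - δ / 2) (δ / 4)], by
      linarith only [min_le_right (1 / 28) (min (1 / 4 - δ / 2) (δ / 4)),
        min_le_right (1 / 4 - δ / 2) (δ / 4)]⟩
  let μ : ℕ → ProbabilityMeasure ℝ := fun n =>
    ⟨(uniformOn (tables (margin B C δ n) (margin B C δ n))).map
      fun X => ((blockSum (dim δ n) n X : ℝ) - Bc C * C * n) / √n,
      Measure.isProbabilityMeasure_map (measurable_of_countable _).aemeasurable⟩
  have h1 : Tendsto μ atTop (𝓝 ⟨gaussianReal 0 (Bc C * C + (Bc C * C) ^ 2).toNNReal,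
      inferInstance⟩) := by
    refine ProbabilityMeasure.tendsto_iff_tendsto_charFun.2 fun θ => ?_
    have hw : Tendsto (fun n : ℕ => √(n : ℝ)) atTop atTop :=
      Real.tendsto_sqrt_atTop.comp tendsto_natCast_atTop_atTop
    have hε : Tendsto (fun n : ℕ => (n : ℝ) ^ (-a)) atTop (𝓝 0) :=
      (tendsto_rpow_neg_atTop a0).comp tendsto_natCast_atTop_atTop
    have h2 := (((((hε.const_mul (c2 (Bc C * C) ((B - Bc C) * C / 3) (B * C + 1))).const_mul 2).add
      (hw.const_div_atTop (1 + (Bc C * C + (Bc C * C) ^ 2) * θ ^ 2))).const_mul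
      (1 + Bc C * C)).mul_const (Real.exp ((Bc C * C + (Bc C * C) ^ 2) * θ ^ 2 / 2))).mul_const |θ|
    simp only [mul_zero, add_zero, zero_mul] at h2
    refine tendsto_iff_norm_sub_tendsto_zero.2 (squeeze_zero' (.of_forall fun _ => norm_nonneg _)
      ?_ h2)
    filter_upwards [ev_hyp hC hB a0 a1 a2 a3, hw.eventually_ge_atTop |θ|] with n h hθ
    have d0 : 0 < dim δ n := by exact_mod_cast h.d0
    have hi : (⟨0, by omega⟩ : Fin (dim δ n + n)) ∉ light (dim δ n) n := by simp [mem_light, d0]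
    refine le_of_eq_of_le (congrArg norm (congrArg₂ _ ?_ ?_)) (ode (tab_nonempty (margin B C δ n))
      (fun X => rs (light (dim δ n) n) X ⟨0, by omega⟩) hx h.w0 hθ fun g hg =>
        (h.stein hi hg).trans_eq (mul_assoc _ _ _).symm)
    · rw [← integral_tables (margin B C δ n) fun X => Complex.exp (θ * ((rs (light (dim δ n) n) X
        ⟨0, by omega⟩ - Bc C * C * √n ^ 2) / √n : ℝ) * Complex.I), charFun_apply_real]
      refine (integral_map (measurable_of_countable _).aemeasurable (by fun_prop)).trans ?_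
      simp [rs, light, blockSum]
    · refine (charFun_gaussianReal θ).trans ?_
      rw [Real.coe_toNNReal _ (by positivity)]
      simp
  have h2 := ProbabilityMeasure.tendsto_iff_forall_integral_tendsto.1 h1 f
  refine h2.congr fun n => ?_
  exact integral_map (measurable_of_countable _).aemeasurable f.continuous.aestronglyMeasurable

end Pool.Agent.Work.MP_1d48d5_pr.CLT
end
end

-- merged part: Pool.Agent.Work.MP_1d48d5_pr.D1
section
/-! Weighted concentration on the fibre of two columns, and a second rare event. -/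

open Finset

namespace Pool.Agent.Work.MP_1d48d5_pr.CLT

variable {ι : Type} [Fintype ι] [DecidableEq ι]
variable {L : Finset ι} {r c : ι → ℤ} {X : ι → ι → ℤ} {i j l k k' : ι} {lam w ε K : ℝ}

/-- Merging two columns. -/
def mrg (k k' : ι) (X : ι → ι → ℤ) : ι → ι → ℤ :=
  fun a b => if b = k then X a k + X a k' else if b = k' then 0 else X a b

lemma sum_fib' (hk : k ≠ k') (F : (ι → ι → ℤ) → (ι → ℤ) → (ι → ℤ) → ℝ) :
    ∑ X ∈ tab r c, F (mrg k k' X) (fun a => X a k) (fun a => X a k') =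
      ∑ Z ∈ tab r (fun b => if b = k then c k + c k' else if b = k' then 0 else c b),
        ∑ y ∈ fib (fun a => Z a k) (c k), F Z y ((fun a => Z a k) - y) := by
  rw [sum_sigma']
  refine sum_nbij'
    (fun X => ⟨fun a b => if b = k then X a k + X a k' else if b = k' then 0 else X a b,
      fun a => X a k⟩)
    (fun p a b => if b = k then p.2 a else if b = k' then p.1 a k - p.2 a else p.1 a b)
    ?_ ?_ ?_ ?_ ?_
  · intro X hX
    obtain ⟨h0, h1, h2⟩ := mem_tab.1 hX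
    simp only [mem_sigma, mem_tab, mem_fib, if_true]
    refine ⟨⟨fun a b => ?_, fun a => ?_, fun b => ?_⟩, fun a => ⟨h0 _ _, ?_⟩, h2 k⟩
    · have := h0 a k; have := h0 a k'; have := h0 a b
      split_ifs <;> omega
    · rw [← h1 a, sum_two hk, sum_two hk (X a)]
      simp only [if_true, hk.symm, if_false, add_zero]
      congr 1
      exact sum_congr rfl fun b hb => by simp at hb; simp [hb]
    · split_ifs
      · rw [sum_add_distrib, h2, h2]
      · simp
      · exact h2 b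
    · have := h0 a k'
      omega
  · rintro ⟨Z, y⟩ hp
    simp only [mem_sigma, mem_tab, mem_fib] at hp
    obtain ⟨⟨h0, h1, h2⟩, h3, h4⟩ := hp
    have hz : ∀ a, Z a k' = 0 := fun a => by
      have := h2 k'
      simp only [hk.symm, if_true, if_false] at this
      exact (sum_eq_zero_iff_of_nonneg fun a _ => h0 a k').1 this a (mem_univ a)
    simp only [mem_tab]
    refine ⟨fun a b => ?_, fun a => ?_, fun b => ?_⟩
    · have := h3 a; have := h0 a b
      split_ifs <;> omega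
    · rw [← h1 a, sum_two hk, sum_two hk (Z a), hz]
      simp only [if_true, hk.symm, if_false, add_zero, add_sub_cancel]
      congr 1
      exact sum_congr rfl fun b hb => by simp at hb; simp [hb]
    · have h5 := h2 k
      have h6 := h2 b
      simp only [if_true] at h5
      split_ifs at h6 ⊢ with e1 e2
      · rw [h4, e1]
      · rw [sum_sub_distrib, h5, h4, e2, add_sub_cancel_left]
      · exact h6
  · intro X _
    funext a b
    simp only [if_true]
    split_ifs with e1 e2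
    · rw [e1]
    · rw [e2, add_sub_cancel_left]
    · rfl
  · rintro ⟨Z, y⟩ hp
    simp only [mem_sigma, mem_tab, mem_fib] at hp
    obtain ⟨⟨h0, h1, h2⟩, h3, h4⟩ := hp
    have hz : ∀ a, Z a k' = 0 := fun a => by
      have := h2 k'
      simp only [hk.symm, if_true, if_false] at this
      exact (sum_eq_zero_iff_of_nonneg fun a _ => h0 a k').1 this a (mem_univ a)
    simp only [if_true, hk.symm, if_false, add_sub_cancel, Sigma.mk.injEq, heq_eq_eq, and_true]
    funext a b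
    split_ifs with e1 e2
    · rw [e1]
    · rw [e2, hz]
    · rfl
  · intro X _
    congr 1
    funext a
    simp

lemma fib_exp {μ : ι → ℤ} {t : ℤ} (h0 : ∀ a, 0 ≤ μ a) (hs : ∑ a, μ a = t + t)
    {h : ι → ℤ → ℤ → ℝ} (anti : ∀ a x y, h a x y = -h a y x) (bd : ∀ a x y, |h a x y| ≤ 1)
    (θ : ι → ℝ) : ∑ y ∈ fib μ t, Real.exp (∑ a, θ a * h a (y a) (μ a - y a)) ≤
      ∑ _y ∈ fib μ t, (2 * t + 1) * Real.exp (∑ a, θ a ^ 2 / 2) := by
  have hc0 : 0 ≤ t := by
    have := sum_nonneg fun a (_ : a ∈ univ) => h0 a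
    omega
  have h1 : (Fintype.piFinset fun a => Icc 0 (μ a)).card ≤
      (Icc 0 (2 * t)).card * (fib μ t).card := by
    refine card_le_mul_card_image_of_maps_to (f := fun y => ∑ a, y a) ?_ _ ?_ |>.trans
      (mul_comm _ _).le
    · intro y hy
      simp only [Fintype.mem_piFinset, mem_Icc] at hy ⊢
      have := sum_le_sum fun a (_ : a ∈ univ) => (hy a).2
      exact ⟨sum_nonneg fun a _ => (hy a).1, by omega⟩
    · intro s _
      refine boxCnt_le h0 ?_
      rw [hs, show 2 * t - (t + t) = 0 by ring, abs_zero]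
      exact abs_nonneg _
  have h2 : ((Icc 0 (2 * t)).card : ℝ) = 2 * t + 1 := by
    have : ((Icc 0 (2 * t)).card : ℤ) = 2 * t + 1 := by
      rw [Int.card_Icc_of_le _ _ (by omega)]; ring
    exact_mod_cast this
  calc _ ≤ ∑ y ∈ Fintype.piFinset fun a => Icc 0 (μ a),
        ∏ a, Real.exp (θ a * h a (y a) (μ a - y a)) := by
        refine (sum_congr rfl fun y _ => ?_).trans_le
          (sum_le_sum_of_subset_of_nonneg (filter_subset _ _) fun _ _ _ => by positivity)
        rw [Real.exp_sum]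
    _ ≤ ∏ a, (((Icc 0 (μ a)).card : ℝ) * Real.exp (θ a ^ 2 / 2)) := by
        rw [← prod_univ_sum (fun a => Icc 0 (μ a)) fun a b => Real.exp (θ a * h a b (μ a - b))]
        exact prod_le_prod (fun _ _ => sum_nonneg fun _ _ => (Real.exp_pos _).le) fun a _ =>
          sum_exp_le _ (anti a) (bd a) (θ a)
    _ = ((Fintype.piFinset fun a => Icc 0 (μ a)).card : ℝ) * Real.exp (∑ a, θ a ^ 2 / 2) := by
        rw [prod_mul_distrib, Fintype.card_piFinset, Real.exp_sum]
        push_cast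
        rfl
    _ ≤ _ := by
        rw [sum_const, nsmul_eq_mul, ← mul_assoc, mul_comm (_ : ℝ) (2 * _ + 1), ← h2]
        gcongr
        exact_mod_cast h1

lemma conc' (hk : k ≠ k') (hc : c k = c k') {h : ι → ℤ → ℤ → ℝ}
    (anti : ∀ a x y, h a x y = -h a y x) (bd : ∀ a x y, |h a x y| ≤ 1)
    {θ : (ι → ι → ℤ) → ι → ℝ} {V : ℝ} (hθ : ∀ Z, ∑ a, θ Z a ^ 2 / 2 ≤ V) :
    ∑ X ∈ tab r c, Real.exp (∑ a, θ (mrg k k' X) a * h a (X a k) (X a k')) ≤
      ∑ _X ∈ tab r c, (2 * c k + 1) * Real.exp V := by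
  rw [sum_fib' hk fun Z y z => Real.exp (∑ a, θ Z a * h a (y a) (z a)),
    sum_fib' hk fun _ _ _ => (2 * c k + 1) * Real.exp V]
  refine sum_le_sum fun Z hZ => ?_
  have h0 := fun a => (mem_tab.1 hZ).1 a k
  have hs : ∑ a, Z a k = c k + c k := by simpa [← hc] using (mem_tab.1 hZ).2.2 k
  have hc0 : (0 : ℝ) ≤ c k := by
    have := sum_nonneg fun a (_ : a ∈ univ) => h0 a
    exact_mod_cast (show 0 ≤ c k by omega)
  refine (fib_exp h0 hs anti bd (θ Z)).trans (sum_le_sum fun _ _ => ?_)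
  gcongr
  exact hθ Z

open Classical in
/-- Probability of an event. -/
noncomputable def Pr (r : ι → ℤ) (E : (ι → ι → ℤ) → Prop) : ℝ :=
  Ex r fun X => if E X then 1 else 0

lemma Pr_eq {E : (ι → ι → ℤ) → Prop} [DecidablePred E] :
    Pr r E = Ex r fun X => if E X then 1 else 0 := by
  unfold Pr
  congr!

lemma Pr_mono {E E' : (ι → ι → ℤ) → Prop} (h : ∀ X ∈ tab r r, E X → E' X) : Pr r E ≤ Pr r E' :=
  Ex_mono fun X hX => by
    split_ifs with h1 h2
    exacts [le_rfl, (h2 (h X hX h1)).elim, zero_le_one, le_rfl]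

lemma Pr_or {E E' : (ι → ι → ℤ) → Prop} {a b : ℝ} (ha : Pr r E ≤ a) (hb : Pr r E' ≤ b) :
    Pr r (fun X => E X ∨ E' X) ≤ a + b := by
  refine le_trans ?_ (add_le_add ha hb)
  rw [Pr, Pr, Pr, ← Ex_add]
  refine Ex_mono fun X _ => ?_
  by_cases h1 : E X <;> by_cases h2 : E' X <;> simp [h1, h2]

lemma Pr_ex {S : Finset ι} {p : ι → (ι → ι → ℤ) → Prop} {b : ℝ} (h : ∀ a ∈ S, Pr r (p a) ≤ b) :
    Pr r (fun X => ∃ a ∈ S, p a X) ≤ S.card * b := by
  classical
  refine le_trans ?_ ((sum_le_card_nsmul S _ b h).trans_eq (nsmul_eq_mul _ _))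
  simp only [Pr, ← Ex_sum]
  refine Ex_mono fun X _ => ?_
  split_ifs with h1
  · obtain ⟨a, ha, h2⟩ := h1
    exact (if_pos h2).ge.trans (single_le_sum (f := fun a => if p a X then (1 : ℝ) else 0)
      (fun _ _ => by positivity) ha)
  · positivity

lemma Pr_tr (E : (ι → ι → ℤ) → Prop) : Pr r (fun X => E (tr X)) = Pr r E := by
  classical
  rw [Pr, Pr, ← Ex_tr]
  rfl

lemma conc_tail' {v : ℝ} (hv : 0 < v) (hc : r k = r k') {h : ι → ℤ → ℤ → ℝ}
    (anti : ∀ a x y, h a x y = -h a y x) (bd : ∀ a x y, |h a x y| ≤ 1)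
    {β : (ι → ι → ℤ) → ι → ℝ} (hβ : ∀ Z, ∑ a, β Z a ^ 2 ≤ v ^ 2) {μ : ℝ}
    (hμ : 0 < μ) {R : ℝ} (hR0 : 0 ≤ R) (hR : 2 * r k + 1 ≤ R) :
    Pr r (fun X => 2 * μ * v ≤ ∑ a, β (mrg k k' X) a * h a (X a k) (X a k')) ≤
      R * Real.exp (-μ ^ 2) := by
  rw [Pr_eq]
  rcases eq_or_ne k k' with rfl | hk
  · refine le_trans (Ex_mono fun X _ => ?_) (Ex_const_le (by positivity))
    have : ∀ a x, h a x x = 0 := fun a x => by linarith [anti a x x]
    simp only [this, mul_zero, sum_const_zero]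
    rw [if_neg (not_le.2 (by positivity))]
    positivity
  have h1 := Ex_le_of_sum (conc' (r := r) hk hc anti bd (θ := fun Z a => μ / v * β Z a)
    (V := μ ^ 2) fun Z => by
      simp only [mul_pow, ← sum_div, ← mul_sum]
      have := mul_le_mul_of_nonneg_left (hβ Z) (sq_nonneg (μ / v))
      rw [show (μ / v) ^ 2 * v ^ 2 = μ ^ 2 by field_simp] at this
      linarith [sq_nonneg μ])
  calc _ ≤ Ex r fun X => Real.exp (-(2 * μ ^ 2)) *
        Real.exp (∑ a, μ / v * β (mrg k k' X) a * h a (X a k) (X a k')) := Ex_mono fun X _ => by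
        split_ifs with h2
        · rw [← Real.exp_add]
          refine Real.one_le_exp ?_
          have := mul_le_mul_of_nonneg_left h2 (show 0 ≤ μ / v by positivity)
          rw [show μ / v * (2 * μ * v) = 2 * μ ^ 2 by field_simp, mul_sum] at this
          simp only [mul_assoc] at this ⊢
          linarith
        · positivity
    _ ≤ Real.exp (-(2 * μ ^ 2)) * (R * Real.exp (μ ^ 2)) := by
        rw [Ex_mul]
        gcongr
        refine h1.trans ((Ex_mono fun X _ => ?_).trans (Ex_const_le (by positivity)))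
        gcongr
    _ = _ := by
        rw [mul_left_comm, ← Real.exp_add]
        congr 2
        ring

/-- Deviation of `N` from its mean over the heavy columns. -/
noncomputable def zh (L : Finset ι) (X : ι → ι → ℤ) (j : ι) : ℝ :=
  N L X j - (∑ j' ∈ Lᶜ, N L X j') / Lᶜ.card

/-- Correlation term of the heavy block. -/
noncomputable def Yp (L : Finset ι) (X : ι → ι → ℤ) (i : ι) : ℝ := ∑ j ∈ Lᶜ, X i j * zh L X j

/-- The second good event. -/
def extra (L : Finset ι) (lam w ε : ℝ) (X : ι → ι → ℤ) : Prop :=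
  (∀ l ∈ L, ∀ l' ∈ L, |rs L X l - rs L X l'| ≤ lam * w) ∧
    (∀ j ∉ L, ∀ j' ∉ L, |N L X j - N L X j'| ≤ lam * w) ∧
    ∀ i ∉ L, ∀ i' ∉ L, |Yp L X i - Yp L X i'| ≤ ε * w ^ 3

omit [Fintype ι] [DecidableEq ι] in
lemma dev_le {S : Finset ι} {f : ι → ℝ} {z : ℝ} (h : ∀ a ∈ S, ∀ b ∈ S, |f a - f b| ≤ z)
    (hi : i ∈ S) : |f i - (∑ a ∈ S, f a) / S.card| ≤ z := by
  have hd : (0 : ℝ) < S.card := by exact_mod_cast card_pos.2 ⟨i, hi⟩
  have e1 : f i - (∑ a ∈ S, f a) / S.card = (∑ a ∈ S, (f i - f a)) / S.card := by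
    rw [sum_sub_distrib, sum_const, nsmul_eq_mul]
    field_simp
  rw [e1, abs_div, abs_of_pos hd, div_le_iff₀' hd]
  simpa using (abs_sum_le_sum_abs _ _).trans (sum_le_card_nsmul S _ _ fun a ha => h i hi a ha)

/-- Truncation to the unit interval. -/
noncomputable def clp (y : ℝ) : ℝ := max 0 (min 1 y)

lemma clp_mem (y : ℝ) : 0 ≤ clp y ∧ clp y ≤ 1 :=
  ⟨le_max_left _ _, max_le zero_le_one (min_le_left _ _)⟩

lemma clp_eq {y : ℝ} (h0 : 0 ≤ y) (h1 : y ≤ 1) : clp y = y := by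
  rw [clp, min_eq_right h1, max_eq_right h0]

lemma abs_clp (y z : ℝ) : |clp y - clp z| ≤ 1 := by
  rw [abs_le]
  constructor <;> linarith [clp_mem y, clp_mem z]

lemma cut_eq {y : ℝ} (h : |y| ≤ 1) : cut y = y := by
  rw [cut, min_eq_right (abs_le.1 h).2, max_eq_right (abs_le.1 h).1]

lemma extra_le {v : ℝ} (hw : (L.card : ℝ) = w ^ 2) (hw2 : 2 ≤ w) (hv : (Lᶜ.card : ℝ) = v ^ 2)
    (hv2 : 2 ≤ v) (hvw : v ^ 2 ≤ w ^ 2)
    (hl : ∀ k ∈ L, ∀ k' ∈ L, r k = r k') (hh : ∀ k ∉ L, ∀ k' ∉ L, r k = r k') (hK1 : 1 ≤ K)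
    (hK : ∀ a, (r a : ℝ) ≤ K * w ^ 2) {m : ℤ} (hm : 4 * K ≤ m) {J : ℕ}
    (hlam : 2 * ((J + 1) * m : ℝ) ^ 2 ≤ lam) (hε : 2 * lam ^ 2 ≤ ε * v) :
    Pr r (fun X => ¬ extra L lam w ε X) ≤ 13 * K * w ^ 6 / 2 ^ J := by
  have hm1 : (1 : ℝ) ≤ m := by linarith
  have hm0 : 0 < m := by exact_mod_cast zero_lt_one.trans_le hm1
  set μ : ℝ := (J + 1) * m with hμ
  have hJ : (J : ℝ) + 1 ≤ μ := le_mul_of_one_le_right (by positivity) hm1
  have μ1 : 1 ≤ μ := by linarith [Nat.cast_nonneg (α := ℝ) J]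
  have w0 : 0 < w := by linarith
  have v0 : 0 < v := by linarith
  have μ0 : 0 < μ := by linarith only [μ1]
  have μ2 : μ ≤ μ ^ 2 := by linarith only [mul_le_mul_of_nonneg_left μ1 μ0.le]
  have l0 : 0 < lam := by linarith only [μ0, μ2, hlam]
  have w4 : 4 ≤ w ^ 2 := by linarith only [mul_le_mul hw2 hw2 zero_le_two w0.le]
  have Kw : 4 ≤ K * w ^ 2 := by
    linarith only [w4, mul_le_mul_of_nonneg_right hK1 (sq_nonneg w)]
  have hι : (Fintype.card ι : ℝ) ≤ 2 * w ^ 2 := by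
    rw [← card_add_card_compl L, Nat.cast_add]
    linarith
  have hK' : 1 ≤ K * w ^ 2 / v ^ 2 := (one_le_div (by positivity)).2
    (hvw.trans (le_mul_of_one_le_left (sq_nonneg w) hK1))
  obtain ⟨m', a1, a2⟩ : ∃ m' : ℤ, 4 * (K * w ^ 2 / v ^ 2) ≤ m' ∧ m' ≤ 5 * (K * w ^ 2 / v ^ 2) :=
    ⟨_, Int.le_ceil _, by linarith [Int.ceil_lt_add_one (4 * (K * w ^ 2 / v ^ 2))]⟩
  have m0' : (0 : ℝ) < m' := by linarith
  set M : ℝ := (J + 1) * m' with hM
  have M0 : 0 < M := by positivity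
  have M1 : M * v ^ 2 ≤ 2 * μ * w ^ 2 := by
    have a3 : m' * v ^ 2 ≤ 2 * m * w ^ 2 := by
      rw [← mul_div_assoc, le_div_iff₀ (by positivity)] at a2
      linarith only [a2, mul_le_mul_of_nonneg_right hm (sq_nonneg w), Kw]
    linarith only [mul_le_mul_of_nonneg_left a3 (show (0 : ℝ) ≤ J + 1 by positivity), hM, hμ,
      show M * v ^ 2 = (J + 1) * (m' * v ^ 2) by rw [hM]; ring,
      show 2 * μ * w ^ 2 = (J + 1) * (2 * m * w ^ 2) by rw [hμ]; ring]
  let h1 : ι → ℤ → ℤ → ℝ := fun a x y => if a ∈ L then ind x - ind y else 0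
  let h2 : ι → ℤ → ℤ → ℝ := fun a x y => if a ∈ L then clp (x / μ) - clp (y / μ) else 0
  let h3 : ι → ℤ → ℤ → ℝ := fun _ x y => clp (x / M) - clp (y / M)
  let β : (ι → ι → ℤ) → ι → ℝ := fun Z a => if a ∈ Lᶜ then cut (zh L (tr Z) a / (lam * w)) else 0
  have hR : ∀ k, (2 * r k + 1 : ℝ) ≤ 3 * K * w ^ 2 := fun k => by linarith only [hK k, Kw]
  have K3 : 0 ≤ 3 * K * w ^ 2 := by linarith only [Kw]
  have ex : 3 * K * w ^ 2 * Real.exp (-μ ^ 2) ≤ 3 * K * w ^ 2 * (1 / 2 ^ J) := by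
    refine mul_le_mul_of_nonneg_left ?_ K3
    rw [Real.exp_neg, one_div]
    gcongr
    calc (2 : ℝ) ^ J ≤ Real.exp 1 ^ J := by gcongr; linarith [Real.add_one_le_exp 1]
      _ = Real.exp J := by rw [← Real.exp_nat_mul, mul_one]
      _ ≤ _ := Real.exp_le_exp.2 (by linarith only [hJ, μ2])
  have b1 := Pr_ex (r := r) (S := univ) fun a _ => Pr_ex (S := L)
    (p := fun k X => (J + 1) * m ≤ X a k) fun k hk => Pr_eq.trans_le (tail hw hw2 hl hK hm0 hm hk a J)
  have b2 := Pr_ex (r := r) (S := L) fun k hk => Pr_ex (S := L)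
    (p := fun k' X => 2 * μ * w ≤ ∑ a, h2 a (tr X a k) (tr X a k')) fun k' hk' =>
      (Pr_tr fun X => 2 * μ * w ≤ ∑ a, h2 a (X a k) (X a k')).trans_le (Pr_eq.trans_le
        ((conc_tail (h := h2) w0 hι (hl k hk k' hk')
          (fun a x y => by simp only [h2]; split_ifs <;> simp)
          (fun a x y => by
            simp only [h2]
            split_ifs
            exacts [abs_clp _ _, by simp]) μ0 K3 (hR k)).trans ex))
  have b3 := Pr_ex (r := r) (S := Lᶜ) fun k hk => Pr_ex (S := Lᶜ)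
    (p := fun k' X => 2 * μ * w ≤ ∑ a, h1 a (X a k) (X a k')) fun k' hk' => Pr_eq.trans_le
      ((conc_tail (h := h1) w0 hι (hh k (mem_compl.1 hk) k' (mem_compl.1 hk'))
        (fun a x y => by simp only [h1]; split_ifs <;> simp)
        (fun a x y => by
          simp only [h1]
          split_ifs
          · rw [abs_le]
            constructor <;> linarith only [ind_nonneg x, ind_nonneg y, ind_le_one x, ind_le_one y]
          · simp) μ0 K3 (hR k)).trans ex)
  have b4 := Pr_ex (r := r) (S := univ) fun a _ => Pr_ex (S := Lᶜ)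
    (p := fun k X => (J + 1) * m' ≤ X a k) fun k hk => Pr_eq.trans_le
      (tail (K := K * w ^ 2 / v ^ 2) hv hv2
        (fun k hk k' hk' => hh k (mem_compl.1 hk) k' (mem_compl.1 hk'))
        (fun a => (hK a).trans_eq (by field_simp)) (by exact_mod_cast m0') a1 hk a J)
  have b5 := Pr_ex (r := r) (S := Lᶜ) fun k hk => Pr_ex (S := Lᶜ)
    (p := fun k' X => 2 * μ * v ≤ ∑ a, β (mrg k k' (tr X)) a * h3 a (tr X a k) (tr X a k'))
    fun k' hk' =>
      (Pr_tr fun X => 2 * μ * v ≤ ∑ a, β (mrg k k' X) a * h3 a (X a k) (X a k')).trans_le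
        ((conc_tail' (h := h3) (β := β) v0 (hh k (mem_compl.1 hk) k' (mem_compl.1 hk'))
          (fun a x y => by simp [h3]) (fun a x y => abs_clp _ _) (fun Z => by
            simp only [β, ite_pow, ne_eq, OfNat.ofNat_ne_zero, not_false_eq_true, zero_pow,
              sum_ite_mem, univ_inter]
            simpa [hv] using sum_le_card_nsmul Lᶜ _ 1 fun a _ =>
              (sq_le_one_iff_abs_le_one _).2 (abs_cut (zh L (tr Z) a / (lam * w))))
          μ0 K3 (hR k)).trans ex)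
  refine (Pr_mono fun X hX hg => ?_).trans
    ((Pr_or b1 (Pr_or b2 (Pr_or b3 (Pr_or b4 b5)))).trans ?_)
  · by_contra hn
    simp only [not_or, not_exists, not_and, not_le, mem_univ, true_imp_iff] at hn
    obtain ⟨z1, z2, z3, z4, z5⟩ := hn
    have x0 : ∀ a b, (0 : ℝ) ≤ X a b := fun a b => Int.cast_nonneg ((mem_tab.1 hX).1 a b)
    have y2 : ∀ k ∈ L, ∀ k' ∈ L, rs L X k - rs L X k' ≤ lam * w := fun k hk k' hk' => by
      have h3 := (z2 k hk k' hk').le
      have e : ∀ k, ∑ a ∈ L, clp ((tr X a k : ℝ) / μ) = rs L X k / μ := fun k => by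
        rw [rs, sum_div]
        refine sum_congr rfl fun a ha => clp_eq (div_nonneg (x0 k a) μ0.le)
          (div_le_one_of_le₀ ?_ μ0.le)
        rw [hμ]
        exact_mod_cast (z1 k a ha).le
      simp only [h2, sum_ite_mem, univ_inter, sum_sub_distrib, e] at h3
      rw [← sub_div, div_le_iff₀ μ0] at h3
      linarith only [h3, mul_le_mul_of_nonneg_right hlam w0.le]
    have y3 : ∀ k ∉ L, ∀ k' ∉ L, N L X k - N L X k' ≤ lam * w := fun k hk k' hk' => by
      have := (z3 k (mem_compl.2 hk) k' (mem_compl.2 hk')).le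
      simp only [h1, sum_ite_mem, univ_inter, sum_sub_distrib] at this
      exact this.trans (mul_le_mul_of_nonneg_right (by linarith only [μ2, hlam]) w0.le)
    have y4 : ∀ k ∉ L, ∀ k' ∉ L, |N L X k - N L X k'| ≤ lam * w := fun k hk k' hk' =>
      abs_sub_le_iff.2 ⟨y3 k hk k' hk', y3 k' hk' k hk⟩
    have y5 : ∀ k ∉ L, ∀ k' ∉ L, Yp L X k - Yp L X k' ≤ ε * w ^ 3 := fun k hk k' hk' => by
      have h4 := (z5 k (mem_compl.2 hk) k' (mem_compl.2 hk')).le
      have e0 : ∀ a, N L (tr (mrg k k' (tr X))) a = N L X a := fun a =>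
        sum_congr rfl fun l hl => by
          simp [tr, mrg, ne_of_mem_of_not_mem hl hk, ne_of_mem_of_not_mem hl hk']
      have e : ∑ a, β (mrg k k' (tr X)) a * h3 a (tr X a k) (tr X a k') =
          (Yp L X k - Yp L X k') / (lam * w * M) := by
        simp only [β, ite_mul, zero_mul, sum_ite_mem, univ_inter, Yp, ← sum_sub_distrib, sum_div]
        refine sum_congr rfl fun a ha => ?_
        have q : ∀ k, clp ((tr X a k : ℝ) / M) = X k a / M := fun k =>
          clp_eq (div_nonneg (x0 k a) M0.le) (div_le_one_of_le₀ (by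
            rw [hM]
            exact_mod_cast (z4 k a ha).le) M0.le)
        have q2 : zh L (tr (mrg k k' (tr X))) a = zh L X a := by simp only [zh, e0]
        rw [q2, cut_eq]
        · simp only [h3, q]
          field_simp
        · rw [abs_div, abs_of_pos (a := lam * w) (by positivity)]
          exact div_le_one_of_le₀ (dev_le (fun a ha b hb =>
            y4 a (mem_compl.1 ha) b (mem_compl.1 hb)) ha) (by positivity)
      rw [e, div_le_iff₀ (by positivity)] at h4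
      refine h4.trans ?_
      rw [← mul_le_mul_iff_right₀ v0]
      have q1 := mul_le_mul_of_nonneg_left M1 (show 0 ≤ 2 * μ * lam * w by positivity)
      have q2 := mul_le_mul_of_nonneg_right hlam (show 0 ≤ 2 * lam * w ^ 3 by positivity)
      have q3 := mul_le_mul_of_nonneg_right hε (pow_pos w0 3).le
      linarith only [q1, q2, q3]
    exact hg ⟨fun k hk k' hk' => abs_sub_le_iff.2 ⟨y2 k hk k' hk', y2 k' hk' k hk⟩, y4,
      fun k hk k' hk' => abs_sub_le_iff.2 ⟨y5 k hk k' hk', y5 k' hk' k hk⟩⟩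
  · rw [hw, hv, card_univ]
    have p0 : (0 : ℝ) ≤ 1 / 2 ^ J := by positivity
    have c1 : (Fintype.card ι : ℝ) * (w ^ 2 * (1 / 2 ^ J)) ≤
        2 * w ^ 2 * (K * w ^ 2 * (w ^ 2 * (1 / 2 ^ J))) :=
      mul_le_mul hι (le_mul_of_one_le_left (by positivity) (by linarith only [Kw]))
        (by positivity) (by positivity)
    have c2 : (Fintype.card ι : ℝ) * (v ^ 2 * (1 / 2 ^ J)) ≤
        (Fintype.card ι : ℝ) * (w ^ 2 * (1 / 2 ^ J)) := by gcongr
    have c3 : v ^ 2 * (v ^ 2 * (3 * K * w ^ 2 * (1 / 2 ^ J))) ≤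
        w ^ 2 * (w ^ 2 * (3 * K * w ^ 2 * (1 / 2 ^ J))) :=
      mul_le_mul hvw (mul_le_mul_of_nonneg_right hvw (mul_nonneg K3 p0))
        (mul_nonneg (sq_nonneg v) (mul_nonneg K3 p0)) (sq_nonneg w)
    rw [div_eq_mul_one_div (13 * K * w ^ 6)]
    linarith only [c1, c2, c3]

end Pool.Agent.Work.MP_1d48d5_pr.CLT
end

-- merged part: Pool.Agent.Work.MP_1d48d5_pr.D2
section
/-! Laws of large numbers for any number of heavy rows. -/

open Finset

namespace Pool.Agent.Work.MP_1d48d5_pr.CLT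

variable {ι : Type} [Fintype ι] [DecidableEq ι]
variable {L : Finset ι} {r : ι → ℤ} {X : ι → ι → ℤ} {i j l k k' : ι} {lam w ε d C x0 x R r0 : ℝ}

/-- The full good event. -/
def good3 (L : Finset ι) (lam w ε : ℝ) (X : ι → ι → ℤ) : Prop :=
  (good L lam w X ∧ good L lam w (tr X)) ∧ extra L lam w ε X ∧ extra L lam w ε (tr X)

/-- Assumptions on the sizes. -/
structure Hyp3 (L : Finset ι) (r : ι → ℤ) (lam w ε d C x0 x R r0 : ℝ) : Prop
    extends Hyp L r lam w where
  e0 : 0 < ε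
  e1 : ε ≤ 1
  dc : (Lᶜ.card : ℝ) = d
  h1 : lam ^ 12 ≤ ε ^ 2 * w
  h2 : lam ^ 4 * d ≤ ε * w ^ 2
  h3 : lam ≤ ε ^ 2 * d
  C0 : 0 < C
  Cl : 1 + C ≤ lam * C
  xC : (x0 / (1 + x0)) ^ 2 = C / (1 + C)
  light : ∀ l ∈ L, (r l : ℝ) = r0
  heavy : ∀ i ∉ L, (r i : ℝ) = R
  rC : r0 ≤ C * w ^ 2
  rC' : C * w ^ 2 ≤ r0 + 1
  big : x0 * w ^ 2 + 2 * (w ^ 2 / lam) + lam * w + 1 ≤ R
  Rle : R + w ^ 2 ≤ lam * w ^ 2
  xl : 1 ≤ lam * x
  xx : x ≤ x0
  x0l : 1 + x0 ≤ lam
  sx : x * d ≤ r0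
  root : (x / (1 + x)) ^ 2 =
    (R - x * w ^ 2) / (R - x * w ^ 2 + d) * ((r0 - x * d) / (r0 - x * d + w ^ 2))
  bad3 : Pr r (fun X => ¬ good3 L lam w ε X) * w ^ 4 ≤ 1

lemma agap {T D : ℝ} (hl : 0 < lam) (h1 : 1 ≤ lam * x) (h2 : 1 + x ≤ lam) (hT : 0 ≤ T) (hD : 0 < D)
    (hK : T + D ≤ lam * D) : ∃ G, D ≤ lam ^ 4 * G ∧
      (D * T / (T + D)) ^ 2 - (x / (1 + x)) ^ 2 * D ^ 2 = G * (T - x * D) := by
  have hx : 0 < x := (mul_pos_iff_of_pos_left hl).1 (by linarith)
  refine ⟨(D * T / (T + D) + x / (1 + x) * D) * (D / ((T + D) * (1 + x))), ?_, by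
    field_simp; ring⟩
  calc D ≤ lam * x * D := le_mul_of_one_le_left hD.le h1
    _ = lam ^ 4 * ((0 + x / lam * D) * (D / (lam * D * lam))) := by field_simp; ring
    _ ≤ _ := by gcongr; positivity

lemma psi_mono {a b c : ℝ} (hc : 0 < c) (ha : 0 ≤ a) (h : a ≤ b) : a / (a + c) ≤ b / (b + c) := by
  rw [div_le_div_iff₀ (by positivity) (by linarith)]
  nlinarith

lemma prod_sub {A B P D F : ℝ} (a1 : 0 ≤ A) (a2 : A ≤ D) (a3 : 0 ≤ P) (a4 : P ≤ D) (hF : |F| ≤ 1) :
    |(P ^ 2 - A * B) * F| ≤ D * |A - P| + D * |B - P| := by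
  rw [abs_mul]
  refine (mul_le_of_le_one_right (abs_nonneg _) hF).trans ?_
  rw [show P ^ 2 - A * B = -(P * (A - P) + A * (B - P)) by ring, abs_neg]
  refine (abs_add_le _ _).trans ?_
  rw [abs_mul, abs_mul, abs_of_nonneg a1, abs_of_nonneg a3]
  exact add_le_add (mul_le_mul_of_nonneg_right a4 (abs_nonneg _))
    (mul_le_mul_of_nonneg_right a2 (abs_nonneg _))

lemma sum_zh (h : (Lᶜ.card : ℝ) ≠ 0) : ∑ k ∈ Lᶜ, zh L X k = 0 := by
  simp only [zh, sum_sub_distrib, sum_const, nsmul_eq_mul, mul_div_cancel₀ _ h, sub_self]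

namespace Hyp3

variable (h : Hyp3 L r lam w ε d C x0 x R r0)
include h

lemma pw (a : ℕ) (ha : a ≤ 12) : lam ^ a ≤ ε ^ 2 * w :=
  (pow_le_pow_right₀ h.lam1 ha).trans h.h1

lemma pw' (a : ℕ) (ha : a ≤ 12) : lam ^ a ≤ ε * w :=
  (h.pw a ha).trans (by have := h.w0; have := h.e0; gcongr; nlinarith [h.e1])

lemma ew : 1 ≤ ε * w := by simpa using h.pw' 0 (by norm_num)

lemma ed : 1 ≤ ε ^ 2 * d := h.lam1.trans h.h3

lemma d0 : 0 < d := (mul_pos_iff_of_pos_left (pow_pos h.e0 2)).1 (by linarith [h.ed])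

lemma pd (a : ℕ) (ha : a ≤ 4) : lam ^ a * d ≤ ε * w ^ 2 :=
  (mul_le_mul_of_nonneg_right (pow_le_pow_right₀ h.lam1 ha) h.d0.le).trans h.h2

lemma dle : d ≤ w ^ 2 := by
  have := h.pd 0 (by norm_num)
  nlinarith [h.e1, sq_nonneg w]

lemma xp : 0 < x := (mul_pos_iff_of_pos_left h.lam0).1 (by linarith [h.xl])

lemma ex3 {F G : (ι → ι → ℤ) → ℝ} {A B : ℝ} (hA : 0 ≤ A) (hB : 0 ≤ B)
    (h1 : ∀ X ∈ tab r r, good3 L lam w ε X → F X ≤ G X + A)
    (h2 : ∀ X ∈ tab r r, ¬ good3 L lam w ε X → F X ≤ G X + B * w ^ 4) :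
    Ex r F ≤ Ex r G + (A + B) := by
  classical
  have h3 : Ex r F ≤ Ex r fun X => G X + A + B * w ^ 4 *
      if ¬ good3 L lam w ε X then 1 else 0 := Ex_mono fun X hX => by
    split_ifs with hg
    · simpa using h1 X hX hg
    · linarith [h2 X hX hg]
  rw [Ex_add, Ex_add, Ex_mul, ← Pr_eq] at h3
  have := mul_le_mul_of_nonneg_left h.bad3 hB
  linarith [Ex_const_le (r := r) hA]

lemma ex3' {F : (ι → ι → ℤ) → ℝ} {A B : ℝ} (hA : 0 ≤ A) (hB : 0 ≤ B)
    (h1 : ∀ X ∈ tab r r, good3 L lam w ε X → F X ≤ A)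
    (h2 : ∀ X ∈ tab r r, ¬ good3 L lam w ε X → F X ≤ B * w ^ 4) : Ex r F ≤ A + B := by
  have := h.ex3 (F := F) (G := fun _ => 0) hA hB (by simpa using h1) (by simpa using h2)
  linarith [Ex_const_le (r := r) (le_refl 0)]

lemma Y_abs (i : ι) : Ex r (fun X => |Y L X i|) ≤ 30 * (ε * w ^ 3) := by
  have := h.w0; have := h.e0
  refine Ex_abs_le (by positivity) ((h.Y_sq i).trans ?_)
  linarith [mul_le_mul_of_nonneg_right (h.pw 9 (by norm_num)) (pow_pos h.w0 5).le]

lemma om_sq {S : Finset ι} (hS : lam ≤ ε ^ 2 * S.card) :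
    Ex r (fun X => (∑ i ∈ S, u L X i) ^ 2) ≤ (43 * (ε * w * S.card)) ^ 2 := by
  have hw := h.w0; have := h.e0; have := h.lam0
  have hm : (0 : ℝ) < S.card := (mul_pos_iff_of_pos_left (pow_pos h.e0 2)).1 (by linarith)
  refine (h.omega_sq (card_pos.1 (by exact_mod_cast hm)) fun i _ => h.Y_sq i).trans ?_
  rw [show 2 * lam ^ 2 * (900 * (lam ^ 9 * w ^ 5)) / w ^ 4 = 1800 * (lam ^ 11 * w ^ 1) by field_simp; ring]
  have h1 := mul_le_mul_of_nonneg_right hS (show 0 ≤ w ^ 2 * S.card by positivity)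
  have h2 := mul_le_mul_of_nonneg_right (h.pw 11 (by norm_num)) (show 0 ≤ w * S.card ^ 2 by positivity)
  have h3 := mul_le_mul_of_nonneg_right (h.mono 2 0 11 1 (by norm_num))
    (sq_nonneg (S.card : ℝ))
  have : 0 ≤ ε ^ 2 * w ^ 2 * S.card ^ 2 := by positivity
  linarith

lemma hL : lam ≤ ε ^ 2 * L.card := by
  rw [h.wsq]
  have := h.pw 1 (by norm_num)
  nlinarith [h.w1, mul_pos (pow_pos h.e0 2) h.w0]

lemma heavy_sum (hX : X ∈ tab r r) : ∑ i ∈ Lᶜ, rs Lᶜ X i = d * R - Tt L X := by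
  rw [eq_sub_iff_add_eq', Tt, ← sum_add_distrib, sum_congr rfl fun i hi =>
    (rs_add hX i).trans (h.heavy i (mem_compl.1 hi)), sum_const, nsmul_eq_mul, h.dc]

lemma light_sum (hX : X ∈ tab r r) : ∑ i ∈ L, rs L X i = w ^ 2 * r0 - Tt L X := by
  rw [eq_sub_iff_add_eq, ← Tt_tr hX, show Tt L (tr X) = ∑ i ∈ L, rs Lᶜ X i from sum_comm,
    ← sum_add_distrib, sum_congr rfl fun i hi => (rs_add hX i).trans (h.light i hi), sum_const,
    nsmul_eq_mul, h.wsq]

lemma Tt_mem (hX : X ∈ tab r r) : 0 ≤ Tt L X ∧ Tt L X + d * w ^ 2 ≤ lam * (d * w ^ 2) ∧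
    0 ≤ R - Tt L X / d ∧ 0 ≤ r0 - Tt L X / w ^ 2 := by
  have h1 : 0 ≤ d * R - Tt L X := h.heavy_sum hX ▸ sum_nonneg fun i _ => rs_nonneg hX i
  have h2 : 0 ≤ w ^ 2 * r0 - Tt L X := h.light_sum hX ▸ sum_nonneg fun i _ => rs_nonneg hX i
  refine ⟨sum_nonneg fun i _ => rs_nonneg hX i, ?_, ?_, ?_⟩
  · linarith [mul_le_mul_of_nonneg_left h.Rle h.d0.le]
  · rw [sub_nonneg, div_le_iff₀' h.d0]
    linarith
  · rw [sub_nonneg, div_le_iff₀' (pow_pos h.w0 2)]
    linarith

lemma spread (hg : good3 L lam w ε X) (hi : i ∉ L) : |rs L X i - Tt L X / d| ≤ lam * w :=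
  h.dc ▸ dev_le (fun a ha b hb => hg.1.1.2.2.2 a (mem_compl.1 ha) b (mem_compl.1 hb))
    (mem_compl.2 hi)

lemma Sbar {S : Finset ι} (hS : lam ≤ ε ^ 2 * S.card) (sp : ∀ X, good3 L lam w ε X →
    ∀ a ∈ S, ∀ b ∈ S, |rs L X a - rs L X b| ≤ lam * w) :
    Ex r (fun X => |∑ i ∈ S, U L X i - S.card * (w ^ 2 * ((∑ i ∈ S, rs L X i) / S.card) /
      ((∑ i ∈ S, rs L X i) / S.card + w ^ 2))|) ≤ 45 * (ε * w * S.card) := by
  have hw := h.w0; have := h.e0; have := h.lam0
  have hd : (0 : ℝ) < S.card := (mul_pos_iff_of_pos_left (pow_pos h.e0 2)).1 (by linarith)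
  have key : ∀ X ∈ tab r r, ∀ z : ℝ, 0 ≤ z →
      (∀ a ∈ S, ∀ b ∈ S, |rs L X a - rs L X b| ≤ z * w) →
      |∑ i ∈ S, U L X i - S.card * (w ^ 2 * ((∑ i ∈ S, rs L X i) / S.card) /
        ((∑ i ∈ S, rs L X i) / S.card + w ^ 2))| ≤ |∑ i ∈ S, u L X i| + S.card * z ^ 2 :=
    fun X hX z z0 hz => by
    have h0 : 0 ≤ ∑ i ∈ S, rs L X i := sum_nonneg fun i _ => rs_nonneg hX i
    generalize hσ : (∑ i ∈ S, rs L X i) / S.card = σ
    have σ0 : 0 ≤ σ := hσ ▸ div_nonneg h0 hd.le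
    have e1 : ∑ i ∈ S, U L X i - S.card * (w ^ 2 * σ / (σ + w ^ 2)) = ∑ i ∈ S, u L X i +
        ∑ i ∈ S, (w ^ 2 * rs L X i / (rs L X i + w ^ 2) - w ^ 2 * σ / (σ + w ^ 2) -
          (w ^ 2) ^ 2 / (σ + w ^ 2) ^ 2 * (rs L X i - σ)) := by
      simp only [u, sum_sub_distrib, ← mul_sum, sum_const, nsmul_eq_mul, h.wsq]
      rw [(div_eq_iff hd.ne').1 hσ]
      ring
    rw [e1]
    refine (abs_add_le _ _).trans (add_le_add le_rfl ((abs_sum_le_sum_abs _ _).trans ?_))
    simpa using sum_le_card_nsmul S _ (z ^ 2) fun i hi =>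
      (phi_sub2 (by positivity) (rs_nonneg hX i) σ0).trans (by
        have h2 := dev_le hz hi
        rw [div_le_iff₀ (by positivity), ← mul_pow, ← hσ]
        exact sq_le_sq' (abs_le.1 h2).1 (abs_le.1 h2).2)
  have h1 := h.ex3 (A := S.card * lam ^ 2) (B := S.card * lam ^ 2) (by positivity) (by positivity)
    (fun X hX hg => key X hX _ this.le (sp X hg))
    (fun X hX _ => (key X hX (lam * w ^ 2) (by positivity) fun a _ b _ => by
      have h5 := h.mono 1 2 1 3 (by norm_num)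
      rw [abs_le]
      constructor <;> linarith [rs_nonneg (L := L) hX a, rs_nonneg (L := L) hX b, h.rs_le hX a,
        h.rs_le hX b, sq_nonneg w]).trans_eq (by ring))
  have h2 := Ex_abs_le (by positivity) (h.om_sq hS)
  linarith [mul_le_mul_of_nonneg_left (h.pw' 2 (by norm_num)) hd.le]

lemma Ubar : Ex r (fun X => |∑ i ∈ Lᶜ, U L X i - d * w ^ 2 * Tt L X / (Tt L X + d * w ^ 2)|) ≤
    45 * (ε * w * d) := by
  have := h.d0; have := h.w0
  have h1 := h.Sbar (S := Lᶜ) (h.dc ▸ h.h3) fun X hg a ha b hb =>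
    hg.1.1.2.2.2 a (mem_compl.1 ha) b (mem_compl.1 hb)
  rw [h.dc] at h1
  refine le_trans (le_of_eq (Ex_congr fun X hX => ?_)) h1
  have := (h.Tt_mem hX).1
  rw [← Tt]
  congr 2
  field_simp

lemma Nbar : Ex r (fun X => |∑ j ∈ Lᶜ, N L X j - d * w ^ 2 * Tt L X / (Tt L X + d * w ^ 2)|) ≤
    45 * (ε * w * d) := by
  refine le_trans (le_of_eq ?_) h.Ubar
  rw [← Ex_tr]
  exact Ex_congr fun X hX => by rw [Tt_tr hX]; rfl

lemma Qbar : Ex r (fun X => |Q L X - w ^ 2 * (w ^ 2 * (r0 - Tt L X / w ^ 2) /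
    (r0 - Tt L X / w ^ 2 + w ^ 2))|) ≤ 45 * (ε * w ^ 3) := by
  have := h.w0
  have h1 := h.Sbar h.hL fun X hg => hg.2.1.1
  rw [h.wsq] at h1
  refine le_trans (le_of_eq (Ex_congr fun X hX => ?_)) (h1.trans_eq (by ring))
  rw [h.light_sum hX, Q_eq, sub_div, mul_div_cancel_left₀ _ (by positivity)]

lemma Yp_abs (hi : i ∉ L) : Ex r (fun X => |Yp L X i|) ≤ 3 * (ε * w ^ 3) := by
  have hw := h.w0; have := h.e0; have := h.lam0; have hd := h.d0
  refine (h.ex3' (A := ε * w ^ 3 + lam ^ 2 * w ^ 2) (B := lam) (by positivity) this.le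
    (fun X hX hg => ?_) fun X hX _ => ?_).trans ?_
  · have h1 := dev_le (fun a ha b hb => hg.2.1.2.2 a (mem_compl.1 ha) b (mem_compl.1 hb))
      (mem_compl.2 hi)
    have e1 : ∑ a ∈ Lᶜ, Yp L X a = ∑ j ∈ Lᶜ, (rs L (tr X) i - rs L (tr X) j) * zh L X j := by
      have e2 : ∀ j ∈ Lᶜ, ∑ a ∈ Lᶜ, X a j * zh L X j =
          (rs L (tr X) i - rs L (tr X) j) * zh L X j + (R - rs L (tr X) i) * zh L X j :=
        fun j hj => by
        rw [← sum_mul, show ∑ a ∈ Lᶜ, (X a j : ℝ) = rs Lᶜ (tr X) j from rfl,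
          ← h.heavy j (mem_compl.1 hj), ← rs_add (L := L) (tr_mem.2 hX) j]
        ring
      rw [show ∑ a ∈ Lᶜ, Yp L X a = ∑ j ∈ Lᶜ, ∑ a ∈ Lᶜ, X a j * zh L X j from sum_comm,
        sum_congr rfl e2, sum_add_distrib, ← mul_sum, sum_zh (h.dc ▸ hd.ne'), mul_zero, add_zero]
    have h2 : |(∑ a ∈ Lᶜ, Yp L X a) / Lᶜ.card| ≤ lam ^ 2 * w ^ 2 := by
      rw [h.dc, abs_div, abs_of_pos hd, div_le_iff₀' hd, e1]
      simpa [h.dc] using (abs_sum_le_sum_abs _ _).trans (sum_le_card_nsmul Lᶜ _ (lam ^ 2 * w ^ 2)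
        fun j hj => by
          rw [abs_mul]
          exact (mul_le_mul (hg.1.2.2.2.2 i hi j (mem_compl.1 hj)) (dev_le (fun a ha b hb =>
            hg.2.1.2.1 a (mem_compl.1 ha) b (mem_compl.1 hb)) hj) (abs_nonneg _)
            (by positivity)).trans_eq (by ring))
    rw [abs_le] at h1 h2 ⊢
    constructor <;> linarith [h1.1, h1.2, h2.1, h2.2]
  · refine (abs_sum_le_sum_abs _ _).trans ((sum_le_sum (g := fun j => X i j * w ^ 2)
      fun j hj => ?_).trans ?_)
    · have h0 : (0 : ℝ) ≤ X i j := Int.cast_nonneg ((mem_tab.1 hX).1 i j)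
      rw [abs_mul, abs_of_nonneg h0]
      refine mul_le_mul_of_nonneg_left (dev_le (fun a _ b _ => ?_) hj) h0
      rw [abs_le, ← h.wsq]
      constructor <;> linarith [N_mem (L := L) (X := X) a, N_mem (L := L) (X := X) b]
    · rw [← sum_mul, ← rs]
      have h1 : rs Lᶜ X i ≤ lam * w ^ 2 := by
        linarith [CLT.rs_le (L := Lᶜ) hX i, h.rle i, sq_nonneg w]
      linarith [mul_le_mul_of_nonneg_right h1 (sq_nonneg w)]
  · linarith [mul_le_mul_of_nonneg_right (h.pw' 2 (by norm_num)) (sq_nonneg w),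
      h.mono 1 0 2 2 (by norm_num)]

lemma fu (i : ι) {f : ℝ → ℝ} (hf : ∀ X ∈ tab r r, |f (rs L X i)| ≤ 1) :
    |Ex r fun X => f (rs L X i) * u L X i| ≤ 2000 * lam * (ε * w) := by
  have hw := h.w0; have := h.e0; have := h.lam0; have := h.C0; have hd := h.d0
  have h1 := h.line1 i (f := fun X => f (rs L X i)) (c := 0) le_rfl fun X _ k hk k' hk' l => by
    simp [rs_sw, hk, hk']
  have h2 : (Ex r fun X => 2 * w ^ 2 * |f (rs L X i)| + |f (rs L X i)| * |Y L X i|) ≤
      Ex r fun X => 2 * w ^ 2 + |Y L X i| := Ex_mono fun X hX =>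
    add_le_add (mul_le_of_le_one_right (by positivity) (hf X hX))
      (mul_le_of_le_one_left (abs_nonneg _) (hf X hX))
  have h3 : |Ex r fun X => f (rs L X i) * ((Q L X - C / (1 + C) * w ^ 4) / w ^ 2 * u L X i)| ≤
      Ex r fun X => (∑ i ∈ L, u L X i) ^ 2 / w ^ 4 + u L X i ^ 2 + lam * d * |u L X i| :=
    abs_Ex_le.trans (Ex_mono fun X hX => by
      have h2 : |Q L X - C / (1 + C) * w ^ 4 - ∑ i ∈ L, u L X i| ≤ lam * d * w ^ 2 := by
        have hT := h.Tt_mem hX
        have e1 : Q L X - C / (1 + C) * w ^ 4 - ∑ i ∈ L, u L X i = ∑ i ∈ L,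
            (w ^ 2 * rs L X i / (rs L X i + w ^ 2) - w ^ 2 * (C * w ^ 2) / (C * w ^ 2 + w ^ 2)) := by
          simp only [Q_eq, u, sum_sub_distrib, sum_const, nsmul_eq_mul, h.wsq]
          field_simp
          ring
        rw [e1]
        refine (abs_sum_le_sum_abs _ _).trans ((sum_le_sum (g := fun i => 1 + r0 - rs L X i)
          fun i hi => (phi_sub (by positivity) (rs_nonneg hX i) (by positivity)).trans ?_).trans ?_)
        · rw [abs_le]
          constructor <;> linarith [CLT.rs_le (L := L) hX i, h.light i hi, h.rC, h.rC']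
        · rw [sum_sub_distrib, h.light_sum hX, sum_const, nsmul_eq_mul, h.wsq]
          have h3 : 1 ≤ d := by nlinarith [h.ed, h.e1, mul_pos h.e0 hd]
          linarith [hT.2.1, mul_le_mul_of_nonneg_right h3 (sq_nonneg w)]
      rw [abs_mul]
      refine (mul_le_of_le_one_left (abs_nonneg _) (hf X hX)).trans ?_
      rw [show (Q L X - C / (1 + C) * w ^ 4) / w ^ 2 * u L X i = (∑ i ∈ L, u L X i) / w ^ 2 * u L X i +
        (Q L X - C / (1 + C) * w ^ 4 - ∑ i ∈ L, u L X i) / w ^ 2 * u L X i by ring]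
      refine (abs_add_le _ _).trans (add_le_add ?_ ?_)
      · rw [show w ^ 4 = (w ^ 2) ^ 2 by ring, ← div_pow, abs_le]
        constructor <;> nlinarith only [sq_nonneg ((∑ i ∈ L, u L X i) / w ^ 2 - u L X i),
          sq_nonneg ((∑ i ∈ L, u L X i) / w ^ 2 + u L X i), sq_nonneg ((∑ i ∈ L, u L X i) / w ^ 2),
          sq_nonneg (u L X i)]
      · rw [abs_mul, abs_div, abs_sq]
        exact mul_le_mul_of_nonneg_right ((div_le_iff₀ (by positivity)).2 h2) (abs_nonneg _))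
  conv_rhs at h2 => rw [Ex_add]
  rw [Ex_add, Ex_add, Ex_div, Ex_mul, Ex_congr (G := fun X => f (rs L X i) *
    (Q L X / w ^ 2 * u L X i) - C / (1 + C) * w ^ 2 * (f (rs L X i) * u L X i))
    (fun X _ => by field_simp), Ex_sub, Ex_mul] at h3
  have h4 : Ex r (fun X => (∑ i ∈ L, u L X i) ^ 2) / w ^ 4 ≤ 1849 * (ε * w ^ 3) := by
    rw [div_le_iff₀ (by positivity)]
    refine (h.om_sq h.hL).trans ?_
    have : ε * 1 ≤ 1 * w := by gcongr; exacts [h.e1, h.w1]
    rw [h.wsq]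
    linarith [mul_le_mul_of_nonneg_right this (show 0 ≤ ε * w ^ 6 by positivity)]
  have h5 := mul_le_mul_of_nonneg_right (h.pw' 6 (by norm_num)) (sq_nonneg w)
  have h6 := mul_le_mul_of_nonneg_right h.ew (sq_nonneg w)
  have h7 := Ex_const_le (r := r) (c := 2 * w ^ 2) (by positivity)
  have h8 := mul_le_mul_of_nonneg_left (Ex_abs_le (by positivity) (h.u_sq i))
    (show 0 ≤ lam * d by positivity)
  have h9 := mul_le_mul_of_nonneg_right h.h2 hw.le
  have h10 : C / (1 + C) * |Ex r fun X => f (rs L X i) * u L X i| ≤ 2000 * (ε * w) := by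
    rw [← mul_le_mul_iff_right₀ (pow_pos hw 2), ← mul_assoc, ← abs_of_pos (a := w ^ 2 * _)
      (by positivity), ← abs_mul, abs_le]
    rw [abs_le] at h1 h3
    have : 0 ≤ ε * w ^ 3 := by positivity
    constructor <;> linarith [h1.1, h1.2, h3.1, h3.2, h.Y_abs i, h.u_sq i]
  have h11 : 1 ≤ lam * (C / (1 + C)) := by
    rw [← mul_div_assoc, one_le_div (by positivity)]
    exact h.Cl
  linarith [mul_le_mul_of_nonneg_left h10 h.lam0.le,
    mul_le_mul_of_nonneg_right h11 (abs_nonneg (Ex r fun X => f (rs L X i) * u L X i))]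

lemma wid (hi : i ∉ L) {F F' : (ι → ι → ℤ) → ℝ}
    (hF : ∀ X, ∀ j ∉ L, ∀ l ∈ L, ∀ k ∈ L, F (X + sw i l k j) = F' X) :
    (Ex r fun X => rs Lᶜ X i * Q L X * F' X) = Ex r fun X =>
      U L X i * ((rs Lᶜ X i + d) * ((∑ j ∈ Lᶜ, N L X j) / d) + Yp L X i) * F X := by
  have h1 : ∑ j ∈ Lᶜ, (Ex r fun X => ind (X i j) * Q L X * (X i j * F' X)) =
      ∑ j ∈ Lᶜ, Ex r fun X => U L X i * N L X j * ((X i j + 1) * F X) :=
    sum_congr rfl fun j hj => pair_id hi (mem_compl.1 hj) fun X l hl k hk => by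
      rw [hF X j (mem_compl.1 hj) l hl k hk]
      simp [sw, e, (ne_of_mem_of_not_mem hl hi).symm,
        (ne_of_mem_of_not_mem hk (mem_compl.1 hj)).symm]
  rw [← Ex_sum, ← Ex_sum] at h1
  refine (Ex_congr fun X hX => ?_).trans (h1.trans (Ex_congr fun X _ => ?_))
  · rw [rs, sum_mul, sum_mul]
    refine sum_congr rfl fun j _ => ?_
    linear_combination (-Q L X * F' X) * ind_mul_self ((mem_tab.1 hX).1 i j)
  · have e1 : ∀ j ∈ Lᶜ, U L X i * N L X j * ((X i j + 1) * F X) = U L X i * F X *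
        (X i j * zh L X j + zh L X j + (X i j + 1) * ((∑ j ∈ Lᶜ, N L X j) / d)) := fun j _ => by
      rw [zh, h.dc]
      ring
    rw [sum_congr rfl e1, ← mul_sum, sum_add_distrib, sum_add_distrib, sum_zh (h.dc ▸ h.d0.ne'),
      ← sum_mul, sum_add_distrib, sum_const, nsmul_eq_mul, h.dc, ← rs, ← Yp]
    ring

end Hyp3

end Pool.Agent.Work.MP_1d48d5_pr.CLT
end

-- merged part: Pool.Agent.Work.MP_1d48d5_pr.D3
section
/-! Localisation of the heavy-light block and the approximate recursion. -/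

open Finset

namespace Pool.Agent.Work.MP_1d48d5_pr.CLT

variable {ι : Type} [Fintype ι] [DecidableEq ι]
variable {L : Finset ι} {r : ι → ℤ} {X : ι → ι → ℤ} {i j l k k' : ι} {lam w ε d C x0 x R r0 : ℝ}

lemma clp_sub (y z : ℝ) : |clp y - clp z| ≤ |y - z| :=
  (abs_max_sub_max_le_max _ _ _ _).trans (max_le (by simp)
    ((abs_min_sub_min_le_max _ _ _ _).trans (by simp)))

lemma psi_mem {a c : ℝ} (hc : 0 < c) (ha : 0 ≤ a) : 0 ≤ a / (a + c) ∧ a / (a + c) ≤ 1 :=
  ⟨by positivity, div_le_one_of_le₀ (by linarith) (by positivity)⟩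

lemma cut_nonpos {y : ℝ} (h : y ≤ 0) : cut y ≤ 0 :=
  max_le (by norm_num) ((min_le_right _ _).trans h)

namespace Hyp3

variable (h : Hyp3 L r lam w ε d C x0 x R r0)
include h

lemma d1 : 1 ≤ d := h.ed.trans (mul_le_of_le_one_left h.d0.le (pow_le_one₀ h.e0.le h.e1))

lemma A_mem (X : ι → ι → ℤ) : 0 ≤ ∑ i ∈ Lᶜ, U L X i ∧ ∑ i ∈ Lᶜ, U L X i ≤ d * w ^ 2 :=
  ⟨sum_nonneg fun i _ => (U_mem i).1, by
    simpa [h.dc, h.wsq] using sum_le_card_nsmul Lᶜ _ _ fun i _ => (U_mem (L := L) (X := X) i).2⟩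

lemma AB (hX : X ∈ tab r r) {F : ℝ} (hF : |F| ≤ 1) :
    |((d * w ^ 2 * Tt L X / (Tt L X + d * w ^ 2)) ^ 2 -
      (∑ i ∈ Lᶜ, U L X i) * ∑ j ∈ Lᶜ, N L X j) * F| ≤
    d * w ^ 2 * |∑ i ∈ Lᶜ, U L X i - d * w ^ 2 * Tt L X / (Tt L X + d * w ^ 2)| +
      d * w ^ 2 * |∑ j ∈ Lᶜ, N L X j - d * w ^ 2 * Tt L X / (Tt L X + d * w ^ 2)| := by
  have hw := h.w0; have hd := h.d0; have := (h.Tt_mem hX).1
  refine prod_sub (h.A_mem X).1 (h.A_mem X).2 (by positivity) ?_ hF
  rw [mul_div_assoc]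
  exact mul_le_of_le_one_right (by positivity) (psi_mem (by positivity) this).2

lemma up : Pr r (fun X => (x0 + 1 / lam) * (d * w ^ 2) ≤ Tt L X) * w ≤ 136 * lam ^ 5 * ε := by
  have hw := h.w0; have := h.e0; have hd := h.d0; have hl := h.lam0; have := h.C0
  have hD : 0 < d * w ^ 2 := by positivity
  set F : (ι → ι → ℤ) → ℝ := fun X => clp ((Tt L X - x0 * (d * w ^ 2)) / (d * w ^ 2 / lam))
    with hF
  set F' : (ι → ι → ℤ) → ℝ := fun X => clp ((Tt L X + 1 - x0 * (d * w ^ 2)) / (d * w ^ 2 / lam))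
    with hF'
  have h1 : Ex r (fun X => ∑ i ∈ Lᶜ, ∑ j ∈ Lᶜ, ind (X i j) * Q L X * F' X) =
      Ex r fun X => (∑ i ∈ Lᶜ, U L X i) * (∑ j ∈ Lᶜ, N L X j) * F X := by
    simp only [sum_mul_sum]
    simp only [sum_mul, Ex_sum]
    exact sum_congr rfl fun i hi => sum_congr rfl fun j hj => pair_id (mem_compl.1 hi)
      (mem_compl.1 hj) fun X l hl k hk => by
        simp only [hF, hF', Tt_sw (mem_compl.1 hi) (mem_compl.1 hj) hl hk]
  have key : ∀ X ∈ tab r r, (d * w ^ 2) ^ 2 / lam ^ 5 *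
      (if (x0 + 1 / lam) * (d * w ^ 2) ≤ Tt L X then 1 else 0) ≤
      (∑ i ∈ Lᶜ, U L X i) * (∑ j ∈ Lᶜ, N L X j) * F X -
        ∑ i ∈ Lᶜ, ∑ j ∈ Lᶜ, ind (X i j) * Q L X * F' X +
      d * w ^ 2 * |∑ i ∈ Lᶜ, U L X i - d * w ^ 2 * Tt L X / (Tt L X + d * w ^ 2)| +
      d * w ^ 2 * |∑ j ∈ Lᶜ, N L X j - d * w ^ 2 * Tt L X / (Tt L X + d * w ^ 2)| +
      d ^ 2 * |Q L X - w ^ 2 * (w ^ 2 * (r0 - Tt L X / w ^ 2) / (r0 - Tt L X / w ^ 2 + w ^ 2))| +
      lam * (d * w ^ 2) := fun X hX => by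
    obtain ⟨t0, t1, -, t3⟩ := h.Tt_mem hX
    have f0 : 0 ≤ F X ∧ F X ≤ 1 := clp_mem _
    have f1 : 0 ≤ F' X ∧ F' X ≤ 1 := clp_mem _
    have s1 : ∑ i ∈ Lᶜ, ∑ j ∈ Lᶜ, ind (X i j) * Q L X * F' X ≤ d ^ 2 * (Q L X * F' X) := by
      refine (sum_le_sum fun i _ => sum_le_sum (g := fun _ => Q L X * F' X) fun j _ => ?_).trans_eq
        (by simp [h.dc, sq, mul_assoc])
      rw [mul_assoc]
      exact mul_le_of_le_one_left (mul_nonneg Q_mem.1 f1.1) (ind_le_one _)
    have s0 : w ^ 2 * (w ^ 2 * (r0 - Tt L X / w ^ 2) / (r0 - Tt L X / w ^ 2 + w ^ 2)) ≤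
        C / (1 + C) * w ^ 4 := by
      have := psi_mono (pow_pos hw 2) t3 (b := C * w ^ 2)
        (by linarith only [h.rC, div_nonneg t0 (sq_nonneg w)])
      rw [show C * w ^ 2 / (C * w ^ 2 + w ^ 2) = C / (1 + C) by field_simp; ring] at this
      rw [mul_div_assoc]
      linarith only [mul_le_mul_of_nonneg_left this (pow_pos hw 4).le]
    generalize w ^ 2 * (w ^ 2 * (r0 - Tt L X / w ^ 2) / (r0 - Tt L X / w ^ 2 + w ^ 2)) = W at s0
    have s2 : (Q L X - W) * F' X ≤ |Q L X - W| := (mul_le_mul_of_nonneg_right (le_abs_self _)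
      f1.1).trans (mul_le_of_le_one_right (abs_nonneg _) f1.2)
    have s3 : F' X - F X ≤ lam / (d * w ^ 2) := ((le_abs_self _).trans (clp_sub _ _)).trans_eq (by
      rw [← sub_div, add_sub_right_comm, add_sub_cancel_left, abs_of_pos (by positivity),
        one_div_div])
    have s4 : C / (1 + C) * (d * w ^ 2) ^ 2 * (F' X - F X) ≤ lam * (d * w ^ 2) :=
      calc _ ≤ C / (1 + C) * (d * w ^ 2) ^ 2 * (lam / (d * w ^ 2)) := by gcongr
        _ ≤ 1 * (d * w ^ 2) ^ 2 * (lam / (d * w ^ 2)) := by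
          gcongr
          exact div_le_one_of_le₀ (by linarith) (by positivity)
        _ = _ := by field_simp
    have s5 := (abs_le.1 (h.AB hX (F := F X) (abs_le.2 ⟨by linarith only [f0.1], f0.2⟩))).2
    obtain ⟨G, g1, g2⟩ := agap hl (h.xl.trans (mul_le_mul_of_nonneg_left h.xx hl.le)) h.x0l t0 hD t1
    have G0 : 0 < G := (mul_pos_iff_of_pos_left (pow_pos hl 4)).1 (hD.trans_le g1)
    have s6 : (d * w ^ 2) ^ 2 / lam ^ 5 *
        (if (x0 + 1 / lam) * (d * w ^ 2) ≤ Tt L X then 1 else 0) ≤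
        G * (Tt L X - x0 * (d * w ^ 2)) * F X := by
      split_ifs with ht
      · have e1 : d * w ^ 2 / lam ≤ Tt L X - x0 * (d * w ^ 2) := by
          rw [div_eq_mul_one_div]
          linarith only [ht]
        have e2 : F X = 1 := by
          simp only [hF, clp]
          rw [min_eq_left ((one_le_div (by positivity)).2 e1), max_eq_right zero_le_one]
        rw [e2, mul_one, mul_one]
        calc _ = d * w ^ 2 / lam ^ 4 * (d * w ^ 2 / lam) := by field_simp
          _ ≤ _ := mul_le_mul ((div_le_iff₀' (by positivity)).2 g1) e1 (by positivity) G0.le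
      · rw [mul_zero]
        rcases le_total (Tt L X - x0 * (d * w ^ 2)) 0 with e1 | e1
        · have e2 : F X = 0 := max_eq_left ((min_le_right _ _).trans
            (div_nonpos_of_nonpos_of_nonneg e1 (by positivity)))
          rw [e2, mul_zero]
        · exact mul_nonneg (mul_nonneg G0.le e1) f0.1
    rw [← g2, h.xC] at s6
    linarith only [s1, s4, s5, s6, mul_le_mul_of_nonneg_left s2 (sq_nonneg d),
      mul_le_mul_of_nonneg_left (mul_le_mul_of_nonneg_right s0 f1.1) (sq_nonneg d)]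
  have h4 := Ex_mono key
  simp only [Ex_add, Ex_sub, Ex_mul, h1, sub_self, ← Pr_eq] at h4
  have h5 := Ex_const_le (r := r) (c := lam * (d * w ^ 2)) (by positivity)
  rw [Ex_mul, Ex_mul] at h5
  have h7 := mul_le_mul_of_nonneg_left h.Ubar hD.le
  have h8 := mul_le_mul_of_nonneg_left h.Nbar hD.le
  have h9 := mul_le_mul_of_nonneg_left h.Qbar (sq_nonneg d)
  have h10 : lam ≤ ε * w * d := h.h3.trans (by
    rw [sq]
    gcongr
    exact h.e1.trans h.w1)
  rw [← mul_le_mul_iff_right₀ (show 0 < d ^ 2 * w ^ 3 / lam ^ 5 by positivity),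
    show d ^ 2 * w ^ 3 / lam ^ 5 * (136 * lam ^ 5 * ε) = 136 * (d ^ 2 * (ε * w ^ 3)) by field_simp,
    show ∀ p, d ^ 2 * w ^ 3 / lam ^ 5 * (p * w) = (d * w ^ 2) ^ 2 / lam ^ 5 * p from
      fun p => by ring]
  linarith only [h4, h5, h7, h8, h9, mul_le_mul_of_nonneg_right h10 hD.le]

lemma tau3 : Ex r (fun X => |Tt L X - x * (d * w ^ 2)|) ≤ 278 * lam ^ 6 * (ε * w * d) := by
  have hw := h.w0; have := h.e0; have hd := h.d0; have hl := h.lam0; have hx := h.xp
  have hD : 0 < d * w ^ 2 := by positivity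
  set M := w / ε with hM
  have M0 : 0 < M := by positivity
  set F : (ι → ι → ℤ) → ℝ := fun X => cut ((Tt L X - x * (d * w ^ 2)) / M) with hF
  set F' : (ι → ι → ℤ) → ℝ := fun X => cut ((Tt L X + 1 - x * (d * w ^ 2)) / M) with hF'
  have h1 : ∑ i ∈ Lᶜ, (Ex r fun X => rs Lᶜ X i * Q L X * F' X) = ∑ i ∈ Lᶜ, Ex r fun X =>
      U L X i * ((rs Lᶜ X i + d) * ((∑ j ∈ Lᶜ, N L X j) / d) + Yp L X i) * F X :=
    sum_congr rfl fun i hi => h.wid (mem_compl.1 hi) fun X j hj l hl k hk => by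
      simp only [hF, hF', Tt_sw (mem_compl.1 hi) hj hl hk]
  rw [← Ex_sum, ← Ex_sum] at h1
  have big1 : x * w ^ 2 ≤ R := by
    linarith only [h.big, mul_le_mul_of_nonneg_right h.xx (sq_nonneg w), mul_pos hl hw,
      div_pos (pow_pos hw 2) hl]
  have key : ∀ X ∈ tab r r, w ^ 4 / lam ^ 5 * |Tt L X - x * (d * w ^ 2)| ≤
      ∑ i ∈ Lᶜ, U L X i * ((rs Lᶜ X i + d) * ((∑ j ∈ Lᶜ, N L X j) / d) + Yp L X i) * F X -
        ∑ i ∈ Lᶜ, rs Lᶜ X i * Q L X * F' X +
      lam * w ^ 4 * |∑ i ∈ Lᶜ, U L X i - d * w ^ 2 * Tt L X / (Tt L X + d * w ^ 2)| +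
      lam * w ^ 4 * |∑ j ∈ Lᶜ, N L X j - d * w ^ 2 * Tt L X / (Tt L X + d * w ^ 2)| +
      lam * (d * w ^ 2) *
        |Q L X - w ^ 2 * (w ^ 2 * (r0 - Tt L X / w ^ 2) / (r0 - Tt L X / w ^ 2 + w ^ 2))| +
      w ^ 2 * |∑ i ∈ Lᶜ, U L X i * (rs Lᶜ X i - (R - Tt L X / d))| +
      ∑ i ∈ Lᶜ, w ^ 2 * |Yp L X i| +
      w ^ 4 / lam ^ 5 * (lam * (d * w ^ 2)) *
        (if (x0 + 1 / lam) * (d * w ^ 2) ≤ Tt L X then 1 else 0) +
      (w ^ 4 / lam ^ 5 * M + lam * ε * d * w ^ 5) := fun X hX => by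
    obtain ⟨t0, t1, t2, t3⟩ := h.Tt_mem hX
    have f0 : |F X| ≤ 1 := abs_cut _
    have f1 : |F' X| ≤ 1 := abs_cut _
    have hs := h.heavy_sum hX
    have s5 := h.AB hX f0
    obtain ⟨G, g1, g2⟩ := agap hl h.xl (by linarith only [h.xx, h.x0l]) t0 hD t1
    have b4 := mul_cut (Tt L X - x * (d * w ^ 2)) M0
    have sg : 0 ≤ ((x / (1 + x)) ^ 2 - (R - Tt L X / d) / (R - Tt L X / d + d) *
        ((r0 - Tt L X / w ^ 2) / (r0 - Tt L X / w ^ 2 + w ^ 2))) * F X := by
      have p1 := sub_nonneg.2 big1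
      have p2 := sub_nonneg.2 h.sx
      have w2 := pow_pos hw 2
      rw [h.root]
      rcases le_total (Tt L X) (x * (d * w ^ 2)) with ht | ht
      · refine mul_nonneg_of_nonpos_of_nonpos (sub_nonpos.2 (mul_le_mul (psi_mono hd p1 ?_)
          (psi_mono w2 p2 ?_) (psi_mem w2 p2).1 (psi_mem hd t2).1))
          (cut_nonpos (div_nonpos_of_nonpos_of_nonneg (sub_nonpos.2 ht) M0.le))
        · rw [sub_le_sub_iff_left, div_le_iff₀ hd]
          linarith only [ht]
        · rw [sub_le_sub_iff_left, div_le_iff₀ w2]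
          linarith only [ht]
      · refine mul_nonneg (sub_nonneg.2 (mul_le_mul (psi_mono hd t2 ?_)
          (psi_mono w2 t3 ?_) (psi_mem w2 t3).1 (psi_mem hd p1).1))
          (cut_nonneg (div_nonneg (sub_nonneg.2 ht) M0.le))
        · rw [sub_le_sub_iff_left, le_div_iff₀ hd]
          linarith only [ht]
        · rw [sub_le_sub_iff_left, le_div_iff₀ w2]
          linarith only [ht]
    have lo : ¬ (x0 + 1 / lam) * (d * w ^ 2) ≤ Tt L X → w ^ 2 / lam ≤ R - Tt L X / d + d :=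
      fun ht => by
      have : Tt L X / d ≤ x0 * w ^ 2 + w ^ 2 / lam := by
        rw [div_le_iff₀ hd, div_eq_mul_one_div]
        linarith only [not_le.1 ht]
      linarith only [this, h.big, hd, mul_pos hl hw]
    have m1 : R - Tt L X / d + d ≤ lam * w ^ 2 := by
      linarith only [h.Rle, h.dle, div_nonneg t0 hd.le]
    have e0 : d * R - Tt L X = d * (R - Tt L X / d) := by field_simp
    have q := psi_mem (pow_pos hw 2) t3
    rw [mul_div_assoc (w ^ 2) (r0 - _)]
    generalize (r0 - Tt L X / w ^ 2) / (r0 - Tt L X / w ^ 2 + w ^ 2) = q0 at sg q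
    rw [e0] at hs
    generalize R - Tt L X / d = m at *
    generalize d * w ^ 2 * Tt L X / (Tt L X + d * w ^ 2) = P at *
    have hB : 0 ≤ ∑ j ∈ Lᶜ, N L X j ∧ ∑ j ∈ Lᶜ, N L X j ≤ d * w ^ 2 := h.A_mem (tr X)
    generalize ∑ j ∈ Lᶜ, N L X j = B at *
    have e1 : ∑ i ∈ Lᶜ, U L X i * ((rs Lᶜ X i + d) * (B / d) + Yp L X i) * F X =
        (m + d) / d * ((∑ i ∈ Lᶜ, U L X i) * B * F X) +
          B / d * F X * ∑ i ∈ Lᶜ, U L X i * (rs Lᶜ X i - m) + ∑ i ∈ Lᶜ, U L X i * F X * Yp L X i := by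
      simp only [mul_sum, sum_mul, ← sum_add_distrib]
      exact sum_congr rfl fun i _ => by ring
    have c1 : -((m + d) / d * ((∑ i ∈ Lᶜ, U L X i) * B * F X)) + (m + d) / d * (P ^ 2 * F X) ≤
        lam * w ^ 4 * |∑ i ∈ Lᶜ, U L X i - P| + lam * w ^ 4 * |B - P| :=
      calc _ = (m + d) / d * ((P ^ 2 - (∑ i ∈ Lᶜ, U L X i) * B) * F X) := by ring
        _ ≤ (m + d) / d * (d * w ^ 2 * |∑ i ∈ Lᶜ, U L X i - P| + d * w ^ 2 * |B - P|) :=
          mul_le_mul_of_nonneg_left (abs_le.1 s5).2 (by positivity)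
        _ ≤ lam * w ^ 2 / d * (d * w ^ 2 * |∑ i ∈ Lᶜ, U L X i - P| + d * w ^ 2 * |B - P|) := by
          gcongr
        _ = _ := by field_simp
    have c2 : -(B / d * F X * ∑ i ∈ Lᶜ, U L X i * (rs Lᶜ X i - m)) ≤
        w ^ 2 * |∑ i ∈ Lᶜ, U L X i * (rs Lᶜ X i - m)| := by
      refine (neg_le_abs _).trans ?_
      rw [abs_mul, abs_mul, abs_of_nonneg (div_nonneg hB.1 hd.le)]
      exact mul_le_mul_of_nonneg_right ((mul_le_of_le_one_right (div_nonneg hB.1 hd.le) f0).trans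
        ((div_le_iff₀' hd).2 hB.2)) (abs_nonneg _)
    have c3 : -∑ i ∈ Lᶜ, U L X i * F X * Yp L X i ≤ ∑ i ∈ Lᶜ, w ^ 2 * |Yp L X i| := by
      refine (neg_le_abs _).trans ((abs_sum_le_sum_abs _ _).trans (sum_le_sum fun i _ => ?_))
      have h3 := U_mem (L := L) (X := X) i
      rw [abs_mul, abs_mul, abs_of_nonneg h3.1]
      exact mul_le_mul_of_nonneg_right ((mul_le_of_le_one_right h3.1 f0).trans
        (h3.2.trans_eq h.wsq)) (abs_nonneg _)
    have m2 : d * m ≤ lam * (d * w ^ 2) := by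
      linarith only [mul_le_mul_of_nonneg_left m1 hd.le, sq_nonneg d]
    have c4 : d * m * ((Q L X - w ^ 2 * (w ^ 2 * q0)) * F' X) ≤
        lam * (d * w ^ 2) * |Q L X - w ^ 2 * (w ^ 2 * q0)| := by
      refine (mul_le_mul_of_nonneg_left ((le_abs_self _).trans ?_) (by positivity)).trans
        (mul_le_mul_of_nonneg_right m2 (abs_nonneg _))
      rw [abs_mul]
      exact mul_le_of_le_one_right (abs_nonneg _) f1
    have c5 : d * m * (w ^ 4 * q0) * (F' X - F X) ≤ lam * ε * d * w ^ 5 := by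
      have b4 : F' X - F X ≤ ε / w := ((le_abs_self _).trans (cut_sub _ _)).trans_eq (by
        rw [← sub_div, add_sub_right_comm, add_sub_cancel_left, abs_of_pos (by positivity), hM,
          one_div_div])
      have := q.1
      calc _ ≤ d * m * (w ^ 4 * q0) * (ε / w) := by gcongr
        _ ≤ lam * (d * w ^ 2) * (w ^ 4 * 1) * (ε / w) := by
          gcongr
          exact q.2
        _ = _ := by field_simp
    have c6 : (m + d) * w ^ 2 / lam ^ 4 * ((Tt L X - x * (d * w ^ 2)) * F X) ≤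
        (m + d) / d * (P ^ 2 * F X) - d * m * (w ^ 4 * q0) * F X :=
      calc _ = (m + d) / d * (d * w ^ 2 / lam ^ 4 * ((Tt L X - x * (d * w ^ 2)) * F X) + 0) := by
            field_simp
            ring
        _ ≤ (m + d) / d * (G * ((Tt L X - x * (d * w ^ 2)) * F X) +
            (d * w ^ 2) ^ 2 * (((x / (1 + x)) ^ 2 - m / (m + d) * q0) * F X)) :=
          mul_le_mul_of_nonneg_left (add_le_add (mul_le_mul_of_nonneg_right
            ((div_le_iff₀' (by positivity)).2 g1) b4.1) (mul_nonneg (sq_nonneg _) sg))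
            (by positivity)
        _ = _ := by
          rw [← mul_assoc G, ← g2]
          field_simp
          ring
    have c7 : w ^ 4 / lam ^ 5 * |Tt L X - x * (d * w ^ 2)| ≤
        (m + d) * w ^ 2 / lam ^ 4 * ((Tt L X - x * (d * w ^ 2)) * F X) +
        w ^ 4 / lam ^ 5 * (lam * (d * w ^ 2)) *
          (if (x0 + 1 / lam) * (d * w ^ 2) ≤ Tt L X then 1 else 0) + w ^ 4 / lam ^ 5 * M := by
      have p0 : 0 ≤ w ^ 4 / lam ^ 5 := by positivity
      split_ifs with ht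
      · have : |Tt L X - x * (d * w ^ 2)| ≤ lam * (d * w ^ 2) := by
          rw [abs_le]
          constructor <;> linarith only [t0, t1, hD, mul_pos hx hD,
            mul_le_mul_of_nonneg_right h.xx hD.le, mul_le_mul_of_nonneg_right h.x0l hD.le]
        linarith only [mul_le_mul_of_nonneg_left this p0, mul_nonneg p0 M0.le,
          mul_nonneg (show 0 ≤ (m + d) * w ^ 2 / lam ^ 4 by positivity) b4.1]
      · have : w ^ 4 / lam ^ 5 ≤ (m + d) * w ^ 2 / lam ^ 4 :=
          calc _ = w ^ 2 / lam * w ^ 2 / lam ^ 4 := by field_simp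
            _ ≤ _ := by
              gcongr
              exact lo ht
        linarith only [mul_le_mul_of_nonneg_left b4.2 p0, mul_le_mul_of_nonneg_right this b4.1]
    rw [e1, ← sum_mul, ← sum_mul, hs]
    linarith only [c1, c2, c3, c4, c5, c6, c7]
  have h2 : Ex r (fun X => |∑ i ∈ Lᶜ, U L X i * (rs Lᶜ X i - (R - Tt L X / d))|) ≤
      d * (lam ^ 2 * w ^ 2) + d * lam := by
    refine h.ex3' (by positivity) (by positivity) (fun X hX hg => ?_) fun X hX _ => ?_
    · obtain ⟨i0, hi0⟩ : Lᶜ.Nonempty := card_pos.1 (by exact_mod_cast h.dc ▸ hd)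
      have e1 : ∑ i ∈ Lᶜ, U L X i * (rs Lᶜ X i - (R - Tt L X / d)) =
          ∑ i ∈ Lᶜ, (U L X i - U L X i0) * (rs Lᶜ X i - (R - Tt L X / d)) := by
        have z : ∑ i ∈ Lᶜ, (rs Lᶜ X i - (R - Tt L X / d)) = 0 := by
          rw [sum_sub_distrib, h.heavy_sum hX, sum_const, nsmul_eq_mul, h.dc]
          field_simp
          ring
        rw [sum_congr rfl fun i _ => sub_mul (U L X i) _ _, sum_sub_distrib, ← mul_sum, z, mul_zero,
          sub_zero]
      rw [e1]
      simpa [h.dc] using (abs_sum_le_sum_abs _ _).trans (sum_le_card_nsmul Lᶜ _ (lam ^ 2 * w ^ 2)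
        fun i hi => by
          rw [abs_mul, ← h.heavy i (mem_compl.1 hi), ← rs_add (L := L) hX i,
            show rs Lᶜ X i - (rs L X i + rs Lᶜ X i - Tt L X / d) = -(rs L X i - Tt L X / d) by ring,
            abs_neg]
          exact (mul_le_mul (hg.2.2.2.1 i (mem_compl.1 hi) i0 (mem_compl.1 hi0))
            (h.spread hg (mem_compl.1 hi)) (abs_nonneg _) (by positivity)).trans_eq (by ring))
    · obtain ⟨t0, -, t2, -⟩ := h.Tt_mem hX
      simpa [h.dc, mul_assoc] using (abs_sum_le_sum_abs _ _).trans (sum_le_card_nsmul Lᶜ _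
        (lam * w ^ 4) fun i hi => by
          have h3 := U_mem (L := L) (X := X) i
          rw [abs_mul, abs_of_nonneg h3.1]
          refine (mul_le_mul (h3.2.trans_eq h.wsq) (show _ ≤ lam * w ^ 2 from ?_) (abs_nonneg _)
            (by positivity)).trans_eq (by ring)
          rw [abs_le]
          constructor <;> linarith only [t2, div_nonneg t0 hd.le, h.Rle, sq_nonneg w,
            rs_nonneg (L := Lᶜ) hX i, CLT.rs_le (L := Lᶜ) hX i, h.heavy i (mem_compl.1 hi)])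
  have h3 := sum_le_card_nsmul Lᶜ _ _ fun i hi =>
    mul_le_mul_of_nonneg_left (h.Yp_abs (mem_compl.1 hi)) (sq_nonneg w)
  rw [nsmul_eq_mul, h.dc] at h3
  have h4 := Ex_mono key
  rw [Ex_mul, Ex_add, Ex_add, Ex_add, Ex_add, Ex_add, Ex_add, Ex_add, Ex_sub, h1, sub_self, Ex_mul,
    Ex_mul, Ex_mul, Ex_mul, Ex_mul, Ex_sum, ← Pr_eq] at h4
  simp only [Ex_mul] at h4
  have h5 := Ex_const_le (r := r) (c := w ^ 4 / lam ^ 5 * M + lam * ε * d * w ^ 5) (by positivity)
  have h6 := mul_le_mul_of_nonneg_left (add_le_add h.Ubar h.Nbar)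
    (show 0 ≤ lam * w ^ 4 by positivity)
  have h7 := mul_le_mul_of_nonneg_left h.Qbar (show 0 ≤ lam * (d * w ^ 2) by positivity)
  have h8 := mul_le_mul_of_nonneg_left h2 (sq_nonneg w)
  have h9 := mul_le_mul_of_nonneg_left h.up (show 0 ≤ d * w ^ 5 / lam ^ 4 by positivity)
  rw [show d * w ^ 5 / lam ^ 4 * (136 * lam ^ 5 * ε) = 136 * (lam * ε * d * w ^ 5) by field_simp,
    show ∀ p, d * w ^ 5 / lam ^ 4 * (p * w) = w ^ 4 / lam ^ 5 * (lam * (d * w ^ 2)) * p from
      fun p => by field_simp] at h9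
  have h10 : w ^ 4 / lam ^ 5 * M ≤ lam * ε * d * w ^ 5 := by
    have a1 : M ≤ ε * w * d := by
      rw [hM, div_le_iff₀ h.e0]
      linarith only [mul_le_mul_of_nonneg_left h.ed hw.le]
    have a2 : w ^ 4 / lam ^ 5 ≤ lam * w ^ 4 :=
      (div_le_self (by positivity) (one_le_pow₀ h.lam1)).trans
        (le_mul_of_one_le_left (by positivity) h.lam1)
    exact (mul_le_mul a2 a1 M0.le (by positivity)).trans_eq (by ring)
  have h11 := mul_le_mul_of_nonneg_right (h.pw' 1 (by norm_num))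
    (show 0 ≤ lam * d * w ^ 4 by positivity)
  have h12 := mul_le_mul_of_nonneg_left (h.mono 1 2 2 4 (by norm_num)) hd.le
  have h13 := mul_le_mul_of_nonneg_right h.lam1 (show 0 ≤ ε * d * w ^ 5 by positivity)
  rw [← mul_le_mul_iff_right₀ (show 0 < w ^ 4 / lam ^ 5 by positivity),
    show w ^ 4 / lam ^ 5 * (278 * lam ^ 6 * (ε * w * d)) = 278 * (lam * ε * d * w ^ 5) by field_simp]
  linarith only [h3, h4, h5, h6, h7, h8, h9, h10, h11, h12, h13]

lemma stein3 (hi : i ∉ L) {g : ℝ → ℝ} (hg : ∀ y, |g y| ≤ 1) :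
    |Ex r fun X => x / (1 + x) * ((rs L X i + 1 + w ^ 2) * g (rs L X i + 1)) -
      rs L X i * g (rs L X i)| ≤ 6406 * lam ^ 11 * ε * w := by
  have hw := h.w0; have := h.e0; have hd := h.d0; have hl := h.lam0; have hx := h.xp
  have hD : 0 < d * w ^ 2 := by positivity
  have w2 := pow_pos hw 2
  have η0 : 0 < w ^ 2 / lam := by positivity
  set f : ℝ → ℝ := fun y => (y + w ^ 2) * g y / ((lam + 1) * w ^ 2) with hf
  have fle : ∀ y, 0 ≤ y → y + w ^ 2 ≤ (lam + 1) * w ^ 2 → |f y| ≤ 1 := fun y h0 h1 => by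
    simp only [hf]
    rw [abs_div, abs_mul, abs_of_nonneg (by positivity), abs_of_pos (a := _ * _) (by positivity)]
    exact div_le_one_of_le₀ ((mul_le_of_le_one_right (by positivity) (hg y)).trans h1)
      (by positivity)
  have f1 : ∀ X ∈ tab r r, |f (rs L X i)| ≤ 1 := fun X hX => fle _ (rs_nonneg hX i)
    (by linarith only [h.rs_le hX i, w2])
  have f2 : ∀ X ∈ tab r r, |f (rs L X i + 1)| ≤ 1 := fun X hX =>
    fle _ (add_nonneg (rs_nonneg hX i) zero_le_one)
      (by linarith only [h.rs_le hX i, one_le_pow₀ (n := 2) h.w1])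
  set Dn : ℝ → ℝ := fun y => max (R - y + d) (w ^ 2 / lam) with hDn
  have h1 := h.wid hi (F := fun X => f (rs L X i) / Dn (rs L X i))
    (F' := fun X => f (rs L X i + 1) / Dn (rs L X i + 1)) fun X j hj l hl k hk => by
      simp [rs_sw, hk, hj, e, ne_of_mem_of_not_mem hl hi |>.symm]
  set Z : (ι → ι → ℤ) → ℝ := fun X =>
    ((x / (1 + x)) ^ 2 * w ^ 4 - rs Lᶜ X i / Dn (rs L X i + 1) * Q L X) * f (rs L X i + 1) +
    U L X i * ((rs Lᶜ X i + d) / Dn (rs L X i) * ((∑ j ∈ Lᶜ, N L X j) / d) - x / (1 + x) * w ^ 2) *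
      f (rs L X i) + U L X i / Dn (rs L X i) * f (rs L X i) * Yp L X i with hZ
  have h2 : x / (1 + x) * w ^ 2 / (lam + 1) * (Ex r fun X => x / (1 + x) *
      ((rs L X i + 1 + w ^ 2) * g (rs L X i + 1)) - rs L X i * g (rs L X i)) = Ex r Z +
      x / (1 + x) * w ^ 2 * Ex r fun X => f (rs L X i) * u L X i := by
    rw [← Ex_mul, ← Ex_mul, ← Ex_add, ← sub_eq_zero, ← Ex_sub, ← sub_eq_zero.2 h1, ← Ex_sub]
    refine Ex_congr fun X hX => ?_
    have := rs_nonneg (L := L) hX i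
    simp only [hZ, hf, u, h.wsq]
    generalize Dn (rs L X i) = D1
    generalize Dn (rs L X i + 1) = D2
    simp only [div_eq_mul_inv _ D1, div_eq_mul_inv _ D2]
    generalize D1⁻¹ = D3
    generalize D2⁻¹ = D4
    field_simp
    ring
  have b0 : 0 ≤ x / (1 + x) ∧ x / (1 + x) ≤ 1 := add_comm x 1 ▸ psi_mem one_pos hx.le
  have cr : ∀ X ∈ tab r r, ∀ a b : ℝ,
      |(x / (1 + x)) ^ 2 * w ^ 4 - rs Lᶜ X i / Dn (rs L X i + 1) * Q L X| ≤ a →
      |(rs Lᶜ X i + d) / Dn (rs L X i) * ((∑ j ∈ Lᶜ, N L X j) / d) - x / (1 + x) * w ^ 2| ≤ b →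
      |Z X| ≤ a + w ^ 2 * b + lam * |Yp L X i| := fun X hX a b ha hb => by
    have h3 := U_mem (L := L) (X := X) i
    rw [h.wsq] at h3
    have h4 : w ^ 2 / lam ≤ Dn (rs L X i) := le_max_right _ _
    refine (abs_add_three _ _ _).trans (add_le_add_three ?_ ?_ ?_)
    · rw [abs_mul]
      exact (mul_le_of_le_one_right (abs_nonneg _) (f2 X hX)).trans ha
    · rw [abs_mul, abs_mul, abs_of_nonneg h3.1]
      exact (mul_le_of_le_one_right (mul_nonneg h3.1 (abs_nonneg _)) (f1 X hX)).trans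
        (mul_le_mul h3.2 hb (abs_nonneg _) w2.le)
    · have h5 := div_nonneg h3.1 (η0.le.trans h4)
      rw [abs_mul, abs_mul, abs_of_nonneg h5]
      refine mul_le_mul_of_nonneg_right ((mul_le_of_le_one_right h5 (f1 X hX)).trans
        ((div_le_div₀ w2.le h3.2 η0 h4).trans_eq ?_)) (abs_nonneg _)
      field_simp
  have cr2 : ∀ X ∈ tab r r, |Z X| ≤ w ^ 4 + w ^ 2 * w ^ 2 + lam * |Yp L X i| := fun X hX => by
    have m0 := rs_nonneg (L := Lᶜ) hX i
    have m1 := (rs_add (L := L) hX i).trans (h.heavy i hi)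
    have hB : 0 ≤ ∑ j ∈ Lᶜ, N L X j ∧ ∑ j ∈ Lᶜ, N L X j ≤ d * w ^ 2 := h.A_mem (tr X)
    have hQ := Q_mem (L := L) (X := X)
    rw [h.wsq] at hQ
    have p : ∀ y, 0 ≤ Dn y := fun y => η0.le.trans (le_max_right _ _)
    have a1 : rs Lᶜ X i / Dn (rs L X i + 1) ≤ 1 := div_le_one_of_le₀
      (le_max_of_le_left (by linarith only [m1, h.d1])) (p _)
    have a2 : (rs Lᶜ X i + d) / Dn (rs L X i) ≤ 1 := div_le_one_of_le₀
      (le_max_of_le_left (by linarith only [m1])) (p _)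
    have a3 := div_nonneg hB.1 hd.le
    refine cr X hX _ _ (abs_le.2 ⟨?_, ?_⟩) (abs_le.2 ⟨?_, ?_⟩)
    · linarith only [mul_le_of_le_one_left hQ.1 a1, hQ.2,
        mul_nonneg (sq_nonneg (x / (1 + x))) (pow_pos hw 4).le]
    · linarith only [mul_nonneg (div_nonneg m0 (p (rs L X i + 1))) hQ.1,
        mul_le_of_le_one_left (pow_pos hw 4).le (pow_le_one₀ (n := 2) b0.1 b0.2)]
    · linarith only [mul_nonneg (div_nonneg (add_nonneg m0 hd.le) (p (rs L X i))) a3,
        mul_le_of_le_one_left w2.le b0.2]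
    · linarith only [mul_le_of_le_one_left a3 a2, (div_le_iff₀' hd).2 hB.2, mul_nonneg b0.1 w2.le]
  have h3 : Ex r (fun X => |Z X|) ≤ Ex r (fun X =>
      |Q L X - w ^ 2 * (w ^ 2 * (r0 - Tt L X / w ^ 2) / (r0 - Tt L X / w ^ 2 + w ^ 2))| +
      (1 + lam ^ 2 + w ^ 2 / d) * |Tt L X - x * (d * w ^ 2)| +
      w ^ 2 / d * |∑ j ∈ Lᶜ, N L X j - d * w ^ 2 * Tt L X / (Tt L X + d * w ^ 2)| +
      lam * |Yp L X i| +
      2 * w ^ 4 * if (x0 + 1 / lam) * (d * w ^ 2) ≤ Tt L X then 1 else 0) +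
      (lam ^ 3 * d * w + lam ^ 3 * w ^ 2 + 2) := by
    refine h.ex3 (by positivity) zero_le_two (fun X hX hg => ?_) fun X hX _ => ?_
    · have p1 := abs_nonneg
        (Q L X - w ^ 2 * (w ^ 2 * (r0 - Tt L X / w ^ 2) / (r0 - Tt L X / w ^ 2 + w ^ 2)))
      split_ifs with ht
      · linarith only [cr2 X hX, p1, show 0 ≤ lam ^ 3 * d * w + lam ^ 3 * w ^ 2 by positivity,
          show 0 ≤ (1 + lam ^ 2 + w ^ 2 / d) * |Tt L X - x * (d * w ^ 2)| by positivity,
          show 0 ≤ w ^ 2 / d * |∑ j ∈ Lᶜ, N L X j - d * w ^ 2 * Tt L X / (Tt L X + d * w ^ 2)| by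
            positivity]
      obtain ⟨t0, t1, t2, t3⟩ := h.Tt_mem hX
      have m1 := (rs_add (L := L) hX i).trans (h.heavy i hi)
      have sp := h.spread hg hi
      have a1 : Tt L X / d ≤ x0 * w ^ 2 + w ^ 2 / lam := by
        rw [div_le_iff₀ hd, div_eq_mul_one_div]
        linarith only [not_le.1 ht]
      have a2 : w ^ 2 / lam + 1 ≤ rs Lᶜ X i := by linarith only [a1, m1, (abs_le.1 sp).2, h.big]
      have a3 : w ^ 2 / lam ≤ R - x * w ^ 2 := by
        linarith only [h.big, mul_le_mul_of_nonneg_right h.xx w2.le, mul_pos hl hw, η0]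
      have e1 : Dn (rs L X i) = rs Lᶜ X i + d :=
        (max_eq_left (by linarith only [a2, m1, hd])).trans (by linarith only [m1])
      have e2 : Dn (rs L X i + 1) = rs Lᶜ X i - 1 + d :=
        (max_eq_left (by linarith only [a2, m1, hd])).trans (by linarith only [m1])
      have a4 : d * |R - x * w ^ 2 - rs Lᶜ X i| ≤ d * (lam * w) + |Tt L X - x * (d * w ^ 2)| := by
        rw [← abs_of_pos hd, ← abs_mul, abs_of_pos hd, show d * (R - x * w ^ 2 - rs Lᶜ X i) =
          d * (rs L X i - Tt L X / d) + (Tt L X - x * (d * w ^ 2)) by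
            rw [← m1]; field_simp; ring]
        refine (abs_add_le _ _).trans (add_le_add ?_ le_rfl)
        rw [abs_mul, abs_of_pos hd]
        exact mul_le_mul_of_nonneg_left sp hd.le
      have a5 := phi_sub w2 (sub_nonneg.2 h.sx) t3
      have a6 := phi_sub hD t0 (mul_pos hx hD).le
      rw [show d * w ^ 2 * (x * (d * w ^ 2)) / (x * (d * w ^ 2) + d * w ^ 2) =
        x / (1 + x) * (d * w ^ 2) by field_simp; ring] at a6
      have q := psi_mem w2 (sub_nonneg.2 h.sx)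
      have a7 := cr X hX
        (|Q L X - w ^ 2 * (w ^ 2 * (r0 - Tt L X / w ^ 2) / (r0 - Tt L X / w ^ 2 + w ^ 2))| +
          |Tt L X - x * (d * w ^ 2)| +
          lam ^ 2 * (d * (lam * w) + |Tt L X - x * (d * w ^ 2)| + lam * w ^ 2))
        ((|∑ j ∈ Lᶜ, N L X j - d * w ^ 2 * Tt L X / (Tt L X + d * w ^ 2)| +
          |Tt L X - x * (d * w ^ 2)|) / d) (by
          rw [e2, h.root]
          rw [mul_div_assoc (w ^ 2) (r0 - x * d)] at a5
          have a8 : R - x * w ^ 2 ≤ lam * w ^ 2 := by linarith only [h.Rle, w2, mul_pos hx w2]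
          generalize (r0 - x * d) / (r0 - x * d + w ^ 2) = q0 at a5 q
          generalize w ^ 2 * (r0 - Tt L X / w ^ 2) / (r0 - Tt L X / w ^ 2 + w ^ 2) = W at a5
          generalize R - x * w ^ 2 = m at *
          generalize rs Lᶜ X i = m' at *
          have d1 := h.d1
          have ρ0 : 0 ≤ m' / (m' - 1 + d) := div_nonneg (by linarith only [a2, η0])
            (by linarith only [a2, η0, hd])
          have ρ1 : m' / (m' - 1 + d) ≤ 1 := div_le_one_of_le₀ (by linarith only [d1])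
            (by linarith only [a2, η0, hd])
          have n1 : 0 < m' - 1 + d := by linarith only [a2, η0, hd]
          have n2 : 0 < m + d := by linarith only [a3, η0, hd]
          rw [show m / (m + d) * q0 * w ^ 4 - m' / (m' - 1 + d) * Q L X =
            -(m' / (m' - 1 + d) * (Q L X - w ^ 2 * W)) +
              m' / (m' - 1 + d) * (w ^ 2 * (w ^ 2 * q0 - W)) +
              q0 * (w ^ 4 * ((d * (m - m') - m) / ((m' - 1 + d) * (m + d)))) by field_simp; ring]
          refine (abs_add_three _ _ _).trans (add_le_add_three ?_ ?_ ?_)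
          · rw [abs_neg, abs_mul, abs_of_nonneg ρ0]
            exact mul_le_of_le_one_left (abs_nonneg _) ρ1
          · rw [abs_mul, abs_of_nonneg ρ0]
            refine (mul_le_of_le_one_left (abs_nonneg _) ρ1).trans ?_
            rw [abs_mul, abs_of_pos w2]
            refine (mul_le_mul_of_nonneg_left a5 w2.le).trans_eq ?_
            rw [← abs_of_pos w2, ← abs_mul, abs_of_pos w2]
            congr 1
            field_simp
            ring
          · rw [abs_mul, abs_of_nonneg q.1]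
            refine (mul_le_of_le_one_left (abs_nonneg _) q.2).trans ?_
            rw [abs_mul, abs_div, abs_of_pos (pow_pos hw 4), abs_of_pos (mul_pos n1 n2)]
            have n3 : |d * (m - m') - m| ≤
                d * (lam * w) + |Tt L X - x * (d * w ^ 2)| + lam * w ^ 2 := by
              refine (abs_sub _ _).trans (add_le_add ?_ ?_)
              · rwa [abs_mul, abs_of_pos hd]
              · rwa [abs_of_nonneg (η0.le.trans a3)]
            refine (mul_le_mul_of_nonneg_left (div_le_div₀ ((abs_nonneg _).trans n3) n3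
              (mul_pos η0 η0) (mul_le_mul (by linarith only [a2, hd]) (by linarith only [a3, hd])
                η0.le n1.le)) (pow_pos hw 4).le).trans_eq ?_
            field_simp) (by
          rw [e1, div_self (by linarith only [a2, η0, hd]), one_mul, le_div_iff₀' hd,
            ← abs_of_pos hd, ← abs_mul, abs_of_pos hd, mul_sub, mul_div_cancel₀ _ hd.ne',
            mul_left_comm]
          exact (abs_sub_le _ _ _).trans (add_le_add le_rfl a6))
      rw [show ∀ a b : ℝ, w ^ 2 * ((a + b) / d) = w ^ 2 / d * a + w ^ 2 / d * b from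
        fun a b => by ring] at a7
      linarith only [a7]
    · have : (0 : ℝ) ≤ 2 * w ^ 4 * if (x0 + 1 / lam) * (d * w ^ 2) ≤ Tt L X then 1 else 0 := by
        positivity
      linarith only [cr2 X hX, this, abs_nonneg
        (Q L X - w ^ 2 * (w ^ 2 * (r0 - Tt L X / w ^ 2) / (r0 - Tt L X / w ^ 2 + w ^ 2))),
        show 0 ≤ (1 + lam ^ 2 + w ^ 2 / d) * |Tt L X - x * (d * w ^ 2)| by positivity,
        show 0 ≤ w ^ 2 / d * |∑ j ∈ Lᶜ, N L X j - d * w ^ 2 * Tt L X / (Tt L X + d * w ^ 2)| by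
          positivity]
  rw [Ex_add, Ex_add, Ex_add, Ex_add, Ex_mul, Ex_mul, Ex_mul, Ex_mul, ← Pr_eq] at h3
  have l8 : ∀ a ≤ 8, lam ^ a * (ε * w ^ 3) ≤ lam ^ 8 * (ε * w ^ 3) := fun a ha =>
    mul_le_mul_of_nonneg_right (pow_le_pow_right₀ h.lam1 ha) (by positivity)
  have h4 := mul_le_mul_of_nonneg_left h.tau3 (show 0 ≤ 1 + lam ^ 2 + w ^ 2 / d by positivity)
  have h5 := mul_le_mul_of_nonneg_left h.Nbar (show 0 ≤ w ^ 2 / d by positivity)
  rw [show w ^ 2 / d * (45 * (ε * w * d)) = 45 * (ε * w ^ 3) by field_simp] at h5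
  rw [show (1 + lam ^ 2 + w ^ 2 / d) * (278 * lam ^ 6 * (ε * w * d)) =
    278 * (lam ^ 6 + lam ^ 8) * ε * w * d + 278 * lam ^ 6 * (ε * w ^ 3) by field_simp] at h4
  have h6 := mul_le_mul_of_nonneg_left h.dle
    (show 0 ≤ 278 * (lam ^ 6 + lam ^ 8) * ε * w by positivity)
  have h7 := mul_le_mul_of_nonneg_left (h.Yp_abs hi) hl.le
  have h8 := mul_le_mul_of_nonneg_left h.up (show 0 ≤ 2 * w ^ 3 by positivity)
  have h9 := mul_le_mul_of_nonneg_right (h.pd 3 (by norm_num)) hw.le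
  have h10 := mul_le_mul_of_nonneg_right (h.pw' 3 (by norm_num)) w2.le
  have h11 := one_le_mul_of_one_le_of_one_le h.ew (one_le_pow₀ (n := 2) h.w1)
  have h12 : x / (1 + x) * w ^ 2 * |Ex r fun X => f (rs L X i) * u L X i| ≤
      1 * w ^ 2 * (2000 * lam * (ε * w)) :=
    mul_le_mul (mul_le_mul_of_nonneg_right b0.2 w2.le) (h.fu i f1) (abs_nonneg _) (by positivity)
  have h13 := abs_add_le (Ex r Z) (x / (1 + x) * w ^ 2 * Ex r fun X => f (rs L X i) * u L X i)
  rw [← h2, abs_mul, abs_mul (_ * _), abs_of_pos (by positivity),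
    abs_of_pos (a := _ * _) (by positivity)] at h13
  have h14 : w ^ 2 / (2 * lam ^ 3) ≤ x / (1 + x) * w ^ 2 / (lam + 1) :=
    calc _ = 1 / lam / lam * w ^ 2 / (lam + lam) := by field_simp; ring
      _ ≤ _ := by
        gcongr
        exacts [(div_le_iff₀' hl).2 h.xl, by linarith only [h.xx, h.x0l], h.lam1]
  rw [← mul_le_mul_iff_right₀ (show 0 < w ^ 2 / (2 * lam ^ 3) by positivity),
    show w ^ 2 / (2 * lam ^ 3) * (6406 * lam ^ 11 * ε * w) = 3203 * (lam ^ 8 * (ε * w ^ 3)) by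
      field_simp; ring]
  refine (mul_le_mul_of_nonneg_right h14 (abs_nonneg _)).trans ?_
  linarith only [h3, h4, h5, h6, h7, h8, h9, h10, h11, h12, h13, h.Qbar, abs_Ex_le (r := r) (F := Z),
    l8 0 (by norm_num), l8 1 (by norm_num), l8 5 (by norm_num), l8 6 (by norm_num)]

end Hyp3

end Pool.Agent.Work.MP_1d48d5_pr.CLT
end

-- merged part: Pool.Agent.Work.MP_1d48d5_pr.D4
section
/-! The typical centre and the assumptions for large `n`. -/

open Finset Filter Topology MeasureTheory ProbabilityTheory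
open scoped BoundedContinuousFunction

namespace Pool.Agent.Work.MP_1d48d5_pr.CLT

lemma root_ex {C x0 n d R r0 : ℝ} (hC : 0 < C) (hx : 0 < x0) (xC : (x0 / (1 + x0)) ^ 2 = C / (1 + C))
    (n0 : 0 < n) (d0 : 0 < d) (hR : x0 * n ≤ R) (h1 : x0 * d ≤ r0) (h2 : r0 ≤ C * n) :
    ∃ x, 0 ≤ x ∧ x ≤ x0 ∧
      (x / (1 + x)) ^ 2 = (R - x * n) / (R - x * n + d) * ((r0 - x * d) / (r0 - x * d + n)) := by
  have p1 : ∀ y ∈ Set.Icc 0 x0, 0 ≤ R - y * n := fun y hy => by
    linarith only [hR, mul_le_mul_of_nonneg_right hy.2 n0.le]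
  have p2 : ∀ y ∈ Set.Icc 0 x0, 0 ≤ r0 - y * d := fun y hy => by
    linarith only [h1, mul_le_mul_of_nonneg_right hy.2 d0.le]
  have c : ContinuousOn (fun y : ℝ => (y / (1 + y)) ^ 2 -
      (R - y * n) / (R - y * n + d) * ((r0 - y * d) / (r0 - y * d + n))) (Set.Icc 0 x0) := by
    refine ((ContinuousOn.div (by fun_prop) (by fun_prop) fun y hy => ?_).pow 2).sub
      ((ContinuousOn.div (by fun_prop) (by fun_prop) fun y hy => ?_).mul
        (ContinuousOn.div (by fun_prop) (by fun_prop) fun y hy => ?_))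
    · linarith only [hy.1]
    · linarith only [p1 y hy, d0]
    · linarith only [p2 y hy, n0]
  have m0 : (0 : ℝ) ∈ Set.Icc 0 x0 := ⟨le_rfl, hx.le⟩
  have m1 : x0 ∈ Set.Icc 0 x0 := ⟨hx.le, le_rfl⟩
  obtain ⟨x, h3, h4⟩ := intermediate_value_Icc hx.le c <| show (0 : ℝ) ∈ _ from ⟨by
    simpa only [zero_div, sq, mul_zero, zero_sub, neg_nonpos] using
      mul_nonneg (psi_mem d0 (p1 0 m0)).1 (psi_mem n0 (p2 0 m0)).1, by
    have := psi_mono n0 (p2 x0 m1) (b := C * n) (by linarith only [h2, mul_pos hx d0])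
    rw [show C * n / (C * n + n) = C / (1 + C) by field_simp; ring] at this
    simp only [xC]
    linarith only [this, mul_le_of_le_one_left (psi_mem n0 (p2 x0 m1)).1 (psi_mem d0 (p1 x0 m1)).2]⟩
  exact ⟨x, h3.1, h3.2, sub_eq_zero.1 h4⟩

lemma root_le {lam C x0 x n d R r0 : ℝ} (hl : 0 < lam) (hC : 0 < C) (l1 : 1 ≤ lam * x0)
    (l2 : 1 + x0 ≤ lam) (x1 : 0 ≤ x) (x2 : x ≤ x0) (xC : (x0 / (1 + x0)) ^ 2 = C / (1 + C))
    (n0 : 0 < n) (d1 : 1 ≤ d) (hR : x0 * n + n / lam ≤ R) (h1 : x * d ≤ r0) (h2 : r0 ≤ C * n)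
    (h3 : C * n ≤ r0 + 1)
    (h : (x / (1 + x)) ^ 2 = (R - x * n) / (R - x * n + d) * ((r0 - x * d) / (r0 - x * d + n))) :
    (x0 - x) * n ≤ 2 * (lam ^ 5 * d) := by
  obtain ⟨G, g1, g2⟩ := agap (T := x) hl l1 l2 x1 one_pos (by linarith only [l2, x2])
  have d0 : 0 < d := one_pos.trans_le d1
  have a1 : n / lam ≤ R - x * n := by linarith only [hR, mul_le_mul_of_nonneg_right x2 n0.le]
  have a0 : 0 < n / lam := by positivity
  have a2 := (abs_le.1 (phi_sub n0 (mul_pos hC n0).le (sub_nonneg.2 h1))).2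
  rw [abs_of_nonneg (by linarith only [h2, mul_nonneg x1 d0.le]),
    show n * (C * n) / (C * n + n) = n * (C / (1 + C)) by field_simp; ring, mul_div_assoc] at a2
  have q := psi_mem n0 (sub_nonneg.2 h1)
  rw [one_mul, add_comm x 1, h, xC] at g2
  generalize (r0 - x * d) / (r0 - x * d + n) = q0 at *
  generalize R - x * n = m at *
  have a3 : n * (1 - m / (m + d)) ≤ lam * d :=
    calc _ = n * (d / (m + d)) := by
          have : 0 < m + d := by linarith only [a0, a1, d0]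
          field_simp
          ring
      _ ≤ n * (d / (n / lam)) := by
          gcongr
          linarith only [a1, d0]
      _ = _ := by field_simp
  have a4 := mul_le_mul_of_nonneg_left q.2 (mul_nonneg n0.le (sub_nonneg.2
    (psi_mem d0 (a0.le.trans a1)).2))
  have a5 : G * (x0 - x) * n ≤ 2 * (lam * d) := by
    linarith only [a2, a3, a4, congrArg (· * n) g2, h3, d1,
      mul_le_mul_of_nonneg_right (show x + 1 ≤ lam by linarith only [l2, x2]) d0.le]
  linarith only [mul_le_mul_of_nonneg_left a5 (pow_pos hl 4).le,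
    mul_le_mul_of_nonneg_right g1 (mul_nonneg (sub_nonneg.2 x2) n0.le)]

lemma root_ge {C x0 x n d R r0 : ℝ} (hC : 0 < C) (x1 : 0 ≤ x) (x2 : x ≤ x0)
    (xC : (x0 / (1 + x0)) ^ 2 = C / (1 + C)) (n0 : 0 < n) (d0 : 0 < d) (hR : x * n ≤ R)
    (h1 : x * d ≤ r0) (h2 : r0 ≤ C * n)
    (h : (x / (1 + x)) ^ 2 = (R - x * n) / (R - x * n + d) * ((r0 - x * d) / (r0 - x * d + n))) :
    x * d ≤ 2 * (1 + C) ^ 2 * ((x0 - x) * n) := by
  have q := psi_mem n0 (sub_nonneg.2 h1)
  have a1 := mul_le_of_le_one_left q.1 (psi_mem d0 (sub_nonneg.2 hR)).2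
  have a2 := psi_mono n0 (sub_nonneg.2 h1) (sub_le_sub_right h2 _)
  have a0 : 0 ≤ C * n - x * d := by linarith only [h1, h2]
  have a3 : x * d / ((1 + C) ^ 2 * n) ≤ C / (1 + C) - (C * n - x * d) / (C * n - x * d + n) :=
    calc _ = x * d / ((1 + C) * (C * n + n)) := by
          congr 1
          ring
      _ ≤ x * d / ((1 + C) * (C * n - x * d + n)) := by
          gcongr
          linarith only [mul_nonneg x1 d0.le]
      _ = _ := by
          field_simp
          ring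
  have a4 := (abs_le.1 (phi_sub one_pos (x1.trans x2) x1)).2
  rw [abs_of_nonneg (sub_nonneg.2 x2), one_mul, one_mul, add_comm x0, add_comm x] at a4
  have b1 := (psi_mem one_pos x1).2
  have b2 := (psi_mem one_pos (x1.trans x2)).2
  have b3 := psi_mono one_pos x1 x2
  rw [add_comm x0] at b2 b3
  rw [add_comm x] at b1 b3
  have a5 : x * d / ((1 + C) ^ 2 * n) ≤ 2 * (x0 - x) := by
    linarith only [a1, a2, a3, a4, h, xC, mul_le_mul_of_nonneg_left (add_le_add b1 b2) (sub_nonneg.2 b3)]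
  rw [div_le_iff₀ (by positivity)] at a5
  linarith only [a5]

lemma Bc_eq {C : ℝ} (hC : 0 < C) : (Bc C * C / (1 + Bc C * C)) ^ 2 = C / (1 + C) := by
  have h1 : √(1 + 1 / C) ^ 2 * C = 1 + C := by
    rw [Real.sq_sqrt (by positivity)]
    field_simp
    ring
  rw [div_pow, div_eq_div_iff (by unfold Bc; positivity) (by positivity), Bc]
  linear_combination (C * (C * √(1 + 1 / C) ^ 2 + C + 1 + 2 * C * √(1 + 1 / C)) -
    C ^ 2 * (1 + √(1 + 1 / C)) ^ 2) * h1

lemma ev_hyp3 {B C δ a : ℝ} (hC : 0 < C) (hB : Bc C < B) (a0 : 0 < a) (a1 : a ≤ 1 / 72)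
    (a2 : δ + 16 * a ≤ 1) (a3 : 29 * a ≤ δ) : ∀ᶠ n : ℕ in atTop, ∃ x,
    Hyp3 (light (dim δ n) n) (fun i => margin B C δ n i) (n ^ a) (√n) (n ^ (-(12 * a))) (dim δ n) C
      (Bc C * C) x ⌊B * C * n⌋₊ ⌊C * n⌋₊ := by
  have hB1 : 1 ≤ Bc C := le_add_of_nonneg_right (Real.sqrt_nonneg _)
  have hx : 0 < Bc C * C := mul_pos (zero_lt_one.trans_le hB1) hC
  have hη : 0 < (B - Bc C) * C / 3 := div_pos (mul_pos (sub_pos.2 hB) hC) three_pos
  have hBC : C ≤ B * C := le_mul_of_one_le_left hC.le (by linarith only [hB, hB1])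
  have hBC' : Bc C * C ≤ B * C := mul_le_mul_of_nonneg_right hB.le hC.le
  have hm : 4 * (B * C + 1) ≤ (⌈4 * (B * C + 1)⌉ : ℝ) := Int.le_ceil _
  generalize ⌈4 * (B * C + 1)⌉ = m at hm
  have m0 : (0 : ℝ) ≤ m := by linarith only [hC, hBC, hm]
  filter_upwards [eventually_ge_atTop 4, ev_exp (42 * (B * C + 1)) (show 0 < a / 4 by positivity),
    ev_le (8 * m ^ 2) one_pos (show a / 4 + a / 4 < a by linarith only [a0]),
    ev_le (2 * m) (half_pos hC) (show a / 4 < a by linarith only [a0]),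
    ev_le (B * C + 2) (half_pos hC) (show δ < 1 by linarith only [a0, a2]),
    ev_le (B * C + 1) one_pos a0, ev_le 8 one_pos (show 28 * a < δ by linarith only [a0, a3]),
    ev_le 3 hη (show a + 1 / 2 < 1 by linarith only [a1]),
    ev_le 2 hη (show 1 - a < 1 by linarith only [a0]), ev_le (1 + C) hC a0, ev_le 3 hx a0]
    with n n4 e1 e2 e3 e4 e5 e6 e7 e8 e9 e10
  have n4' : (4 : ℝ) ≤ n := by exact_mod_cast n4
  have n0 : (0 : ℝ) < n := by linarith only [n4']
  have n1 : (1 : ℝ) ≤ n := by linarith only [n4']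
  have one : ∀ {b : ℝ}, 0 ≤ b → 1 ≤ (n : ℝ) ^ b := fun hb => Real.one_le_rpow n1 hb
  have mono : ∀ {b c : ℝ}, b ≤ c → (n : ℝ) ^ b ≤ n ^ c := fun h =>
    Real.rpow_le_rpow_of_exponent_le n1 h
  have wsq : √(n : ℝ) ^ 2 = n := Real.sq_sqrt n0.le
  have w2 : 2 ≤ √(n : ℝ) := Real.le_sqrt_of_sq_le (by linarith only [n4'])
  have cL : ((light (dim δ n) n).card : ℝ) = √n ^ 2 := by simp [light, wsq]
  have cH : ((light (dim δ n) n)ᶜ.card : ℝ) = dim δ n := by simp [card_compl, light]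
  have δ1 := one (b := δ) (by linarith only [a0, a3])
  have d1 : (dim δ n : ℝ) ≤ n ^ δ := Nat.floor_le (by positivity)
  have d2 : (n : ℝ) ^ δ / 2 ≤ dim δ n := (Nat.div_two_lt_floor δ1).le
  have dn : (dim δ n : ℝ) ≤ n :=
    d1.trans ((mono (by linarith only [a0, a2])).trans_eq (Real.rpow_one _))
  have rL : ∀ i ∈ light (dim δ n) n, margin B C δ n i = ⌊C * n⌋₊ := fun i hi =>
    if_neg (mem_light.1 hi)
  have rH : ∀ i ∉ light (dim δ n) n, margin B C δ n i = ⌊B * C * n⌋₊ := fun i hi =>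
    if_pos (not_not.1 (mt mem_light.2 hi))
  have f1 : (⌊C * n⌋₊ : ℝ) ≤ C * n := Nat.floor_le (by positivity)
  have f2 : (⌊B * C * n⌋₊ : ℝ) ≤ B * C * n :=
    Nat.floor_le (mul_nonneg (by linarith only [hC, hBC]) n0.le)
  have f3 := (Nat.lt_floor_add_one (C * n)).le
  have f4 := (Nat.lt_floor_add_one (B * C * n)).le
  have rK : ∀ i, (((margin B C δ n i : ℕ) : ℤ) : ℝ) + √n ^ 2 ≤ (B * C + 1) * √n ^ 2 := fun i => by
    rw [wsq, Int.cast_natCast, margin]
    split_ifs <;> linarith only [f1, f2, mul_le_mul_of_nonneg_right hBC n0.le]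
  have hJ : (⌊(n : ℝ) ^ (a / 4)⌋₊ + 1 : ℝ) * m ≤ 2 * m * n ^ (a / 4) := by
    have := Nat.floor_le (show 0 ≤ (n : ℝ) ^ (a / 4) by positivity)
    linarith only [mul_le_mul_of_nonneg_right this m0,
      mul_le_mul_of_nonneg_right (one (b := a / 4) (by linarith only [a0])) m0]
  have K1 : 1 ≤ B * C + 1 := by linarith only [hBC, hC]
  rw [Real.rpow_zero] at e5 e9 e10
  rw [Real.rpow_one] at e4 e7 e8
  have f5 : (dim δ n : ℝ) * (B * C + 1) + C / 2 * n ≤ ⌊C * n⌋₊ := by
    linarith only [δ1, f3, e4, mul_le_mul_of_nonneg_right d1 (zero_le_one.trans K1)]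
  have hlam : 2 * ((⌊(n : ℝ) ^ (a / 4)⌋₊ + 1) * m : ℝ) ^ 2 ≤ n ^ a := by
    have := pow_le_pow_left₀ (by positivity) hJ 2
    rw [Real.rpow_add n0] at e2
    linarith only [this, e2]
  have l1 := one a0.le
  have l0 := zero_lt_one.trans_le l1
  have ε0 := Real.rpow_pos_of_pos n0 (-(12 * a))
  have ε1 : (n : ℝ) ^ (-(12 * a)) ≤ 1 :=
    Real.rpow_le_one_of_one_le_of_nonpos n1 (by linarith only [a0])
  have g1 : 4 * ((n : ℝ) ^ a) ^ 4 ≤ (n ^ (-(12 * a))) ^ 2 * dim δ n := by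
    have := mul_le_mul_of_nonneg_left (show 4 * (n : ℝ) ^ (28 * a) ≤ dim δ n by
      linarith only [e6, d2]) (sq_nonneg ((n : ℝ) ^ (-(12 * a))))
    refine le_of_eq_of_le ?_ this
    rw [mul_left_comm, ← Real.rpow_mul_natCast n0.le, ← Real.rpow_mul_natCast n0.le,
      ← Real.rpow_add n0]
    congr 2
    push_cast
    ring
  have g2 : ((n : ℝ) ^ a) ^ 4 * dim δ n ≤ n ^ (-(12 * a)) * n := by
    refine (mul_le_mul_of_nonneg_left d1 (by positivity)).trans ?_
    rw [← Real.rpow_mul_natCast n0.le, ← Real.rpow_add n0, ← Real.rpow_add_one n0.ne']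
    exact mono (by push_cast; linarith only [a2])
  have g3 : ((n : ℝ) ^ a) ^ 2 * n ^ (-(12 * a)) ≤ 1 := by
    rw [← Real.rpow_mul_natCast n0.le, ← Real.rpow_add n0]
    exact Real.rpow_le_one_of_one_le_of_nonpos n1 (by push_cast; linarith only [a0])
  have g4 : Bc C * C * n + 2 * (n / n ^ a) + n ^ a * √n + 1 ≤ (⌊B * C * n⌋₊ : ℝ) := by
    rw [Real.rpow_sub n0, Real.rpow_one] at e8
    rw [Real.sqrt_eq_rpow, ← Real.rpow_add n0]
    linarith only [f4, e7, e8, one (b := a + 1 / 2) (by linarith only [a0]), mul_pos hη n0]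
  have l4 := one_le_pow₀ (n := 4) l1
  have d4 : (4 : ℝ) ≤ dim δ n := by
    linarith only [g1, l4, mul_le_of_le_one_left (Nat.cast_nonneg (α := ℝ) (dim δ n))
      (pow_le_one₀ (n := 2) ε0.le ε1)]
  have d0 : (0 : ℝ) < dim δ n := by linarith only [d4]
  have vsq : √(dim δ n : ℝ) ^ 2 = dim δ n := Real.sq_sqrt d0.le
  have hl : ∀ k ∈ light (dim δ n) n, ∀ k' ∈ light (dim δ n) n,
      (margin B C δ n k : ℤ) = margin B C δ n k' := fun k hk k' hk' => by rw [rL k hk, rL k' hk']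
  have hh : ∀ k ∉ light (dim δ n) n, ∀ k' ∉ light (dim δ n) n,
      (margin B C δ n k : ℤ) = margin B C δ n k' := fun k hk k' hk' => by rw [rH k hk, rH k' hk']
  have hK : ∀ i, (((margin B C δ n i : ℕ) : ℤ) : ℝ) ≤ (B * C + 1) * √n ^ 2 := fun i => by
    linarith only [rK i, sq_nonneg √(n : ℝ)]
  have bad := bad_le (lam := n ^ a) cL w2 (by rwa [cH, wsq]) hl hh K1 hK hm hlam fun l hl => by
    simp only [cH, wsq, rL l hl, Int.cast_natCast]
    linarith only [mul_le_mul_of_nonneg_left f5 l0.le,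
      mul_le_mul_of_nonneg_right (hJ.trans e3) n0.le]
  have bad2 := extra_le (ε := n ^ (-(12 * a))) cL w2 (cH.trans vsq.symm)
    (Real.le_sqrt_of_sq_le (by linarith only [d4])) (by rwa [vsq, wsq]) hl hh K1 hK hm hlam
    (le_of_sq_le_sq (by rw [mul_pow, mul_pow, vsq]; linarith only [g1]) (by positivity))
  have bad1 : Pr (fun i => (margin B C δ n i : ℤ)) (fun X => ¬ good (light (dim δ n) n) (n ^ a) √n X)
      ≤ _ := le_of_eq_of_le (Ex_congr fun X _ => by unfold bd; split_ifs <;> simp_all) bad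
  have bad3 := Pr_or (Pr_or bad1 ((Pr_tr _).trans_le bad1)) (Pr_or bad2 ((Pr_tr _).trans_le bad2))
  have fin : ∀ c p : ℝ, c ≤ 42 → p ≤ c * (B * C + 1) * √n ^ 6 / 2 ^ ⌊(n : ℝ) ^ (a / 4)⌋₊ →
      p * √n ^ 4 ≤ 1 := fun c p hc hp => by
    refine (mul_le_mul_of_nonneg_right hp (by positivity)).trans ?_
    rw [div_mul_eq_mul_div, div_le_one (by positivity), mul_assoc, ← pow_add,
      show 6 + 4 = 2 * 5 from rfl, pow_mul, wsq]
    refine le_trans ?_ e1
    gcongr
  have x0l : 1 + Bc C * C ≤ n ^ a := by linarith only [e5, hBC']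
  have sx : Bc C * C * dim δ n ≤ ⌊C * n⌋₊ := by
    linarith only [f5, mul_le_mul_of_nonneg_left hBC' d0.le, d0, mul_pos hC n0]
  have p0 : 0 < n / (n : ℝ) ^ a := by positivity
  have p1 : 0 < (n : ℝ) ^ a * √n := by positivity
  obtain ⟨x, x1, x2, hr⟩ := root_ex (R := ⌊B * C * n⌋₊) hC hx (Bc_eq hC) n0 d0
    (by linarith only [g4, p0, p1]) sx f1
  have sx' := (mul_le_mul_of_nonneg_right x2 d0.le).trans sx
  have xl := root_le l0 hC (by linarith only [e10]) x0l x1 x2 (Bc_eq hC) n0 (by linarith only [d4])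
    (by linarith only [g4, p0, p1]) sx' f1 f3 hr
  refine ⟨x, ⟨one_le_two.trans w2, cL, l1, fun i => (rK i).trans
      (mul_le_mul_of_nonneg_right (by linarith only [e5]) (sq_nonneg _)), fin _ _ (by norm_num) bad⟩,
    ε0, ε1, cH, ?_, by rwa [wsq], ?_, hC, by linarith only [e9], Bc_eq hC,
    fun l hl => by rw [rL l hl, Int.cast_natCast], fun l hl => by rw [rH l hl, Int.cast_natCast],
    by rwa [wsq], by rwa [wsq], by rwa [wsq], ?_, ?_, x2, x0l, sx', by rwa [wsq],
    fin 42 _ le_rfl ((Pr_mono fun X _ hg => ?_).trans (bad3.trans_eq (by ring)))⟩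
  · rw [Real.sqrt_eq_rpow, ← Real.rpow_mul_natCast n0.le, ← Real.rpow_mul_natCast n0.le,
      ← Real.rpow_add n0]
    exact mono (by push_cast; linarith only [a1])
  · linarith only [g1, l4, pow_le_pow_right₀ l1 (show 1 ≤ 4 by norm_num)]
  · rw [wsq]
    linarith only [f2, mul_le_mul_of_nonneg_right (show B * C + 1 ≤ n ^ a by linarith only [e5]) n0.le]
  · rw [← mul_le_mul_iff_left₀ n0]
    linarith only [mul_le_mul_of_nonneg_left xl l0.le, mul_le_mul_of_nonneg_right e10 n0.le,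
      mul_le_mul_of_nonneg_left g2 (sq_nonneg ((n : ℝ) ^ a)), mul_le_mul_of_nonneg_right g3 n0.le]
  · simpa only [good3, not_and_or] using hg

/-- Characteristic function of the block sum centred at `c`. -/
noncomputable def chf (B C δ : ℝ) (c : ℕ → ℝ) (θ : ℝ) (n : ℕ) : ℂ :=
  ∫ X, Complex.exp (θ * (((blockSum (dim δ n) n X : ℝ) - c n) / √n : ℝ) * Complex.I)
    ∂(uniformOn (tables (margin B C δ n) (margin B C δ n)))

lemma weak_iff (B C δ : ℝ) (c : ℕ → ℝ) (v : NNReal) :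
    (∀ f : ℝ →ᵇ ℝ, Tendsto (fun n : ℕ => ∫ X, f (((blockSum (dim δ n) n X : ℝ) - c n) / √n)
      ∂(uniformOn (tables (margin B C δ n) (margin B C δ n)))) atTop
      (𝓝 (∫ x, f x ∂(gaussianReal 0 v)))) ↔
    ∀ θ : ℝ, Tendsto (chf B C δ c θ) atTop (𝓝 (Complex.exp (-(v * θ ^ 2 / 2 : ℝ)))) := by
  let μ : ℕ → ProbabilityMeasure ℝ := fun n =>
    ⟨(uniformOn (tables (margin B C δ n) (margin B C δ n))).map
      fun X => ((blockSum (dim δ n) n X : ℝ) - c n) / √n,
      Measure.isProbabilityMeasure_map (measurable_of_countable _).aemeasurable⟩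
  refine Iff.trans ?_ ((ProbabilityMeasure.tendsto_iff_forall_integral_tendsto.symm.trans
    (ProbabilityMeasure.tendsto_iff_tendsto_charFun (μ := μ)
      (μ₀ := ⟨gaussianReal 0 v, inferInstance⟩))).trans ?_)
  · exact forall_congr' fun f => tendsto_congr fun n => (integral_map
      (measurable_of_countable _).aemeasurable f.continuous.aestronglyMeasurable).symm
  · refine forall_congr' fun θ => ?_
    congr! 1
    · funext n
      rw [charFun_apply_real]
      exact integral_map (measurable_of_countable _).aemeasurable (by fun_prop)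
    · refine congrArg _ ((charFun_gaussianReal θ).trans ?_)
      simp

lemma chf_shift (B C δ : ℝ) (c c' : ℕ → ℝ) (θ : ℝ) (n : ℕ) : chf B C δ c θ n =
    Complex.exp (θ * ((c' n - c n) / √n : ℝ) * Complex.I) * chf B C δ c' θ n := by
  rw [chf, chf, ← integral_const_mul]
  congr 1
  funext X
  rw [← Complex.exp_add]
  congr 1
  push_cast
  ring

theorem core {B C δ : ℝ} (hC : 0 < C) (hB : Bc C < B) (δ0 : 0 < δ) (δ1 : δ < 1) :
    ∃ x : ℕ → ℝ, (∀ θ : ℝ, Tendsto (chf B C δ (fun n => x n * n) θ) atTop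
      (𝓝 (Complex.exp (-((Bc C * C + (Bc C * C) ^ 2) * θ ^ 2 / 2 : ℝ))))) ∧
      Tendsto (fun n : ℕ => (x n * n - ∫ X, (blockSum (dim δ n) n X : ℝ)
        ∂(uniformOn (tables (margin B C δ n) (margin B C δ n)))) / √n) atTop (𝓝 0) ∧
      (1 / 2 ≤ δ → ¬ Tendsto (fun n : ℕ => (x n * n - Bc C * C * n) / √n) atTop (𝓝 0)) := by
  have hx : 0 < Bc C * C := mul_pos (by unfold Bc; positivity) hC
  obtain ⟨a, a0, a1, a2, a3⟩ : ∃ a : ℝ, 0 < a ∧ a ≤ 1 / 72 ∧ δ + 16 * a ≤ 1 ∧ 29 * a ≤ δ :=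
    ⟨min (1 / 72) (min ((1 - δ) / 16) (δ / 29)), by
      simp only [lt_min_iff]; refine ⟨?_, ?_, ?_⟩ <;> linarith only [δ0, δ1], min_le_left _ _, by
      linarith only [min_le_right (1 / 72) (min ((1 - δ) / 16) (δ / 29)),
        min_le_left ((1 - δ) / 16) (δ / 29)], by
      linarith only [min_le_right (1 / 72) (min ((1 - δ) / 16) (δ / 29)),
        min_le_right ((1 - δ) / 16) (δ / 29)]⟩
  obtain ⟨x, H⟩ := (ev_hyp3 hC hB a0 a1 a2 a3).choice
  have hw : Tendsto (fun n : ℕ => √(n : ℝ)) atTop atTop :=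
    Real.tendsto_sqrt_atTop.comp tendsto_natCast_atTop_atTop
  have hγ : Tendsto (fun n : ℕ => 6406 * ((n : ℝ) ^ a) ^ 11 * n ^ (-(12 * a))) atTop (𝓝 0) := by
    have := ((tendsto_rpow_neg_atTop a0).comp tendsto_natCast_atTop_atTop).const_mul 6406
    rw [mul_zero] at this
    refine this.congr' ?_
    filter_upwards [eventually_gt_atTop 0] with n hn
    have n0 : (0 : ℝ) < n := by exact_mod_cast hn
    rw [mul_assoc, ← Real.rpow_mul_natCast n0.le, ← Real.rpow_add n0, Function.comp]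
    congr 2
    push_cast
    ring
  have hx0 : Tendsto x atTop (𝓝 (Bc C * C)) := by
    have := hγ.const_sub (Bc C * C)
    rw [sub_zero] at this
    refine tendsto_of_tendsto_of_tendsto_of_le_of_le' this tendsto_const_nhds ?_
      (H.mono fun n h => h.xx)
    filter_upwards [H] with n h
    have w2 := pow_pos h.w0 2
    have h1 := root_le h.lam0 hC (h.xl.trans (mul_le_mul_of_nonneg_left h.xx h.lam0.le)) h.x0l
      h.xp.le h.xx h.xC w2 h.d1
      (by linarith only [h.big, div_pos w2 h.lam0, mul_pos h.lam0 h.w0]) h.sx h.rC h.rC' h.root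
    rw [← mul_le_mul_iff_left₀ w2]
    linarith only [h1, mul_le_mul_of_nonneg_left h.h2 h.lam0.le,
      mul_le_mul_of_nonneg_left (h.mono 1 2 11 2 (by norm_num)) h.e0.le,
      mul_pos (mul_pos (pow_pos h.lam0 11) h.e0) w2]
  refine ⟨x, fun θ => ?_, ?_, fun δ2 hn => ?_⟩
  · have hs := hx0.add (hx0.pow 2)
    have h2 := ((((hγ.const_mul 2).add (((hs.mul_const (θ ^ 2)).const_add 1).div_atTop hw)).mul
      (hx0.const_add 1)).mul ((hs.mul_const (θ ^ 2)).div_const 2).rexp).mul_const |θ|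
    simp only [mul_zero, add_zero, zero_mul] at h2
    refine Tendsto.congr_dist (f₁ := fun n => Complex.exp (-((x n + x n ^ 2) * θ ^ 2 / 2 : ℝ)))
      ((hs.mul_const _).div_const _).ofReal.neg.cexp
      (squeeze_zero' (.of_forall fun _ => dist_nonneg) ?_ h2)
    filter_upwards [H, hw.eventually_ge_atTop |θ|] with n h hθ
    have d0 : 0 < dim δ n := by exact_mod_cast h.d0
    have hi : (⟨0, by omega⟩ : Fin (dim δ n + n)) ∉ light (dim δ n) n := by simp [mem_light, d0]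
    rw [dist_comm, dist_eq_norm, mul_comm _ (1 + x n)]
    refine le_of_eq_of_le (congrArg norm (congrArg₂ _ ?_ rfl)) (ode (tab_nonempty (margin B C δ n))
      (fun X => rs (light (dim δ n) n) X ⟨0, by omega⟩) h.xp h.w0 hθ fun g hg => h.stein3 hi hg)
    rw [← integral_tables (margin B C δ n) fun X => Complex.exp (θ * ((rs (light (dim δ n) n) X
      ⟨0, by omega⟩ - x n * √n ^ 2) / √n : ℝ) * Complex.I)]
    simp [chf, rs, light, blockSum]
  · have h2 := ((hx0.const_add 1).mul hγ).add (hx0.div_atTop hw)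
    rw [mul_zero, add_zero] at h2
    refine squeeze_zero_norm' ?_ h2
    filter_upwards [H] with n h
    have d0 : 0 < dim δ n := by exact_mod_cast h.d0
    have hi : (⟨0, by omega⟩ : Fin (dim δ n + n)) ∉ light (dim δ n) n := by simp [mem_light, d0]
    have h3 := h.stein3 hi (g := fun _ => 1) fun _ => abs_one.le
    have h4 : ∫ X, (blockSum (dim δ n) n X : ℝ)
        ∂(uniformOn (tables (margin B C δ n) (margin B C δ n))) =
        Ex (fun i => (margin B C δ n i : ℤ)) fun X => rs (light (dim δ n) n) X ⟨0, by omega⟩ := by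
      have := integral_tables (margin B C δ n) fun X => rs (light (dim δ n) n) X ⟨0, by omega⟩
      rw [integral_complex_ofReal] at this
      refine Eq.trans ?_ (Complex.ofReal_injective (this.trans (by simp [Ex])))
      simp [rs, light, blockSum]
    have h5 : Ex (fun i => (margin B C δ n i : ℤ)) (fun _ => 1) = 1 := by
      simp [Ex, (tab_nonempty (margin B C δ n)).ne_empty]
    have hp := h.xp
    have w0 := h.w0
    rw [Ex_congr (G := fun X => x n / (1 + x n) * (1 + √n ^ 2) * 1 -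
      1 / (1 + x n) * rs (light (dim δ n) n) X ⟨0, by omega⟩) fun X _ => by field_simp; ring,
      Ex_sub, Ex_mul, Ex_mul, h5, ← h4, Real.sq_sqrt (Nat.cast_nonneg n)] at h3
    generalize ∫ X, (blockSum (dim δ n) n X : ℝ)
      ∂(uniformOn (tables (margin B C δ n) (margin B C δ n))) = E at h3 ⊢
    rw [show x n / (1 + x n) * (1 + n) * 1 - 1 / (1 + x n) * E = (x n + (x n * n - E)) / (1 + x n) by
      field_simp; ring, abs_div, abs_of_pos (a := 1 + _) (by positivity),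
      div_le_iff₀ (by positivity), abs_le] at h3
    rw [Real.norm_eq_abs, abs_div, abs_of_pos w0, div_le_iff₀ w0, add_mul,
      div_mul_cancel₀ _ w0.ne', abs_le]
    constructor <;> linarith only [h3.1, h3.2, hp]
  · have h2 := hx0.add (hn.const_mul (4 * (1 + C) ^ 2))
    rw [mul_zero, add_zero] at h2
    refine hx.not_ge (le_of_tendsto h2 ?_)
    filter_upwards [H, eventually_ge_atTop 1] with n h n1
    have w0 := h.w0
    have h1 := root_ge hC h.xp.le h.xx h.xC (pow_pos w0 2) h.d0 (by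
      linarith only [h.big, mul_le_mul_of_nonneg_right h.xx (sq_nonneg √(n : ℝ)),
        mul_pos h.lam0 w0, div_pos (pow_pos w0 2) h.lam0]) h.sx h.rC h.root
    have n1' : (1 : ℝ) ≤ n := by exact_mod_cast n1
    have d2 : √(n : ℝ) / 2 ≤ dim δ n := by
      refine le_trans ?_ (Nat.div_two_lt_floor (Real.one_le_rpow n1' δ0.le)).le
      rw [Real.sqrt_eq_rpow]
      gcongr
    rw [Real.sq_sqrt (Nat.cast_nonneg n)] at h1
    rw [← mul_div_assoc, ← le_neg_iff_add_nonpos_right, ← neg_div, le_div_iff₀ w0]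
    linarith only [h1, mul_le_mul_of_nonneg_left d2 h.xp.le]

theorem mean_clt {B C δ : ℝ} (hC : 0 < C) (hB : Bc C < B) (δ0 : 0 < δ) (δ1 : δ < 1) (f : ℝ →ᵇ ℝ) :
    Tendsto (fun n : ℕ => ∫ X, f (((blockSum (dim δ n) n X : ℝ) - ∫ Y, (blockSum (dim δ n) n Y : ℝ)
      ∂(uniformOn (tables (margin B C δ n) (margin B C δ n)))) / √n)
      ∂(uniformOn (tables (margin B C δ n) (margin B C δ n)))) atTop
      (𝓝 (∫ x, f x ∂(gaussianReal 0 (Bc C * C + (Bc C * C) ^ 2).toNNReal))) := by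
  have hx : 0 < Bc C * C := mul_pos (by unfold Bc; positivity) hC
  obtain ⟨x, h1, h2, -⟩ := core hC hB δ0 δ1
  refine (weak_iff B C δ (fun n => ∫ Y, (blockSum (dim δ n) n Y : ℝ)
    ∂(uniformOn (tables (margin B C δ n) (margin B C δ n)))) _).2 (fun θ => ?_) f
  have := ((h2.ofReal.const_mul (θ : ℂ)).mul_const Complex.I).cexp.mul (h1 θ)
  rw [Real.coe_toNNReal _ (by positivity)]
  simp only [Complex.ofReal_zero, mul_zero, zero_mul, Complex.exp_zero, one_mul] at this
  exact this.congr fun n => (chf_shift B C δ _ (fun n => x n * n) θ n).symm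

theorem dichotomy {B C δ : ℝ} (hC : 0 < C) (hB : Bc C < B) (δ0 : 0 < δ) (δ1 : δ < 1) (v : NNReal) :
    (∀ f : ℝ →ᵇ ℝ, Tendsto (fun n : ℕ => ∫ X, f (((blockSum (dim δ n) n X : ℝ) - Bc C * C * n) / √n)
      ∂(uniformOn (tables (margin B C δ n) (margin B C δ n)))) atTop
      (𝓝 (∫ x, f x ∂(gaussianReal 0 v)))) ↔
    δ < 1 / 2 ∧ v = (Bc C * C + (Bc C * C) ^ 2).toNNReal := by
  refine ⟨fun h => ?_, fun h f => h.2 ▸ main hC hB δ0 h.1 f⟩
  have hx : 0 < Bc C * C := mul_pos (by unfold Bc; positivity) hC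
  obtain ⟨x, h1, -, h2⟩ := core hC hB δ0 δ1
  have h3 : ∀ θ : ℝ, Tendsto (fun n : ℕ => Complex.exp (θ * ((x n * n - Bc C * C * n) / √n : ℝ) *
      Complex.I)) atTop (𝓝 (Complex.exp (-(v * θ ^ 2 / 2 : ℝ)) /
        Complex.exp (-((Bc C * C + (Bc C * C) ^ 2) * θ ^ 2 / 2 : ℝ)))) := fun θ => by
    refine (((weak_iff B C δ _ v).1 h θ).div (h1 θ) (Complex.exp_ne_zero _)).congr' ?_
    filter_upwards [(h1 θ).eventually_ne (Complex.exp_ne_zero _)] with n hn
    rw [Pi.div_apply, chf_shift B C δ _ fun n => x n * n, mul_div_cancel_right₀ _ hn]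
  have h4 : (v : ℝ) = Bc C * C + (Bc C * C) ^ 2 := by
    have h5 := (h3 1).norm
    simp only [← Complex.ofReal_mul, Complex.norm_exp_ofReal_mul_I] at h5
    rw [← Complex.exp_sub, Complex.norm_exp, ← Complex.ofReal_neg, ← Complex.ofReal_neg,
      ← Complex.ofReal_sub, Complex.ofReal_re] at h5
    linarith only [(Real.exp_eq_one_iff _).1 (tendsto_nhds_unique h5 tendsto_const_nhds)]
  refine ⟨not_le.1 fun δ2 => h2 δ2 ?_, by rw [← h4, Real.toNNReal_coe]⟩
  refine (tendsto_diracProba_iff_tendsto (map _ atTop)).1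
    (ProbabilityMeasure.tendsto_iff_tendsto_charFun.2 fun θ => ?_)
  have h5 := h3 θ
  rw [h4, div_self (Complex.exp_ne_zero _)] at h5
  simpa [diracProba, mul_comm] using h5

end Pool.Agent.Work.MP_1d48d5_pr.CLT
end
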