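import Mathlib
import Pool.Agent.Work.MP_1d48d5_pr.Defs

-- merged part: Pool.Agent.Work.MP_1d48d5_pr.Geo
section
namespace Pool.Agent.Work.MP_1d48d5_pr

open Finset Real

variable {κ : Type} [Fintype κ] [DecidableEq κ]

lemma sum_prod_pow_le (F : Finset (κ → ℕ)) (u : κ → ℝ) (h0 : ∀ c, 0 ≤ u c) (h1 : ∀ c, u c < 1) :
    ∑ X ∈ F, ∏ c, u c ^ X c ≤ ∏ c, (1 - u c)⁻¹ := by
  let L := F.sup (fun X => univ.sup X) + 1
  have hsub : F ⊆ Fintype.piFinset fun _ => range L := by
    intro X hX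
    simp only [Fintype.mem_piFinset, mem_range, L]
    intro c
    have h2 : X c ≤ univ.sup X := le_sup (f := X) (mem_univ c)
    have h3 : univ.sup X ≤ F.sup (fun X => univ.sup X) :=
      le_sup (f := fun X : κ → ℕ => univ.sup X) hX
    omega
  refine (sum_le_sum_of_subset_of_nonneg hsub fun X _ _ =>
    prod_nonneg fun c _ => pow_nonneg (h0 c) _).trans ?_
  rw [← prod_univ_sum (fun _ => range L) fun c k => u c ^ k]
  refine prod_le_prod (fun c _ => sum_nonneg fun k _ => pow_nonneg (h0 c) _) fun c _ => ?_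
  exact sum_le_hasSum _ (fun k _ => pow_nonneg (h0 c) _) (hasSum_geometric_of_lt_one (h0 c) (h1 c))

/-- Weight of a configuration in the independent geometric model with means `l`. -/
noncomputable def wt (l : κ → ℝ) (X : κ → ℕ) : ℝ := ∏ c, (l c / (1 + l c)) ^ X c

/-- Total weight. -/
noncomputable def Zt (l : κ → ℝ) : ℝ := ∏ c, (1 + l c)

omit [DecidableEq κ] in
lemma wt_nonneg {l : κ → ℝ} (hl : ∀ c, 0 ≤ l c) (X : κ → ℕ) : 0 ≤ wt l X :=
  prod_nonneg fun c _ => pow_nonneg (div_nonneg (hl c) (by linarith [hl c])) _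

omit [DecidableEq κ] in
lemma Zt_pos {l : κ → ℝ} (hl : ∀ c, 0 ≤ l c) : 0 < Zt l :=
  prod_pos fun c _ => by linarith [hl c]

lemma mgf_bound {l φ : ℝ} (hl : 0 ≤ l) (hφ : |φ| ≤ 1) (h4 : 4 * l * |φ| ≤ 1) :
    l / (1 + l) * exp φ < 1 ∧
      (1 - l / (1 + l) * exp φ)⁻¹ ≤ (1 + l) * exp (l * φ + (l + 8 * l ^ 2) * φ ^ 2) := by
  have h1 := abs_exp_sub_one_le hφ
  have h2 := abs_exp_sub_one_sub_id_le hφ
  set z := exp φ - 1 with hz
  have hv : |l * z| ≤ 2 * l * |φ| := by
    rw [abs_mul, abs_of_nonneg hl]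
    linarith only [mul_le_mul_of_nonneg_left h1 hl]
  set v := l * z with hvdef
  have hv2 : v ≤ 1 / 2 := by linarith [le_abs_self v]
  have hpos : 0 < 1 + l := by linarith
  have e1 : 1 - l / (1 + l) * exp φ = (1 - v) / (1 + l) := by
    have : exp φ = z + 1 := by rw [hz]; ring
    rw [this, hvdef]
    field_simp
    ring
  have hv3 : 0 < 1 - v := by linarith
  refine ⟨?_, ?_⟩
  · have : 0 < (1 - v) / (1 + l) := div_pos hv3 hpos
    linarith
  · rw [e1, inv_div, div_le_iff₀ hv3, mul_assoc]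
    refine le_mul_of_one_le_right hpos.le ?_
    have h5 : v + 2 * v ^ 2 ≤ l * φ + (l + 8 * l ^ 2) * φ ^ 2 := by
      have a1 : v ≤ l * φ + l * φ ^ 2 := by
        have : z ≤ φ + φ ^ 2 := by linarith [le_abs_self (z - φ)]
        rw [hvdef]
        linarith only [mul_le_mul_of_nonneg_left this hl]
      have a2 : v ^ 2 ≤ (2 * l * |φ|) ^ 2 := by
        rw [← sq_abs v]
        exact pow_le_pow_left₀ (abs_nonneg _) hv 2
      rw [mul_pow (2 * l), sq_abs] at a2
      linarith only [a1, a2]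
    have h6 : v + 2 * v ^ 2 + 1 ≤ exp (l * φ + (l + 8 * l ^ 2) * φ ^ 2) :=
      (add_one_le_exp _).trans (exp_le_exp.2 h5)
    have h7 : 1 ≤ (v + 2 * v ^ 2 + 1) * (1 - v) := by
      linarith only [mul_nonneg (sq_nonneg v) (sub_nonneg.2 hv2)]
    exact h7.trans (mul_le_mul_of_nonneg_right h6 hv3.le)

lemma chernoff {l : κ → ℝ} (hl : ∀ c, 0 ≤ l c) (co : κ → ℝ) (hco : ∀ c, |co c| ≤ 1) {θ D : ℝ}
    (hθ0 : 0 ≤ θ) (hθ1 : θ ≤ 1) (h4 : ∀ c, 4 * l c * θ ≤ 1) (F : Finset (κ → ℕ))
    (hF : ∀ X ∈ F, ∑ c, co c * l c + D ≤ ∑ c, co c * X c) :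
    ∑ X ∈ F, wt l X ≤
      Zt l * exp (-(θ * D) + θ ^ 2 * ∑ c, co c ^ 2 * (l c + 8 * l c ^ 2)) := by
  have hφ : ∀ c, |θ * co c| ≤ θ := fun c => by
    rw [abs_mul, abs_of_nonneg hθ0]
    exact mul_le_of_le_one_right hθ0 (hco c)
  have hm := fun c => mgf_bound (φ := θ * co c) (hl c) ((hφ c).trans hθ1)
    ((mul_le_mul_of_nonneg_left (hφ c) (by linarith [hl c])).trans (h4 c))
  have hu0 : ∀ c, 0 ≤ l c / (1 + l c) * exp (θ * co c) := fun c =>
    mul_nonneg (div_nonneg (hl c) (by linarith [hl c])) (exp_pos _).le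
  have h1 : ∀ X ∈ F, wt l X ≤ exp (-(θ * (∑ c, co c * l c + D))) *
      ∏ c, (l c / (1 + l c) * exp (θ * co c)) ^ X c := by
    intro X hX
    have e1 : ∏ c, (l c / (1 + l c) * exp (θ * co c)) ^ X c =
        wt l X * exp (θ * ∑ c, co c * X c) := by
      rw [wt, mul_sum, exp_sum, ← prod_mul_distrib]
      refine prod_congr rfl fun c _ => ?_
      rw [mul_pow, ← exp_nat_mul]
      congr 2
      ring
    rw [e1, mul_comm (wt l X), ← mul_assoc, ← exp_add]
    refine le_mul_of_one_le_left (wt_nonneg hl X) (one_le_exp ?_)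
    have := mul_le_mul_of_nonneg_left (hF X hX) hθ0
    linarith
  refine (sum_le_sum h1).trans ?_
  rw [← mul_sum]
  refine (mul_le_mul_of_nonneg_left ((sum_prod_pow_le F _ hu0 fun c => (hm c).1).trans
    (prod_le_prod (fun c _ => inv_nonneg.2 (by linarith [(hm c).1])) fun c _ => (hm c).2))
    (exp_pos _).le).trans (le_of_eq ?_)
  rw [prod_mul_distrib, ← exp_sum, Zt, mul_left_comm, ← exp_add]
  congr 2
  rw [sum_add_distrib, mul_add, mul_sum, mul_sum]
  have e2 : ∑ c, l c * (θ * co c) = ∑ c, θ * (co c * l c) := sum_congr rfl fun c _ => by ring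
  have e3 : ∑ c, (l c + 8 * l c ^ 2) * (θ * co c) ^ 2 =
      ∑ c, θ ^ 2 * (co c ^ 2 * (l c + 8 * l c ^ 2)) := sum_congr rfl fun c _ => by ring
  rw [e2, e3]
  ring

lemma exists_box {l : κ → ℝ} (hl : ∀ c, 0 ≤ l c) :
    ∃ F : Finset (κ → ℕ), 3 / 4 * Zt l ≤ ∑ X ∈ F, wt l X := by
  have h1 : Filter.Tendsto (fun L : ℕ => ∏ c, ∑ k ∈ range L, (l c / (1 + l c)) ^ k) Filter.atTop
      (nhds (Zt l)) := by
    refine tendsto_finsetProd _ fun c _ => ?_
    have hp : 0 < 1 + l c := by linarith [hl c]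
    have := (hasSum_geometric_of_lt_one (div_nonneg (hl c) hp.le)
      ((div_lt_one hp).2 (by linarith))).tendsto_sum_nat
    convert this using 2
    field_simp
    ring
  have h2 : 3 / 4 * Zt l < Zt l := by linarith [Zt_pos hl]
  obtain ⟨L, hL⟩ := (h1.eventually (lt_mem_nhds h2)).exists
  refine ⟨Fintype.piFinset fun _ => range L, hL.le.trans (le_of_eq ?_)⟩
  exact prod_univ_sum (fun _ => range L) fun c k => (l c / (1 + l c)) ^ k

lemma sum_biUnion_le' {α β : Type} [DecidableEq β] (s : Finset α) (t : α → Finset β) (f : β → ℝ)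
    (hf : ∀ b, 0 ≤ f b) : ∑ b ∈ s.biUnion t, f b ≤ ∑ a ∈ s, ∑ b ∈ t a, f b := by
  classical
  induction s using Finset.induction_on with
  | empty => simp
  | insert a s ha ih =>
    rw [biUnion_insert, sum_insert ha]
    have := sum_union_inter (s₁ := t a) (s₂ := s.biUnion t) (f := f)
    have h2 : 0 ≤ ∑ b ∈ t a ∩ s.biUnion t, f b := sum_nonneg fun b _ => hf b
    linarith

/-- Configurations obtained by changing at most one cell by one. -/
def nbrs (X : κ → ℕ) : Finset (κ → ℕ) :=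
  insert X ((univ.image fun c => Function.update X c (X c + 1)) ∪
    (univ.image fun c => Function.update X c (X c - 1)))

lemma card_nbrs (X : κ → ℕ) : (nbrs X).card ≤ 2 * Fintype.card κ + 1 := by
  refine (card_insert_le _ _).trans (Nat.add_le_add_right ((card_union_le _ _).trans ?_) 1)
  have h1 := card_image_le (s := univ) (f := fun c => Function.update X c (X c + 1))
  have h2 := card_image_le (s := univ) (f := fun c => Function.update X c (X c - 1))
  simp only [card_univ] at h1 h2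
  omega

lemma wt_update (l : κ → ℝ) (X : κ → ℕ) (c : κ) :
    wt l (Function.update X c (X c + 1)) = wt l X * (l c / (1 + l c)) := by
  unfold wt
  rw [← mul_prod_erase univ _ (mem_univ c), ← mul_prod_erase univ _ (mem_univ c)]
  rw [prod_congr rfl (g := fun c => (l c / (1 + l c)) ^ X c)
    (fun x hx => by rw [Function.update_of_ne (ne_of_mem_erase hx)])]
  simp only [Function.update_self, pow_succ]
  ring

omit [Fintype κ] in
lemma update_pred_succ (X : κ → ℕ) (c : κ) (h : 0 < X c) :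
    Function.update (Function.update X c (X c - 1)) c (Function.update X c (X c - 1) c + 1) = X := by
  simp only [Function.update_self, Function.update_idem]
  rw [Nat.sub_add_cancel h, Function.update_eq_self]

lemma wt_nbrs {l : κ → ℝ} (hl : ∀ c, 1 / 8 ≤ l c) (X Y : κ → ℕ) (hY : Y ∈ nbrs X) :
    wt l Y ≤ 9 * wt l X := by
  have hl0 : ∀ c, 0 ≤ l c := fun c => by linarith [hl c]
  have hX := wt_nonneg hl0 X
  simp only [nbrs, mem_insert, mem_union, mem_image, mem_univ, true_and] at hY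
  rcases hY with rfl | ⟨c, rfl⟩ | ⟨c, rfl⟩
  · linarith
  · rw [wt_update]
    have : l c / (1 + l c) ≤ 1 := (div_le_one (by linarith [hl c])).2 (by linarith)
    nlinarith
  · rcases Nat.eq_zero_or_pos (X c) with h | h
    · have : Function.update X c (X c - 1) = X := by
        rw [h, Nat.zero_sub, ← h, Function.update_eq_self]
      rw [this]
      linarith
    · have h1 := wt_update l (Function.update X c (X c - 1)) c
      rw [update_pred_succ X c h] at h1
      have h2 : 1 / 9 ≤ l c / (1 + l c) := by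
        rw [le_div_iff₀ (by linarith [hl c])]
        linarith [hl c]
      have h3 := wt_nonneg hl0 (Function.update X c (X c - 1))
      nlinarith

/-- The `E`-step neighbourhood of a finite set of configurations. -/
def ball (T : Finset (κ → ℕ)) : ℕ → Finset (κ → ℕ)
  | 0 => T
  | E + 1 => (ball T E).biUnion nbrs

lemma wt_ball {l : κ → ℝ} (hl : ∀ c, 1 / 8 ≤ l c) (T : Finset (κ → ℕ)) (E : ℕ) :
    ∑ X ∈ ball T E, wt l X ≤ (9 * (2 * Fintype.card κ + 1) : ℝ) ^ E * ∑ X ∈ T, wt l X := by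
  have hl0 : ∀ c, 0 ≤ l c := fun c => by linarith [hl c]
  induction E with
  | zero => simp [ball]
  | succ E ih =>
    refine (sum_biUnion_le' _ _ _ (wt_nonneg hl0)).trans ?_
    have h1 : ∀ X ∈ ball T E, ∑ Y ∈ nbrs X, wt l Y ≤
        (9 * (2 * Fintype.card κ + 1) : ℝ) * wt l X := by
      intro X _
      refine (sum_le_card_nsmul _ _ _ fun Y hY => wt_nbrs hl X Y hY).trans ?_
      have h2 : ((nbrs X).card : ℝ) ≤ 2 * Fintype.card κ + 1 := by exact_mod_cast card_nbrs X
      rw [nsmul_eq_mul]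
      have := wt_nonneg hl0 X
      nlinarith
    refine (sum_le_sum h1).trans ?_
    rw [← mul_sum, pow_succ', mul_assoc _ (_ ^ E)]
    exact mul_le_mul_of_nonneg_left ih (by positivity)

end Pool.Agent.Work.MP_1d48d5_pr
end

-- merged part: Pool.Agent.Work.MP_1d48d5_pr.Tab
section
namespace Pool.Agent.Work.MP_1d48d5_pr

open Finset Real

variable {ι : Type} [Fintype ι] [DecidableEq ι]

def row (X : ι × ι → ℕ) (i : ι) : ℕ := ∑ j, X (i, j)

def col (X : ι × ι → ℕ) (j : ι) : ℕ := ∑ i, X (i, j)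

/-- Tables with row and column sums `r`. -/
def tab (r : ι → ℕ) : Finset (ι × ι → ℕ) :=
  (Fintype.piFinset fun c : ι × ι => range (r c.1 + 1)).filter
    fun X => (∀ i, row X i = r i) ∧ ∀ j, col X j = r j

lemma mem_tab {r : ι → ℕ} {X : ι × ι → ℕ} :
    X ∈ tab r ↔ (∀ i, row X i = r i) ∧ ∀ j, col X j = r j := by
  simp only [tab, mem_filter, Fintype.mem_piFinset, mem_range, and_iff_right_iff_imp]
  rintro ⟨h, _⟩ ⟨i, j⟩
  have : X (i, j) ≤ row X i := single_le_sum (f := fun j => X (i, j)) (fun _ _ => Nat.zero_le _)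
    (mem_univ j)
  have := h i
  simp only
  omega

lemma row_succ (X : ι × ι → ℕ) (c : ι × ι) (i : ι) :
    row (Function.update X c (X c + 1)) i = row X i + if i = c.1 then 1 else 0 := by
  unfold row
  have : ∀ j, Function.update X c (X c + 1) (i, j) = X (i, j) + if (i, j) = c then 1 else 0 := by
    intro j
    by_cases h : (i, j) = c
    · subst h; simp
    · simp [h]
  simp only [this, sum_add_distrib]
  congr 1
  obtain ⟨a, b⟩ := c
  by_cases h : i = a <;> simp [h]

lemma col_succ (X : ι × ι → ℕ) (c : ι × ι) (j : ι) :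
    col (Function.update X c (X c + 1)) j = col X j + if j = c.2 then 1 else 0 := by
  unfold col
  have : ∀ i, Function.update X c (X c + 1) (i, j) = X (i, j) + if (i, j) = c then 1 else 0 := by
    intro i
    by_cases h : (i, j) = c
    · subst h; simp
    · simp [h]
  simp only [this, sum_add_distrib]
  congr 1
  obtain ⟨a, b⟩ := c
  by_cases h : j = b <;> simp [h]

def phi (a b : ℕ) : ℕ := 2 * (b - a) + (a - b)

def pot (r f : ι → ℕ) : ℕ := ∑ i, phi (r i) (f i)

lemma pot_succ (r f g : ι → ℕ) (i₀ : ι) (h : ∀ i, g i = f i + if i = i₀ then 1 else 0) :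
    pot r g + phi (r i₀) (f i₀) = pot r f + phi (r i₀) (f i₀ + 1) := by
  unfold pot
  rw [← add_sum_erase univ _ (mem_univ i₀), ← add_sum_erase univ _ (mem_univ i₀)]
  rw [sum_congr rfl (g := fun i => phi (r i) (f i))
    (fun x hx => by rw [h x, if_neg (ne_of_mem_erase hx), add_zero]), h i₀, if_pos rfl]
  ring

omit [DecidableEq ι] in
lemma sum_row_eq_sum_col (X : ι × ι → ℕ) : ∑ i, row X i = ∑ j, col X j := sum_comm

lemma mem_ball (r : ι → ℕ) (E : ℕ) (X : ι × ι → ℕ)
    (h : pot r (row X) + pot r (col X) ≤ E) : X ∈ ball (tab r) E := by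
  induction E generalizing X with
  | zero =>
    simp only [pot, nonpos_iff_eq_zero, Nat.add_eq_zero_iff, sum_eq_zero_iff, mem_univ,
      true_imp_iff, phi] at h
    refine mem_tab.2 ⟨fun i => ?_, fun j => ?_⟩
    · have := h.1 i; omega
    · have := h.2 j; omega
  | succ E ih =>
    simp only [ball, mem_biUnion]
    have dec : ∀ c : ι × ι, 0 < X c → (r c.1 < row X c.1 ∨ r c.2 < col X c.2) →
        ∃ Y ∈ ball (tab r) E, X ∈ nbrs Y := by
      intro c hc hex
      let Y := Function.update X c (X c - 1)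
      have hXY : Function.update Y c (Y c + 1) = X := update_pred_succ X c hc
      have h1 := pot_succ r (row Y) (row X) c.1 (fun i => by rw [← hXY]; exact row_succ Y c i)
      have h2 := pot_succ r (col Y) (col X) c.2 (fun i => by rw [← hXY]; exact col_succ Y c i)
      have h3 : row X c.1 = row Y c.1 + 1 := by
        rw [← hXY, row_succ, if_pos rfl]
      have h4 : col X c.2 = col Y c.2 + 1 := by
        rw [← hXY, col_succ, if_pos rfl]
      refine ⟨Y, ih Y ?_, ?_⟩
      · unfold phi at h1 h2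
        omega
      · simp only [nbrs, mem_insert, mem_union, mem_image, mem_univ, true_and]
        exact Or.inr (Or.inl ⟨c, hXY⟩)
    by_cases hr : ∃ i, r i < row X i
    · obtain ⟨i, hi⟩ := hr
      obtain ⟨j, _, hj⟩ := exists_ne_zero_of_sum_ne_zero (s := univ) (f := fun j => X (i, j))
        (by unfold row at hi; omega)
      exact dec (i, j) (Nat.pos_of_ne_zero hj) (Or.inl hi)
    by_cases hc : ∃ j, r j < col X j
    · obtain ⟨j, hj⟩ := hc
      obtain ⟨i, _, hi⟩ := exists_ne_zero_of_sum_ne_zero (s := univ) (f := fun i => X (i, j))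
        (by unfold col at hj; omega)
      exact dec (i, j) (Nat.pos_of_ne_zero hi) (Or.inr hj)
    push Not at hr hc
    by_cases hd : ∃ i, row X i < r i
    · obtain ⟨i, hi⟩ := hd
      have h1 : ∑ j, col X j < ∑ j, r j := by
        rw [← sum_row_eq_sum_col]
        exact sum_lt_sum (fun i _ => hr i) ⟨i, mem_univ _, hi⟩
      obtain ⟨j, _, hj⟩ := exists_lt_of_sum_lt h1
      let Y := Function.update X (i, j) (X (i, j) + 1)
      have h2 := pot_succ r (row X) (row Y) i (fun i' => row_succ X (i, j) i')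
      have h3 := pot_succ r (col X) (col Y) j (fun i' => col_succ X (i, j) i')
      refine ⟨Y, ih Y ?_, ?_⟩
      · unfold phi at h2 h3
        omega
      · simp only [nbrs, mem_insert, mem_union, mem_image, mem_univ, true_and]
        refine Or.inr (Or.inr ⟨(i, j), ?_⟩)
        simp [Y]
    · push Not at hd
      have h1 : ∀ i, row X i = r i := fun i => le_antisymm (hr i) (hd i)
      have h2 : ∀ j, col X j = r j := by
        have h3 : ∑ j, col X j = ∑ j, r j := by
          rw [← sum_row_eq_sum_col]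
          exact sum_congr rfl fun i _ => h1 i
        exact fun j => (sum_eq_sum_iff_of_le fun j _ => hc j).1 h3 j (mem_univ j)
      refine ⟨X, ih X ?_, by simp [nbrs]⟩
      simp [pot, phi, h1, h2]

omit [DecidableEq ι] in
lemma pot_le (r f : ι → ℕ) : (pot r f : ℝ) ≤ 2 * ∑ i, |(f i : ℝ) - r i| := by
  unfold pot
  push_cast
  rw [mul_sum]
  refine sum_le_sum fun i _ => ?_
  unfold phi
  rcases le_total (r i) (f i) with h | h
  · rw [Nat.sub_eq_zero_of_le h, add_zero]
    push_cast [h]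
    have := le_abs_self ((f i : ℝ) - r i)
    linarith
  · rw [Nat.sub_eq_zero_of_le h, mul_zero, zero_add]
    push_cast [h]
    have := neg_abs_le ((f i : ℝ) - r i)
    have := abs_nonneg ((f i : ℝ) - r i)
    linarith

/-- Total deviation bound, for an abstract projection `pr` from cells to lines. -/
lemma dev_bound {l : ι × ι → ℝ} (hl : ∀ c, 0 ≤ l c) (pr : ι × ι → ι) (r : ι → ℕ)
    (f : (ι × ι → ℕ) → ι → ℕ)
    (hf : ∀ (X : ι × ι → ℕ) (e : ι → ℝ), ∑ c, e (pr c) * X c = ∑ i, e i * f X i)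
    (hr : ∀ e : ι → ℝ, ∑ c, e (pr c) * l c = ∑ i, e i * r i)
    {θ D V : ℝ} (hθ0 : 0 ≤ θ) (hθ1 : θ ≤ 1) (h4 : ∀ c, 4 * l c * θ ≤ 1)
    (hV : ∑ c, (l c + 8 * l c ^ 2) ≤ V) (F : Finset (ι × ι → ℕ))
    (hF : ∀ X ∈ F, D ≤ ∑ i, |(f X i : ℝ) - r i|) :
    ∑ X ∈ F, wt l X ≤ 2 ^ Fintype.card ι * (Zt l * exp (-(θ * D) + θ ^ 2 * V)) := by
  let e : Finset ι → ι → ℝ := fun S i => if i ∈ S then 1 else -1
  have he : ∀ S i, |e S i| = 1 := fun S i => by simp only [e]; split_ifs <;> simp
  let G : Finset ι → Finset (ι × ι → ℕ) := fun S =>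
    F.filter fun X => ∑ c, e S (pr c) * l c + D ≤ ∑ c, e S (pr c) * X c
  have hsub : F ⊆ (univ : Finset (Finset ι)).biUnion G := by
    intro X hX
    simp only [mem_biUnion, mem_univ, true_and, G, mem_filter]
    refine ⟨univ.filter fun i => r i ≤ f X i, hX, ?_⟩
    rw [hf, hr]
    have h1 : ∑ i, |(f X i : ℝ) - r i| = ∑ i, e (univ.filter fun i => r i ≤ f X i) i * f X i -
        ∑ i, e (univ.filter fun i => r i ≤ f X i) i * r i := by
      rw [← sum_sub_distrib]
      refine sum_congr rfl fun i _ => ?_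
      simp only [e, mem_filter, mem_univ, true_and]
      split_ifs with h
      · have : (r i : ℝ) ≤ f X i := by exact_mod_cast h
        rw [abs_of_nonneg (by linarith)]; ring
      · have : (f X i : ℝ) ≤ r i := by exact_mod_cast (not_le.1 h).le
        rw [abs_of_nonpos (by linarith)]; ring
    have := hF X hX
    linarith
  refine (sum_le_sum_of_subset_of_nonneg hsub fun X _ _ => wt_nonneg hl X).trans ?_
  refine (sum_biUnion_le' _ _ _ (wt_nonneg hl)).trans ?_
  refine (sum_le_card_nsmul _ _ (Zt l * exp (-(θ * D) + θ ^ 2 * V)) fun S _ => ?_).trans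
    (by simp)
  refine (chernoff hl (fun c => e S (pr c)) (fun c => (he S _).le) hθ0 hθ1 h4 _
    (fun X hX => (mem_filter.1 hX).2)).trans ?_
  have h2 : ∑ c, e S (pr c) ^ 2 * (l c + 8 * l c ^ 2) = ∑ c, (l c + 8 * l c ^ 2) :=
    sum_congr rfl fun c _ => by rw [← sq_abs, he]; ring
  rw [h2]
  have := Zt_pos hl
  gcongr

/-- Lower bound for the weight of the set of tables. -/
lemma tab_lower {l : ι × ι → ℝ} (hl : ∀ c, 1 / 8 ≤ l c) (r : ι → ℕ)
    (hrow : ∀ i, ∑ j, l (i, j) = r i) (hcol : ∀ j, ∑ i, l (i, j) = r j)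
    {θ V : ℝ} {D : ℕ} (hθ0 : 0 ≤ θ) (hθ1 : θ ≤ 1) (h4 : ∀ c, 4 * l c * θ ≤ 1)
    (hV : ∑ c, (l c + 8 * l c ^ 2) ≤ V)
    (hD : 2 ^ Fintype.card ι * exp (-(θ * D) + θ ^ 2 * V) ≤ 1 / 8) :
    Zt l / 2 ≤ (9 * (2 * Fintype.card (ι × ι) + 1) : ℝ) ^ (4 * D) * ∑ X ∈ tab r, wt l X := by
  classical
  have hl0 : ∀ c, 0 ≤ l c := fun c => by linarith [hl c]
  obtain ⟨F, hF⟩ := exists_box hl0
  have hZ := Zt_pos hl0
  have h1 := dev_bound hl0 Prod.fst r row
    (fun X e => by simp [Fintype.sum_prod_type, row, mul_sum])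
    (fun e => by simp [Fintype.sum_prod_type, ← mul_sum, hrow]) hθ0 hθ1 h4 hV
    (F.filter fun X => (D : ℝ) ≤ ∑ i, |(row X i : ℝ) - r i|) (fun X hX => (mem_filter.1 hX).2)
  have h2 := dev_bound hl0 Prod.snd r col
    (fun X e => by simp [Fintype.sum_prod_type_right, col, mul_sum])
    (fun e => by simp [Fintype.sum_prod_type_right, ← mul_sum, hcol]) hθ0 hθ1 h4 hV
    (F.filter fun X => (D : ℝ) ≤ ∑ i, |(col X i : ℝ) - r i|) (fun X hX => (mem_filter.1 hX).2)
  have h3 : 2 ^ Fintype.card ι * (Zt l * exp (-(θ * D) + θ ^ 2 * V)) ≤ Zt l / 8 := by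
    rw [mul_left_comm]
    have := mul_le_mul_of_nonneg_left hD hZ.le
    linarith
  have hsub : F ⊆ ball (tab r) (4 * D) ∪
      ((F.filter fun X => (D : ℝ) ≤ ∑ i, |(row X i : ℝ) - r i|) ∪
      (F.filter fun X => (D : ℝ) ≤ ∑ i, |(col X i : ℝ) - r i|)) := by
    intro X hX
    simp only [mem_union, mem_filter, hX, true_and]
    by_contra hcon
    push Not at hcon
    apply hcon.1
    apply mem_ball
    have a1 := pot_le r (row X)
    have a2 := pot_le r (col X)
    have : ((pot r (row X) + pot r (col X) : ℕ) : ℝ) ≤ ((4 * D : ℕ) : ℝ) := by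
      push_cast
      linarith [hcon.2.1, hcon.2.2]
    exact_mod_cast this
  have h5 := sum_le_sum_of_subset_of_nonneg hsub fun X _ _ => wt_nonneg hl0 X
  have un : ∀ A B : Finset (ι × ι → ℕ), ∑ X ∈ A ∪ B, wt l X ≤ ∑ X ∈ A, wt l X + ∑ X ∈ B, wt l X := by
    intro A B
    have := sum_union_inter (s₁ := A) (s₂ := B) (f := wt l)
    have h2 : 0 ≤ ∑ b ∈ A ∩ B, wt l b := sum_nonneg fun b _ => wt_nonneg hl0 b
    linarith
  have h6 := un (ball (tab r) (4 * D))
    ((F.filter fun X => (D : ℝ) ≤ ∑ i, |(row X i : ℝ) - r i|) ∪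
      (F.filter fun X => (D : ℝ) ≤ ∑ i, |(col X i : ℝ) - r i|))
  have h7 := un (F.filter fun X => (D : ℝ) ≤ ∑ i, |(row X i : ℝ) - r i|)
      (F.filter fun X => (D : ℝ) ≤ ∑ i, |(col X i : ℝ) - r i|)
  have h8 := wt_ball hl (tab r) (4 * D)
  linarith

lemma wt_tab {l : ι × ι → ℝ} (a : ι → ℝ) (ha : ∀ c, l c / (1 + l c) = a c.1 * a c.2)
    (r : ι → ℕ) {X : ι × ι → ℕ} (hX : X ∈ tab r) : wt l X = (∏ i, a i ^ r i) ^ 2 := by
  obtain ⟨h1, h2⟩ := mem_tab.1 hX
  simp only [wt, ha, mul_pow, prod_mul_distrib]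
  rw [sq]
  congr 1
  · rw [Fintype.prod_prod_type]
    refine prod_congr rfl fun i _ => ?_
    rw [← h1 i, row, ← prod_pow_eq_pow_sum]
  · rw [Fintype.prod_prod_type_right]
    refine prod_congr rfl fun i _ => ?_
    rw [← h2 i, col, ← prod_pow_eq_pow_sum]

end Pool.Agent.Work.MP_1d48d5_pr
end

-- merged part: Pool.Agent.Work.MP_1d48d5_pr.Block
section
namespace Pool.Agent.Work.MP_1d48d5_pr

open Finset Real

variable {ι : Type} [Fintype ι] [DecidableEq ι]

/-- Sum of the entries of row `i` in the columns outside `Big`. -/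
def SS (Big : Finset ι) (X : ι × ι → ℕ) (i : ι) : ℕ := ∑ j ∈ Bigᶜ, X (i, j)

lemma bad_upper {l : ι × ι → ℝ} (hl : ∀ c, 0 ≤ l c) (Big : Finset ι) {t τ θ : ℝ} (k : ℕ)
    (ht : ∀ i ∈ Big, ∀ j ∉ Big, l (i, j) = t)
    (hθ0 : 0 ≤ θ) (hθ1 : θ ≤ 1) (h4 : ∀ c, 4 * l c * θ ≤ 1) (F : Finset (ι × ι → ℕ))
    (hF : ∀ X ∈ F, k ≤ (Big.filter fun i => τ < SS Big X i).card) :
    ∑ X ∈ F, wt l X ≤ 2 ^ Big.card * (Zt l *
      exp (-(θ * (k * (τ - Bigᶜ.card * t))) + θ ^ 2 * (k * Bigᶜ.card * (t + 8 * t ^ 2)))) := by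
  let co : Finset ι → ι × ι → ℝ := fun I c => if c.1 ∈ I ∧ c.2 ∈ Bigᶜ then 1 else 0
  have hco : ∀ (I : Finset ι) (g : ι × ι → ℝ), ∑ c, co I c * g c = ∑ i ∈ I, ∑ j ∈ Bigᶜ, g (i, j) := by
    intro I g
    rw [← sum_product' I Bigᶜ fun i j => g (i, j)]
    simp only [co, ite_mul, one_mul, zero_mul]
    rw [← sum_filter]
    refine sum_congr ?_ fun _ _ => rfl
    ext c
    simp
  let G : Finset ι → Finset (ι × ι → ℕ) := fun I =>
    F.filter fun X => k * τ ≤ ∑ i ∈ I, (SS Big X i : ℝ)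
  have hsub : F ⊆ (powersetCard k Big).biUnion G := by
    intro X hX
    obtain ⟨I, hI, hIc⟩ := exists_subset_card_eq (hF X hX)
    simp only [mem_biUnion, G, mem_filter, mem_powersetCard]
    refine ⟨I, ⟨hI.trans (filter_subset _ _), hIc⟩, hX, ?_⟩
    rw [← hIc, ← nsmul_eq_mul]
    exact card_nsmul_le_sum _ _ _ fun i hi => (mem_filter.1 (hI hi)).2.le
  refine (sum_le_sum_of_subset_of_nonneg hsub fun X _ _ => wt_nonneg hl X).trans ?_
  refine (sum_biUnion_le' _ _ _ (wt_nonneg hl)).trans ?_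
  have hZ := Zt_pos hl
  refine (sum_le_card_nsmul _ _ (Zt l *
      exp (-(θ * (k * (τ - Bigᶜ.card * t))) + θ ^ 2 * (k * Bigᶜ.card * (t + 8 * t ^ 2))))
      fun I hI => ?_).trans ?_
  · obtain ⟨hI1, hI2⟩ := mem_powersetCard.1 hI
    have e1 : ∀ g : ℝ → ℝ, ∑ c, co I c * g (l c) = k * Bigᶜ.card * g t := by
      intro g
      rw [hco, sum_congr rfl (g := fun _ => Bigᶜ.card * g t), sum_const, hI2, nsmul_eq_mul,
        mul_assoc]
      intro i hi
      rw [sum_congr rfl (g := fun _ => g t), sum_const, nsmul_eq_mul]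
      intro j hj
      rw [ht i (hI1 hi) j (mem_compl.1 hj)]
    refine (chernoff hl (co I) (fun c => ?_) hθ0 hθ1 h4 (D := k * (τ - Bigᶜ.card * t)) _
      (fun X hX => ?_)).trans (le_of_eq ?_)
    · simp only [co]; split_ifs <;> simp
    · have h1 := (mem_filter.1 hX).2
      rw [e1 fun x => x, hco]
      simp only [SS, Nat.cast_sum] at h1
      linarith
    · rw [← e1 fun x => x + 8 * x ^ 2]
      congr 4
      refine sum_congr rfl fun c _ => ?_
      simp only [co]; split_ifs <;> simp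
  · rw [nsmul_eq_mul, card_powersetCard]
    refine mul_le_mul_of_nonneg_right ?_ (by positivity)
    exact_mod_cast Nat.choose_le_two_pow _ _

lemma exchange (r : ι → ℕ) (Big : Finset ι) (τ : ℝ) {i i' : ι} (h : r i = r i') :
    ((tab r).filter fun X => τ < SS Big X i).card ≤
      ((tab r).filter fun X => τ < SS Big X i').card := by
  refine card_le_card_of_injOn (fun X c => X (Equiv.swap i i' c.1, c.2)) ?_ ?_
  · intro X hX
    simp only [coe_filter, Set.mem_ofPred_eq, mem_tab] at hX ⊢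
    refine ⟨⟨fun a => ?_, fun b => ?_⟩, ?_⟩
    · have := hX.1.1 (Equiv.swap i i' a)
      simp only [row] at this ⊢
      rw [this]
      exact Equiv.apply_swap_eq_self h a
    · have := hX.1.2 b
      simp only [col] at this ⊢
      rw [← this]
      exact Equiv.sum_comp (Equiv.swap i i') fun a => X (a, b)
    · simpa [SS] using hX.2
  · intro X _ Y _ hXY
    funext c
    have := congrFun hXY (Equiv.swap i i' c.1, c.2)
    simpa using this

lemma count (r : ι → ℕ) (Big : Finset ι) (τ : ℝ) (k : ℕ) {i₀ : ι}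
    (h : ∀ i ∈ Big, r i₀ = r i) :
    Big.card * ((tab r).filter fun X => τ < SS Big X i₀).card ≤
      k * (tab r).card + Big.card *
        ((tab r).filter fun X => k ≤ (Big.filter fun i => τ < SS Big X i).card).card := by
  have h1 : Big.card * ((tab r).filter fun X => τ < SS Big X i₀).card ≤
      ∑ i ∈ Big, ((tab r).filter fun X => τ < SS Big X i).card := by
    rw [← smul_eq_mul]
    exact card_nsmul_le_sum _ _ _ fun i hi => exchange r Big τ (h i hi)
  refine h1.trans ?_
  have h2 : ∑ i ∈ Big, ((tab r).filter fun X => τ < SS Big X i).card =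
      ∑ X ∈ tab r, (Big.filter fun i => τ < SS Big X i).card := by
    simp only [card_filter]
    exact sum_comm
  rw [h2, card_filter, mul_sum, mul_comm k, ← smul_eq_mul, ← sum_const, ← sum_add_distrib]
  refine sum_le_sum fun X _ => ?_
  split_ifs with h3
  · have := card_filter_le Big fun i => τ < SS Big X i
    omega
  · omega

lemma exists_params {η : ℝ} (h0 : 0 < η) (h1 : η ≤ 1 / 36) :
    ∃ t x y : ℝ, 1 / 8 ≤ t ∧ t ≤ 1 - η / 2 ∧ 0 < x ∧ 0 < y ∧
      (2 - t) / η / (1 + (2 - t) / η) = x * x ∧ t / (1 + t) = x * y ∧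
      (1 / 3 - η * t) / (1 + (1 / 3 - η * t)) = y * y := by
  let A : ℝ → ℝ := fun t => (2 - t) / (η + (2 - t))
  let B : ℝ → ℝ := fun t => (1 / 3 - η * t) / (1 + (1 / 3 - η * t))
  let g : ℝ → ℝ := fun t => A t * B t - (t / (1 + t)) ^ 2
  have hc : ContinuousOn g (Set.Icc (1 / 8) 1) := by
    refine ContinuousOn.sub (ContinuousOn.mul ?_ ?_) (ContinuousOn.pow ?_ 2)
    · refine ContinuousOn.div (by fun_prop) (by fun_prop) fun t ht => ?_
      linarith [ht.2]
    · refine ContinuousOn.div (by fun_prop) (by fun_prop) fun t ht => ?_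
      nlinarith [ht.2, ht.1]
    · refine ContinuousOn.div (by fun_prop) (by fun_prop) fun t ht => ?_
      linarith [ht.1]
  have hA : ∀ t, t ≤ 1 → 1 / 2 ≤ A t ∧ A t < 1 := fun t ht =>
    ⟨by rw [le_div_iff₀ (by linarith)]; linarith, by rw [div_lt_one (by linarith)]; linarith⟩
  have hB : ∀ t, 0 ≤ t → t ≤ 1 → 1 / 9 ≤ B t ∧ B t ≤ 1 / 4 - η * t / 2 := by
    intro t ht0 ht1
    have a1 : 0 ≤ η * t := mul_nonneg h0.le ht0
    have a2 : η * t ≤ 1 / 36 := (mul_le_of_le_one_right h0.le ht1).trans h1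
    have a3 : 0 < 1 + (1 / 3 - η * t) := by linarith only [a2]
    refine ⟨?_, ?_⟩
    · rw [le_div_iff₀ a3]; linarith only [a2]
    · rw [div_le_iff₀ a3]; linarith only [a1, sq_nonneg (η * t)]
  have g0 : 0 ≤ g (1 / 8) := by
    have a := hA (1 / 8) (by norm_num)
    have b := hB (1 / 8) (by norm_num) (by norm_num)
    have c := mul_le_mul a.1 b.1 (by norm_num) (by linarith only [a.1])
    have d : ((1 / 8 : ℝ) / (1 + 1 / 8)) ^ 2 = 1 / 81 := by norm_num
    simp only [g]
    linarith only [c, d]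
  have g1 : g 1 ≤ 0 := by
    have a := hA 1 le_rfl
    have b := hB 1 (by norm_num) le_rfl
    have c := mul_le_of_le_one_left (show 0 ≤ B 1 by linarith only [b.1]) a.2.le
    have d : ((1 : ℝ) / (1 + 1)) ^ 2 = 1 / 4 := by norm_num
    simp only [g]
    linarith only [c, d, b.2, h0]
  obtain ⟨t, ht, hgt⟩ := intermediate_value_Icc' (by norm_num) hc ⟨g1, g0⟩
  have ht0 : 0 ≤ t := by linarith only [ht.1]
  have a := hA t ht.2
  have b := hB t ht0 ht.2
  have a0 : 0 < A t := by linarith only [a.1]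
  have b0 : 0 < B t := by linarith only [b.1]
  have hq : 0 ≤ t / (1 + t) := by positivity
  have hg : A t * B t = (t / (1 + t)) ^ 2 := sub_eq_zero.1 hgt
  refine ⟨t, √(A t), √(B t), ht.1, ?_, sqrt_pos.2 a0, sqrt_pos.2 b0, ?_, ?_, ?_⟩
  · by_contra hcon
    push Not at hcon
    have q1 := mul_le_mul_of_nonneg_left hcon.le h0.le
    have q2 := mul_le_mul_of_nonneg_left h1 h0.le
    have h2 : (t / (1 + t)) ^ 2 ≤ 1 / 4 - η * t / 2 := by
      linarith only [hg, mul_le_of_le_one_left b0.le a.2.le, b.2]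
    have h3 : 1 / 2 - η / 6 ≤ t / (1 + t) := by
      rw [le_div_iff₀ (by linarith only [ht0])]
      linarith only [hcon, q1, q2, h0]
    have h4 : (1 / 2 - η / 6) ^ 2 ≤ (t / (1 + t)) ^ 2 :=
      pow_le_pow_left₀ (by linarith only [h1]) h3 2
    linarith only [h2, h4, q1, q2, h0]
  · rw [mul_self_sqrt a0.le]
    simp only [A]
    have : η + (2 - t) ≠ 0 := by linarith only [ht.2, h0]
    field_simp
  · rw [← sqrt_mul a0.le, hg, sqrt_sq hq]
  · rw [mul_self_sqrt b0.le]

end Pool.Agent.Work.MP_1d48d5_pr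
end

-- merged part: Pool.Agent.Work.MP_1d48d5_pr.Bound
section
namespace Pool.Agent.Work.MP_1d48d5_pr

open Finset Real

variable {ι : Type} [Fintype ι] [DecidableEq ι]

lemma sum_ite_big (Big : Finset ι) (a b : ℝ) :
    ∑ j, (if j ∈ Big then a else b) = Big.card * a + Bigᶜ.card * b := by
  rw [← sum_add_sum_compl Big, sum_congr rfl (g := fun _ => a) (fun j hj => if_pos hj),
    sum_congr rfl (g := fun _ => b) (fun j hj => if_neg (mem_compl.1 hj))]
  simp

lemma two_pow_le_exp (m : ℕ) : (2 : ℝ) ^ m ≤ exp m := by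
  rw [← mul_one (m : ℝ), exp_nat_mul]
  refine pow_le_pow_left₀ (by norm_num) ?_ m
  linarith [add_one_le_exp (1 : ℝ)]

lemma exp_neg_le (x : ℝ) (hx : x ≤ -4) : exp x ≤ 1 / 16 := by
  refine (exp_le_exp.2 hx).trans ?_
  rw [exp_neg, one_div]
  refine inv_anti₀ (by norm_num) ?_
  have := two_pow_le_exp 4
  norm_num at this ⊢
  exact this

lemma main_bound (u k ρ : ℕ) (hu : 3 * 10 ^ 7 ≤ u) (Big : Finset ι)
    (hd : Big.card = (u ^ 2) ^ 7) (hn : Bigᶜ.card = (u ^ 2) ^ 8)
    (hk : 4 * k = (u ^ 2) ^ 7) (hρ : 3 * ρ = (u ^ 2) ^ 8) (r : ι → ℕ)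
    (hr : ∀ i, r i = if i ∈ Big then 2 * (u ^ 2) ^ 8 else ρ) {i₀ : ι} (hi₀ : i₀ ∈ Big) :
    8 * ((tab r).filter fun X =>
        (((u ^ 2 : ℕ) : ℝ) ^ 8 - ((u ^ 2 : ℕ) : ℝ) ^ 4) < SS Big X i₀).card ≤
      3 * (tab r).card := by
  obtain ⟨s, hs⟩ : ∃ s : ℝ, s = ((u ^ 2 : ℕ) : ℝ) := ⟨_, rfl⟩
  rw [← hs]
  have hu' : (3 * 10 ^ 7 : ℝ) ≤ u := by exact_mod_cast hu
  have hsu : s = (u : ℝ) ^ 2 := by rw [hs]; push_cast; ring
  have hu6 : (6 : ℝ) ≤ u := le_trans (by norm_num) hu'
  have hu0 : (0 : ℝ) ≤ u := Nat.cast_nonneg u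
  have hs36 : 36 ≤ s := by
    rw [hsu]; linarith only [mul_le_mul hu6 hu6 (by norm_num) hu0]
  have hs0 : 0 < s := by linarith only [hs36]
  have hs1 : 1 ≤ s := by linarith only [hs36]
  have hd' : (Big.card : ℝ) = s ^ 7 := by rw [hd, hs]; push_cast; ring
  have hn' : (Bigᶜ.card : ℝ) = s ^ 8 := by rw [hn, hs]; push_cast; ring
  have hk' : (k : ℝ) = s ^ 7 / 4 := by
    have : ((4 * k : ℕ) : ℝ) = s ^ 7 := by rw [hk, hs]; push_cast; ring
    push_cast at this
    linarith only [this]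
  have hρ' : (ρ : ℝ) = s ^ 8 / 3 := by
    have : ((3 * ρ : ℕ) : ℝ) = s ^ 8 := by rw [hρ, hs]; push_cast; ring
    push_cast at this
    linarith only [this]
  have hr' : ∀ i, (r i : ℝ) = if i ∈ Big then 2 * s ^ 8 else s ^ 8 / 3 := by
    intro i
    rw [hr i]
    split_ifs
    · rw [hs]; push_cast; ring
    · exact hρ'
  have hη : 1 / s ≤ 1 / 36 := one_div_le_one_div_of_le (by norm_num) hs36
  have hη0 : 0 < 1 / s := by positivity
  obtain ⟨t, x, y, ht0, ht1, hx, hy, e11, e12, e22⟩ := exists_params hη0 hη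
  have ht2 : t ≤ 1 := by linarith only [ht1, hη0]
  have ht3 : 0 ≤ t := by linarith only [ht0]
  have hηt : 1 / s * t ≤ 1 / 36 := (mul_le_of_le_one_right hη0.le ht2).trans hη
  have hηt0 : 0 ≤ 1 / s * t := mul_nonneg hη0.le ht3
  have hz11 : (2 - t) / (1 / s) = (2 - t) * s := by field_simp
  let l : ι × ι → ℝ := fun c => if c.1 ∈ Big then (if c.2 ∈ Big then (2 - t) / (1 / s) else t)
    else (if c.2 ∈ Big then t else 1 / 3 - 1 / s * t)
  have hl : ∀ c, 1 / 8 ≤ l c := by
    intro c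
    simp only [l]
    split_ifs
    · rw [hz11]
      have := mul_le_mul_of_nonneg_right ht2 hs0.le
      linarith only [this, hs1]
    · exact ht0
    · exact ht0
    · linarith only [hηt]
  have hl0 : ∀ c, 0 ≤ l c := fun c => by linarith only [hl c]
  have hl2 : ∀ c, l c ≤ 2 * s := by
    intro c
    simp only [l]
    split_ifs
    · rw [hz11]
      have : 0 ≤ t * s := mul_nonneg ht3 hs0.le
      linarith only [this]
    · linarith only [ht2, hs1]
    · linarith only [ht2, hs1]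
    · linarith only [hηt0, hs1]
  have hrow : ∀ i, ∑ j, l (i, j) = r i := by
    intro i
    rw [hr' i]
    by_cases hi : i ∈ Big
    · simp only [l, hi, if_true]
      rw [sum_ite_big, hd', hn', hz11]; ring
    · simp only [l, hi, if_false]
      rw [sum_ite_big, hd', hn']; field_simp; ring
  have hcol : ∀ j, ∑ i, l (i, j) = r j := by
    intro j
    rw [← hrow j]
    refine sum_congr rfl fun i _ => ?_
    simp only [l]
    split_ifs <;> rfl
  have hcard : (Fintype.card ι : ℝ) ≤ 2 * s ^ 8 := by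
    have h1 : (Fintype.card ι : ℝ) = s ^ 7 + s ^ 8 := by
      rw [← hd', ← hn', ← card_add_card_compl Big]; push_cast; ring
    have h2 : s ^ 7 ≤ s ^ 8 := pow_le_pow_right₀ hs1 (by norm_num)
    linarith only [h1, h2]
  have hcard2 : (Fintype.card (ι × ι) : ℝ) ≤ 4 * s ^ 16 := by
    rw [Fintype.card_prod]
    push_cast
    have : (0 : ℝ) ≤ Fintype.card ι := by positivity
    calc _ ≤ (2 * s ^ 8) * (2 * s ^ 8) := mul_le_mul hcard hcard this (this.trans hcard)
      _ = _ := by ring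
  have hV : ∑ c, (l c + 8 * l c ^ 2) ≤ 70 * s ^ 16 := by
    have h1 : ∀ c, l c + 8 * l c ^ 2 ≤
        (if c.1 ∈ Big then (if c.2 ∈ Big then 34 * s ^ 2 else 0) else 0) + 9 := by
      intro c
      have big : ∀ z : ℝ, 0 ≤ z → z ≤ 2 * s → z + 8 * z ^ 2 ≤ 34 * s ^ 2 + 9 := by
        intro z h0 h1
        have q1 : z ^ 2 ≤ (2 * s) ^ 2 := pow_le_pow_left₀ h0 h1 2
        have q2 : s ≤ s ^ 2 := le_self_pow₀ hs1 (by norm_num)
        linarith only [q1, q2, h1]
      have small : ∀ z : ℝ, 0 ≤ z → z ≤ 1 → z + 8 * z ^ 2 ≤ 0 + 9 := by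
        intro z h0 h1
        have : z ^ 2 ≤ 1 := pow_le_one₀ h0 h1
        linarith only [this, h1]
      have b := hl0 c
      split_ifs with h1 h2
      · exact big _ b (hl2 c)
      · exact small _ b (by simp only [l, h1, h2, if_true, if_false]; exact ht2)
      · refine small _ b ?_
        simp only [l, h1, if_false]
        split_ifs
        · exact ht2
        · linarith only [hηt0]
    refine (sum_le_sum fun c _ => h1 c).trans ?_
    rw [sum_add_distrib, sum_const, card_univ, nsmul_eq_mul, Fintype.sum_prod_type]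
    have h2 : ∀ i, ∑ j, (if i ∈ Big then (if j ∈ Big then 34 * s ^ 2 else 0) else 0) =
        if i ∈ Big then s ^ 7 * (34 * s ^ 2) else 0 := by
      intro i
      split_ifs
      · rw [sum_ite_big, hd']; ring
      · simp
    simp only [h2]
    rw [sum_ite_big, hd']
    linarith only [hcard2]
  obtain ⟨D, hD⟩ : ∃ D : ℕ, (D : ℝ) = 76 * s ^ 12 :=
    ⟨76 * (u ^ 2) ^ 12, by rw [hs]; push_cast; ring⟩
  have hs4 : s ≤ s ^ 4 := le_self_pow₀ hs1 (by norm_num)
  have hs3 : 36 ≤ s ^ 3 := hs36.trans (le_self_pow₀ hs1 (by norm_num))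
  have hlow := tab_lower hl r hrow hcol (θ := 1 / s ^ 4) (D := D) (by positivity)
    (by rw [div_le_one (by positivity)]; linarith only [hs4, hs1])
    (fun c => by
      have := hl2 c
      rw [mul_one_div, div_le_one (by positivity)]
      have e : 36 * s ≤ s ^ 3 * s := mul_le_mul_of_nonneg_right hs3 hs0.le
      linarith only [this, e, hs0]) hV
    (by
      refine (mul_le_mul_of_nonneg_right (two_pow_le_exp _) (exp_pos _).le).trans ?_
      rw [← exp_add]
      refine (exp_neg_le _ ?_).trans (by norm_num)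
      have e1 : 1 / s ^ 4 * D = 76 * s ^ 8 := by rw [hD]; field_simp
      have e2 : (1 / s ^ 4) ^ 2 * (70 * s ^ 16) = 70 * s ^ 8 := by field_simp
      have e3 : 1 ≤ s ^ 8 := one_le_pow₀ hs1
      rw [e1, e2]
      linarith only [e3, hcard])
  set τ := s ^ 8 - s ^ 4 with hτ
  set Bad := (tab r).filter fun X => k ≤ (Big.filter fun i => τ < SS Big X i).card with hBad
  have hup := bad_upper hl0 Big (t := t) (τ := τ) (θ := 1 / (72 * s)) k
    (fun i hi j hj => by simp [l, hi, hj]) (by positivity)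
    (by rw [div_le_one (by positivity)]; linarith only [hs1])
    (fun c => by
      have := hl2 c
      rw [mul_one_div, div_le_one (by positivity)]
      linarith only [this, hs0]) Bad (fun X hX => (mem_filter.1 hX).2)
  let a : ι → ℝ := fun i => if i ∈ Big then x else y
  have ha : ∀ c, l c / (1 + l c) = a c.1 * a c.2 := by
    intro c
    simp only [l, a]
    split_ifs
    · exact e11
    · exact e12
    · rw [e12, mul_comm]
    · exact e22
  set w := (∏ i, a i ^ r i) ^ 2 with hw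
  have hw0 : 0 < w := by
    refine pow_pos (prod_pos fun i _ => pow_pos ?_ _) 2
    simp only [a]; split_ifs <;> assumption
  rw [sum_congr rfl fun X hX => wt_tab a ha r hX, sum_const, nsmul_eq_mul, ← hw] at hlow
  rw [sum_congr rfl fun X hX => wt_tab a ha r (mem_filter.1 hX).1, sum_const, nsmul_eq_mul,
    ← hw] at hup
  have hZ := Zt_pos hl0
  -- the exponent in the upper bound
  have hexp : -(1 / (72 * s) * (k * (τ - Bigᶜ.card * t))) +
      (1 / (72 * s)) ^ 2 * (k * Bigᶜ.card * (t + 8 * t ^ 2)) ≤ -(s ^ 13 / 2304) := by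
    rw [hn', hk']
    have b1 : s ^ 7 / 4 ≤ τ - s ^ 8 * t := by
      have c1 : s ^ 8 * t ≤ s ^ 8 * (1 - 1 / s / 2) := mul_le_mul_of_nonneg_left ht1 (by positivity)
      have c2 : s ^ 8 * (1 - 1 / s / 2) = s ^ 8 - s ^ 7 / 2 := by field_simp
      have c3 : 36 * s ^ 4 ≤ s ^ 7 := by
        have : s ^ 7 = s ^ 3 * s ^ 4 := by ring
        rw [this]; exact mul_le_mul_of_nonneg_right hs3 (pow_pos hs0 4).le
      have c4 : 0 ≤ s ^ 4 := (pow_pos hs0 4).le
      rw [hτ]
      linarith only [c1, c2, c3, c4]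
    have b2 : t + 8 * t ^ 2 ≤ 9 := by
      have : t ^ 2 ≤ 1 := pow_le_one₀ ht3 ht2
      linarith only [this, ht2]
    have b0 : 0 ≤ s ^ 7 / 4 := div_nonneg (pow_pos hs0 7).le (by norm_num)
    have b3 : 1 / (72 * s) * (s ^ 7 / 4 * (s ^ 7 / 4)) ≤
        1 / (72 * s) * (s ^ 7 / 4 * (τ - s ^ 8 * t)) :=
      mul_le_mul_of_nonneg_left (mul_le_mul_of_nonneg_left b1 b0)
        (one_div_pos.2 (mul_pos (by norm_num) hs0)).le
    have b4 : (1 / (72 * s)) ^ 2 * (s ^ 7 / 4 * s ^ 8 * (t + 8 * t ^ 2)) ≤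
        (1 / (72 * s)) ^ 2 * (s ^ 7 / 4 * s ^ 8 * 9) :=
      mul_le_mul_of_nonneg_left (mul_le_mul_of_nonneg_left b2 (mul_nonneg b0 (pow_pos hs0 8).le))
        (sq_nonneg _)
    have b5 : 1 / (72 * s) * (s ^ 7 / 4 * (s ^ 7 / 4)) = s ^ 13 / 1152 := by field_simp; norm_num
    have b6 : (1 / (72 * s)) ^ 2 * (s ^ 7 / 4 * s ^ 8 * 9) = s ^ 13 / 2304 := by
      field_simp; norm_num
    linarith only [b3, b4, b5, b6]
  have hc0 : (0 : ℝ) ≤ 9 * (2 * Fintype.card (ι × ι) + 1) := by
    linarith only [Nat.cast_nonneg (α := ℝ) (Fintype.card (ι × ι))]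
  have hTw : 0 ≤ ((tab r).card : ℝ) * w := mul_nonneg (Nat.cast_nonneg _) hw0.le
  have hK : (9 * (2 * Fintype.card (ι × ι) + 1) : ℝ) ^ (4 * D) ≤ exp (12160 * u * s ^ 12) := by
    have c1 : (9 * (2 * Fintype.card (ι × ι) + 1) : ℝ) ≤ exp (40 * u) := by
      have c2 : 1 ≤ s ^ 16 := one_le_pow₀ hs1
      have c3 : 81 * s ^ 16 ≤ s ^ 20 := by
        have : s ^ 20 = s ^ 4 * s ^ 16 := by ring
        have c4 : 81 ≤ s ^ 4 := by
          have e : 36 * s ≤ s ^ 3 * s := mul_le_mul_of_nonneg_right hs3 hs0.le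
          linarith only [e, hs36]
        rw [this]; exact mul_le_mul_of_nonneg_right c4 (pow_pos hs0 16).le
      have c5 : s ^ 20 ≤ exp (40 * u) := by
        rw [hsu, ← pow_mul, show (40 : ℝ) * u = (40 : ℕ) * u by norm_num, exp_nat_mul]
        refine pow_le_pow_left₀ hu0 ?_ 40
        linarith only [add_one_le_exp (u : ℝ)]
      linarith only [hcard2, c2, c3, c5]
    refine (pow_le_pow_left₀ hc0 c1 _).trans (le_of_eq ?_)
    rw [← exp_nat_mul]
    congr 1
    push_cast
    rw [hD]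
    ring
  have hBadle : 8 * (Bad.card : ℝ) ≤ (tab r).card := by
    have c1 : (Bad.card : ℝ) * w ≤ exp (s ^ 7) * (Zt l * exp (-(s ^ 13 / 2304))) := by
      refine hup.trans ?_
      rw [← hd']
      exact mul_le_mul (two_pow_le_exp _) (mul_le_mul_of_nonneg_left (exp_le_exp.2 hexp) hZ.le)
        (mul_pos hZ (exp_pos _)).le (exp_pos _).le
    have c2 : Zt l ≤ 2 * (exp (12160 * u * s ^ 12) * ((tab r).card * w)) := by
      have : (9 * (2 * Fintype.card (ι × ι) + 1) : ℝ) ^ (4 * D) * ((tab r).card * w) ≤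
        exp (12160 * u * s ^ 12) * ((tab r).card * w) := mul_le_mul_of_nonneg_right hK hTw
      linarith only [this, hlow]
    have c3 : exp (s ^ 7) * exp (12160 * u * s ^ 12) * exp (-(s ^ 13 / 2304)) ≤ 1 / 16 := by
      rw [← exp_add, ← exp_add]
      refine exp_neg_le _ ?_
      have d1 : s ^ 7 ≤ s ^ 12 := pow_le_pow_right₀ hs1 (by norm_num)
      have d2 : 1 ≤ s ^ 12 := one_le_pow₀ hs1
      have d3 : (12160 * u + 5) ≤ s / 2304 := by
        have e : 3 * 10 ^ 7 * (u : ℝ) ≤ u * u := mul_le_mul_of_nonneg_right hu' hu0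
        rw [hsu]; linarith only [e, hu6]
      have d4 : (12160 * u + 5) * s ^ 12 ≤ s / 2304 * s ^ 12 :=
        mul_le_mul_of_nonneg_right d3 (pow_pos hs0 12).le
      linarith only [d1, d2, d4]
    have c4 : (Bad.card : ℝ) * w ≤ (tab r).card / 8 * w := by
      calc _ ≤ exp (s ^ 7) * (2 * (exp (12160 * u * s ^ 12) * ((tab r).card * w)) *
            exp (-(s ^ 13 / 2304))) := c1.trans (mul_le_mul_of_nonneg_left
              (mul_le_mul_of_nonneg_right c2 (exp_pos _).le) (exp_pos _).le)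
        _ = 2 * ((tab r).card * w) *
            (exp (s ^ 7) * exp (12160 * u * s ^ 12) * exp (-(s ^ 13 / 2304))) := by ring
        _ ≤ 2 * ((tab r).card * w) * (1 / 16) :=
            mul_le_mul_of_nonneg_left c3 (mul_nonneg zero_le_two hTw)
        _ = _ := by ring
    have := le_of_mul_le_mul_right c4 hw0
    linarith only [this]
  have hBadle' : 8 * Bad.card ≤ (tab r).card := by exact_mod_cast hBadle
  have hc := count r Big τ k (i₀ := i₀) (fun i hi => by rw [hr, hr, if_pos hi, if_pos hi₀])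
  rw [← hBad, hd, ← hk] at hc
  have hk0 : 0 < k := by
    have : 0 < (u ^ 2) ^ 7 := by positivity
    omega
  have : k * (8 * ((tab r).filter fun X => τ < SS Big X i₀).card) ≤ k * (3 * (tab r).card) := by
    have e := Nat.mul_le_mul_left k hBadle'
    linarith only [e, hc]
  exact Nat.le_of_mul_le_mul_left this hk0

end Pool.Agent.Work.MP_1d48d5_pr
end

-- merged part: Pool.Agent.Work.MP_1d48d5_pr.Main
section
namespace Pool.Agent.Work.MP_1d48d5_pr

open Finset MeasureTheory ProbabilityTheory Filter Topology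
open scoped BoundedContinuousFunction

/-- The test function. -/
noncomputable def test : ℝ →ᵇ ℝ :=
  BoundedContinuousFunction.ofNormedAddCommGroup (fun x => max 0 (min 1 (x + 1))) (by fun_prop) 1
    (fun x => by
      rw [Real.norm_eq_abs, abs_of_nonneg (le_max_left _ _)]
      exact max_le zero_le_one (min_le_left _ _))

lemma test_apply (x : ℝ) : test x = max 0 (min 1 (x + 1)) := rfl

lemma test_gauss (v : NNReal) : 1 / 2 ≤ ∫ x, test x ∂(gaussianReal 0 v) := by
  have h1 : ∫ x, test (-x) ∂(gaussianReal 0 v) = ∫ x, test x ∂(gaussianReal 0 v) := by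
    have := integral_map (μ := gaussianReal 0 v) (φ := fun x : ℝ => -x) (f := fun x => test x)
      (by fun_prop) test.continuous.aestronglyMeasurable
    rw [← this, gaussianReal_map_neg, neg_zero]
  have i1 : Integrable (fun x => test x) (gaussianReal 0 v) := test.integrable _
  have i2 : Integrable (fun x => test (-x)) (gaussianReal 0 v) :=
    (test.compContinuous ⟨fun x => -x, continuous_neg⟩).integrable _
  have h2 : ∫ _x, (1 : ℝ) ∂(gaussianReal 0 v) ≤ ∫ x, (test x + test (-x)) ∂(gaussianReal 0 v) := by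
    refine integral_mono (integrable_const _) (i1.add i2) fun x => ?_
    simp only [test_apply]
    rcases le_total 0 x with h | h
    · have : min 1 (x + 1) = 1 := min_eq_left (by linarith)
      rw [this]
      have := le_max_left 0 (min 1 (-x + 1))
      have := le_max_right (0 : ℝ) 1
      linarith
    · have : min 1 (-x + 1) = 1 := min_eq_left (by linarith)
      rw [this]
      have := le_max_left 0 (min 1 (x + 1))
      have := le_max_right (0 : ℝ) 1
      linarith
  rw [integral_add i1 i2, h1] at h2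
  simp at h2
  linarith

lemma step (u k ρ d n : ℕ) (hu : 3 * 10 ^ 7 ≤ u) (hd : d = (u ^ 2) ^ 7) (hn : n = (u ^ 2) ^ 8)
    (hk : 4 * k = (u ^ 2) ^ 7) (hρ : 3 * ρ = (u ^ 2) ^ 8) (r : Fin (d + n) → ℕ)
    (hr : ∀ i, r i = if (i : ℕ) < d then 2 * n else ρ) :
    ∫ X, test (((blockSum d n X : ℝ) - n) / √n) ∂(uniformOn (tables r r)) ≤ 3 / 8 := by
  classical
  have hu0 : 0 < u := by omega
  have hd0 : 0 < d := by rw [hd]; positivity
  have hn0 : 0 < n := by rw [hn]; positivity
  let Big : Finset (Fin (d + n)) := univ.filter fun i => (i : ℕ) < d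
  have hBigc : Bigᶜ = univ.map (Fin.natAddEmb d) := by
    ext i
    simp only [Big, mem_compl, mem_filter, mem_univ, true_and, not_lt, Finset.mem_map,
      Fin.natAddEmb_apply]
    constructor
    · intro h
      exact ⟨⟨i - d, by omega⟩, by ext; simp; omega⟩
    · rintro ⟨a, rfl⟩
      simp
  have hc2 : Bigᶜ.card = n := by rw [hBigc]; simp
  have hc1 : Big.card = d := by
    have := card_add_card_compl Big
    simp only [Fintype.card_fin] at this
    omega
  let i₀ : Fin (d + n) := ⟨0, by omega⟩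
  have hmain := main_bound u k ρ hu Big (hc1.trans hd) (hc2.trans hn) hk hρ r
    (fun i => by rw [hr i, ← hn]; simp [Big]) (i₀ := i₀) (by simp [Big, i₀, hd0])
  have hsq : √(n : ℝ) = ((u ^ 2 : ℕ) : ℝ) ^ 4 := by
    rw [Real.sqrt_eq_iff_mul_self_eq (by positivity) (by positivity), hn]
    push_cast
    ring
  have hn' : (n : ℝ) = ((u ^ 2 : ℕ) : ℝ) ^ 8 := by rw [hn]; push_cast; ring
  rw [← hsq, ← hn'] at hmain
  have hS : ∀ Y : Fin (d + n) × Fin (d + n) → ℕ,
      blockSum d n (Function.curry Y) = SS Big Y i₀ := by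
    intro Y
    rw [SS, hBigc, sum_map]
    rfl
  let e : (Fin (d + n) × Fin (d + n) → ℕ) ↪ (Fin (d + n) → Fin (d + n) → ℕ) :=
    ⟨Function.curry, Function.curry_injective⟩
  let T := (tab r).map e
  have hT : tables r r = (T : Set _) := by
    ext X
    simp only [tables, Set.mem_ofPred_eq, T, coe_map, Set.mem_image, mem_coe, mem_tab]
    constructor
    · intro h
      exact ⟨Function.uncurry X, h, rfl⟩
    · rintro ⟨Y, h, rfl⟩
      exact h
  let A : Set (Fin (d + n) → Fin (d + n) → ℕ) := {X | (n : ℝ) - √n < blockSum d n X}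
  have hA : MeasurableSet A := (Set.to_countable A).measurableSet
  have h1 : ∫ X, test (((blockSum d n X : ℝ) - n) / √n) ∂(uniformOn (tables r r)) ≤
      ∫ X, A.indicator (fun _ => (1 : ℝ)) X ∂(uniformOn (tables r r)) := by
    refine integral_mono_of_nonneg (Eventually.of_forall fun X => le_max_left _ _)
      ((integrable_const _).indicator hA) (Eventually.of_forall fun X => ?_)
    simp only [test_apply]
    by_cases hX : X ∈ A
    · rw [Set.indicator_of_mem hX]
      exact max_le zero_le_one (min_le_left _ _)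
    · rw [Set.indicator_of_notMem hX]
      refine max_le le_rfl ((min_le_right _ _).trans ?_)
      have h2 : (blockSum d n X : ℝ) ≤ n - √n := not_lt.1 hX
      have h3 : (0 : ℝ) < √n := Real.sqrt_pos.2 (by exact_mod_cast hn0)
      have h4 : ((blockSum d n X : ℝ) - n) / √n ≤ -1 := by
        rw [div_le_iff₀ h3]; linarith
      linarith
  refine h1.trans ?_
  rw [integral_indicator_const _ hA, smul_eq_mul, mul_one, hT, Measure.real,
    ← uniformOn_inter_self T.finite_toSet]
  have h5 : (T : Set _) ∩ A =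
      (((tab r).filter fun Y => (n : ℝ) - √n < SS Big Y i₀).map e : Finset _) := by
    ext X
    simp only [T, A, coe_map, Set.mem_inter_iff, Set.mem_image, mem_coe, mem_filter,
      Set.mem_ofPred_eq]
    constructor
    · rintro ⟨⟨Y, hY, rfl⟩, h⟩
      exact ⟨Y, ⟨hY, by rw [← hS]; exact h⟩, rfl⟩
    · rintro ⟨Y, ⟨hY, h⟩, rfl⟩
      exact ⟨⟨Y, hY, rfl⟩, by rw [← hS] at h; exact h⟩
  rw [h5, uniformOn_apply_finset, ENNReal.toReal_div]
  simp only [ENNReal.toReal_natCast]
  have h6 : ((T ∩ ((tab r).filter fun Y => (n : ℝ) - √n < SS Big Y i₀).map e).card : ℝ) ≤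
      ((tab r).filter fun Y => (n : ℝ) - √n < SS Big Y i₀).card := by
    rw [← card_map e]
    exact_mod_cast card_le_card inter_subset_right
  have h7 : (T.card : ℝ) = (tab r).card := by rw [card_map]
  have h8 : 8 * (((tab r).filter fun Y => (n : ℝ) - √n < SS Big Y i₀).card : ℝ) ≤
      3 * (tab r).card := by exact_mod_cast hmain
  refine div_le_of_le_mul₀ (Nat.cast_nonneg _) (by norm_num) ?_
  linarith only [h6, h7, h8]

lemma Bc_third : Bc (1 / 3) = 3 := by
  have : √(1 + 1 / (1 / 3) : ℝ) = 2 := by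
    rw [Real.sqrt_eq_iff_mul_self_eq (by norm_num) (by norm_num)]
    norm_num
  rw [Bc, this]
  norm_num

lemma dim_eq (s : ℕ) : dim (7 / 8) (s ^ 8) = s ^ 7 := by
  unfold dim
  have : ((s ^ 8 : ℕ) : ℝ) ^ (7 / 8 : ℝ) = ((s ^ 7 : ℕ) : ℝ) := by
    push_cast
    rw [← Real.rpow_natCast, ← Real.rpow_mul (by positivity), ← Real.rpow_natCast]
    norm_num
  rw [this, Nat.floor_natCast]

theorem main (v : NNReal) :
    ¬ ∀ f : ℝ →ᵇ ℝ, Tendsto (fun n : ℕ =>
        ∫ X, f (((blockSum (dim (7 / 8) n) n X : ℝ) - Bc (1 / 3) * (1 / 3) * n) / √n)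
          ∂(uniformOn (tables (margin 6 (1 / 3) (7 / 8) n) (margin 6 (1 / 3) (7 / 8) n))))
      atTop (𝓝 (∫ x, f x ∂(gaussianReal 0 v))) := by
  intro h
  have hsub : Tendsto (fun w : ℕ => ((6 * w) ^ 2) ^ 8) atTop atTop := by
    refine tendsto_atTop_mono (fun w => ?_) tendsto_id
    rw [← pow_mul]
    exact (show w ≤ 6 * w by omega).trans (Nat.le_self_pow (by norm_num) _)
  have h1 := (h test).comp hsub
  have h2 := le_of_tendsto h1 (b := 3 / 8) (by
    filter_upwards [eventually_ge_atTop (3 * 10 ^ 7)] with w hw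
    have e1 : Bc (1 / 3) * (1 / 3) = 1 := by rw [Bc_third]; norm_num
    simp only [Function.comp, e1, one_mul]
    refine step (6 * w) (9 * w ^ 2 * ((6 * w) ^ 2) ^ 6) (12 * w ^ 2 * ((6 * w) ^ 2) ^ 7) _ _
      (by omega) (dim_eq _) rfl (by ring) (by ring) _ fun i => ?_
    unfold margin
    split_ifs
    · rw [← Nat.floor_natCast (R := ℝ) (2 * _)]
      congr 1
      push_cast
      ring
    · rw [← Nat.floor_natCast (R := ℝ) (12 * w ^ 2 * _)]
      congr 1
      push_cast
      ring)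
  linarith [test_gauss v]

end Pool.Agent.Work.MP_1d48d5_pr
end
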